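import Mathlib

set_option autoImplicit false

namespace Pool.Agent.KS6_1.Beu

open Finset

/-- Completely multiplicative extension of `r` (defined by its values at the primes). -/
noncomputable def Q (r : ℕ → ℝ) (n : ℕ) : ℝ := n.factorization.prod fun p k => r p ^ k

/-- `r` is good if `p ^ η ≤ r p` for all primes `p`, for some `η > 0`. -/
def Good (r : ℕ → ℝ) : Prop := ∃ η : ℝ, 0 < η ∧ ∀ p : ℕ, p.Prime → (p : ℝ) ^ η ≤ r p

/-- Counting function. -/
noncomputable def N (r : ℕ → ℝ) (x : ℝ) : ℝ := (Set.ncard {n : ℕ | n ≠ 0 ∧ Q r n ≤ x} : ℝ)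

/-- Counting function of the integers not divisible by `p`. -/
noncomputable def Np (r : ℕ → ℝ) (p : ℕ) (x : ℝ) : ℝ :=
  (Set.ncard {n : ℕ | n ≠ 0 ∧ ¬ p ∣ n ∧ Q r n ≤ x} : ℝ)

theorem Q_one (r : ℕ → ℝ) : Q r 1 = 1 := by simp [Q]

theorem Q_mul (r : ℕ → ℝ) {m n : ℕ} (hm : m ≠ 0) (hn : n ≠ 0) : Q r (m * n) = Q r m * Q r n := by
  unfold Q
  rw [Nat.factorization_mul hm hn, Finsupp.prod_add_index']
  · intro a; simp
  · intro a b c; exact pow_add _ _ _

theorem Q_prime (r : ℕ → ℝ) {p : ℕ} (hp : p.Prime) : Q r p = r p := by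
  unfold Q
  rw [hp.factorization, Finsupp.prod_single_index] <;> simp

theorem Q_congr {r s : ℕ → ℝ} {n : ℕ} (h : ∀ p : ℕ, p.Prime → p ∣ n → r p = s p) : Q r n = Q s n := by
  unfold Q
  apply Finsupp.prod_congr
  intro p hp
  rw [Nat.support_factorization, Nat.mem_primeFactors] at hp
  rw [h p hp.1 hp.2.1]

theorem Good.pos {r : ℕ → ℝ} (h : Good r) {p : ℕ} (hp : p.Prime) : 1 < r p := by
  obtain ⟨η, hη, H⟩ := h
  exact lt_of_lt_of_le (Real.one_lt_rpow (by exact_mod_cast hp.one_lt) hη) (H p hp)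

theorem Q_mono {r s : ℕ → ℝ} {n : ℕ} (h0 : ∀ p : ℕ, p.Prime → 0 ≤ r p)
    (h : ∀ p : ℕ, p.Prime → r p ≤ s p) : Q r n ≤ Q s n := by
  unfold Q
  unfold Finsupp.prod
  apply Finset.prod_le_prod
  · intro p hp
    rw [Nat.support_factorization, Nat.mem_primeFactors] at hp
    exact pow_nonneg (h0 p hp.1) _
  · intro p hp
    rw [Nat.support_factorization, Nat.mem_primeFactors] at hp
    exact pow_le_pow_left₀ (h0 p hp.1) (h p hp.1) _

theorem Q_id {n : ℕ} (hn : n ≠ 0) : Q (fun p => (p : ℝ)) n = n := by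
  unfold Q
  have := Nat.prod_factorization_pow_eq_self hn
  conv_rhs => rw [← this]
  simp [Finsupp.prod]

theorem Q_rpow (η : ℝ) {n : ℕ} (hn : n ≠ 0) : Q (fun p => (p : ℝ) ^ η) n = (n : ℝ) ^ η := by
  have h : ∀ m : ℕ, m ≠ 0 → Q (fun p => (p : ℝ) ^ η) m = (Q (fun p => (p : ℝ)) m) ^ η := by
    intro m hm
    unfold Q Finsupp.prod
    rw [← Real.finsetProd_rpow]
    · apply Finset.prod_congr rfl
      intro p hp
      simp only []
      rw [← Real.rpow_natCast, ← Real.rpow_natCast, ← Real.rpow_mul (by positivity),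
        ← Real.rpow_mul (by positivity), mul_comm]
    · intro i hi
      positivity
  rw [h n hn, Q_id hn]

theorem Good.le_Q {r : ℕ → ℝ} {η : ℝ} (H : ∀ p : ℕ, p.Prime → (p : ℝ) ^ η ≤ r p) {n : ℕ}
    (hn : n ≠ 0) : (n : ℝ) ^ η ≤ Q r n := by
  rw [← Q_rpow η hn]
  apply Q_mono
  · intro p hp; positivity
  · exact H

theorem Good.one_le_Q {r : ℕ → ℝ} (h : Good r) {n : ℕ} (hn : n ≠ 0) : 1 ≤ Q r n := by
  obtain ⟨η, hη, H⟩ := h
  exact le_trans (Real.one_le_rpow (by exact_mod_cast Nat.one_le_iff_ne_zero.2 hn) hη.le)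
    (Good.le_Q H hn)

theorem Good.finite {r : ℕ → ℝ} (h : Good r) (x : ℝ) : {n : ℕ | n ≠ 0 ∧ Q r n ≤ x}.Finite := by
  obtain ⟨η, hη, H⟩ := h
  apply Set.Finite.subset (Set.finite_Iic (⌊(max x 0) ^ (1 / η)⌋₊))
  intro n hn
  obtain ⟨hn0, hn1⟩ := hn
  simp only [Set.mem_Iic]
  apply Nat.le_floor
  have h1 : (n : ℝ) ^ η ≤ max x 0 := (Good.le_Q H hn0).trans (hn1.trans (le_max_left _ _))
  have h2 : ((n : ℝ) ^ η) ^ (1 / η) ≤ (max x 0) ^ (1 / η) :=
    Real.rpow_le_rpow (by positivity) h1 (by positivity)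
  rwa [← Real.rpow_mul (by positivity), mul_one_div_cancel hη.ne', Real.rpow_one] at h2

theorem N_step {r : ℕ → ℝ} (h : Good r) {p : ℕ} (hp : p.Prime) (x : ℝ) :
    N r x = Np r p x + N r (x / r p) := by
  have hr : 0 < r p := lt_trans one_pos (h.pos hp)
  have hset : {n : ℕ | n ≠ 0 ∧ Q r n ≤ x} =
      {n : ℕ | n ≠ 0 ∧ ¬ p ∣ n ∧ Q r n ≤ x} ∪ (fun n => p * n) '' {n : ℕ | n ≠ 0 ∧ Q r n ≤ x / r p} := by
    ext n
    simp only [Set.mem_ofPred_eq, Set.mem_union, Set.mem_image]
    constructor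
    · rintro ⟨hn, hx⟩
      by_cases hd : p ∣ n
      · right
        obtain ⟨m, rfl⟩ := hd
        have hm : m ≠ 0 := by rintro rfl; simp at hn
        refine ⟨m, ⟨hm, ?_⟩, rfl⟩
        rw [Q_mul r hp.ne_zero hm, Q_prime r hp] at hx
        rw [le_div_iff₀ hr]; linarith
      · left
        exact ⟨hn, hd, hx⟩
    · rintro (⟨hn, _, hx⟩ | ⟨m, ⟨hm, hx⟩, rfl⟩)
      · exact ⟨hn, hx⟩
      · refine ⟨Nat.mul_ne_zero hp.ne_zero hm, ?_⟩
        rw [Q_mul r hp.ne_zero hm, Q_prime r hp]
        rw [le_div_iff₀ hr] at hx; linarith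
  have hdisj : Disjoint {n : ℕ | n ≠ 0 ∧ ¬ p ∣ n ∧ Q r n ≤ x}
      ((fun n => p * n) '' {n : ℕ | n ≠ 0 ∧ Q r n ≤ x / r p}) := by
    rw [Set.disjoint_left]
    rintro n ⟨_, hn, _⟩ ⟨m, _, rfl⟩
    exact hn (dvd_mul_right _ _)
  have hf1 : {n : ℕ | n ≠ 0 ∧ ¬ p ∣ n ∧ Q r n ≤ x}.Finite :=
    (h.finite x).subset (fun n hn => ⟨hn.1, hn.2.2⟩)
  unfold N Np
  rw [hset, Set.ncard_union_eq hdisj hf1 ((h.finite _).image _),
    Set.ncard_image_of_injective _ (fun a b hab => Nat.eq_of_mul_eq_mul_left hp.pos hab)]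
  push_cast
  rfl

theorem Np_congr {r s : ℕ → ℝ} {p : ℕ} (h : ∀ q : ℕ, q.Prime → q ≠ p → r q = s q) (x : ℝ) :
    Np r p x = Np s p x := by
  unfold Np
  congr 2
  ext n
  simp only [Set.mem_ofPred_eq]
  constructor
  · rintro ⟨h1, h2, h3⟩
    refine ⟨h1, h2, ?_⟩
    rwa [← Q_congr (r := r) (s := s)]
    intro q hq hqn
    apply h q hq
    rintro rfl
    exact h2 hqn
  · rintro ⟨h1, h2, h3⟩
    refine ⟨h1, h2, ?_⟩
    rwa [Q_congr (r := r) (s := s)]
    intro q hq hqn
    apply h q hq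
    rintro rfl
    exact h2 hqn

theorem N_lt_one {r : ℕ → ℝ} (h : Good r) {x : ℝ} (hx : x < 1) : N r x = 0 := by
  unfold N
  have : {n : ℕ | n ≠ 0 ∧ Q r n ≤ x} = ∅ := by
    ext n
    simp only [Set.mem_ofPred_eq, Set.mem_empty_iff_false, iff_false, not_and, not_le]
    intro hn
    exact lt_of_lt_of_le hx (h.one_le_Q hn)
  rw [this]; simp

theorem good_id : Good (fun p => (p : ℝ)) := ⟨1, one_pos, fun p _ => by simp⟩

theorem N_id {x : ℝ} (hx : 0 ≤ x) : N (fun p => (p : ℝ)) x = ⌊x⌋₊ := by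
  unfold N
  have : {n : ℕ | n ≠ 0 ∧ Q (fun p => (p : ℝ)) n ≤ x} = (Finset.Icc 1 ⌊x⌋₊ : Finset ℕ) := by
    ext n
    simp only [Set.mem_ofPred_eq, Finset.coe_Icc, Set.mem_Icc]
    constructor
    · rintro ⟨h1, h2⟩
      rw [Q_id h1] at h2
      exact ⟨Nat.one_le_iff_ne_zero.2 h1, Nat.le_floor h2⟩
    · rintro ⟨h1, h2⟩
      have h1' := Nat.one_le_iff_ne_zero.1 h1
      refine ⟨h1', ?_⟩
      rw [Q_id h1']
      exact (Nat.le_floor_iff hx).1 h2
  rw [this, Set.ncard_coe_finset]
  simp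

/-- The density factor of one prime. -/
noncomputable def dens (r : ℕ → ℝ) (p : ℕ) : ℝ := (1 - 1 / (p : ℝ)) / (1 - 1 / r p)

/-- The error factor of one prime. -/
noncomputable def errf (r : ℕ → ℝ) (σ : ℝ) (p : ℕ) : ℝ :=
  (1 + (p : ℝ) ^ (-σ)) / (1 - (r p) ^ (-σ))

/-- The truncation of `r` to the finite set `S` of primes. -/
noncomputable def tr (r : ℕ → ℝ) (S : Finset ℕ) (p : ℕ) : ℝ := if p ∈ S then r p else p

theorem good_tr {r : ℕ → ℝ} (S : Finset ℕ) (h : ∀ p ∈ S, p.Prime → 1 < r p) : Good (tr r S) := by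
  classical
  induction S using Finset.induction_on with
  | empty =>
    refine ⟨1, one_pos, fun p _ => ?_⟩
    simp [tr]
  | insert a S ha ih =>
    obtain ⟨η, hη, H⟩ := ih (fun p hp => h p (Finset.mem_insert_of_mem hp))
    by_cases hap : a.Prime
    · have h1 := h a (Finset.mem_insert_self _ _) hap
      have hla : 0 < Real.log a := Real.log_pos (by exact_mod_cast hap.one_lt)
      have hlr : 0 < Real.log (r a) := Real.log_pos h1
      refine ⟨min η (Real.log (r a) / Real.log a), lt_min hη (by positivity), fun p hp => ?_⟩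
      have hp1 : (1 : ℝ) ≤ p := by exact_mod_cast hp.one_le
      by_cases hpa : p = a
      · subst hpa
        simp only [tr, Finset.mem_insert_self, if_true]
        calc (p : ℝ) ^ min η (Real.log (r p) / Real.log p)
            ≤ (p : ℝ) ^ (Real.log (r p) / Real.log p) :=
              Real.rpow_le_rpow_of_exponent_le hp1 (min_le_right _ _)
          _ = r p := by
              rw [Real.rpow_def_of_pos (by positivity), mul_div_cancel₀ _ hla.ne',
                Real.exp_log (by linarith)]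
      · have := H p hp
        have e : tr r (insert a S) p = tr r S p := by simp [tr, hpa]
        rw [e]
        exact (Real.rpow_le_rpow_of_exponent_le hp1 (min_le_left _ _)).trans this
    · refine ⟨η, hη, fun p hp => ?_⟩
      have hpa : p ≠ a := by rintro rfl; exact hap hp
      have e : tr r (insert a S) p = tr r S p := by simp [tr, hpa]
      rw [e]
      exact H p hp

theorem abs_floor_sub_le {x σ : ℝ} (hx : 0 < x) (hσ0 : 0 < σ) (hσ1 : σ ≤ 1) :
    |(⌊x⌋₊ : ℝ) - x| ≤ x ^ σ := by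
  rw [abs_sub_comm, abs_of_nonneg (sub_nonneg.2 (Nat.floor_le hx.le))]
  by_cases h : x < 1
  · rw [Nat.floor_eq_zero.2 h]
    simp only [Nat.cast_zero, sub_zero]
    calc x = x ^ (1 : ℝ) := (Real.rpow_one x).symm
      _ ≤ x ^ σ := Real.rpow_le_rpow_of_exponent_ge hx h.le hσ1
  · push Not at h
    have h1 : x - ⌊x⌋₊ ≤ 1 := by linarith [Nat.lt_floor_add_one x]
    exact h1.trans (Real.one_le_rpow h hσ0.le)

/-- **Lemma F.** Effect of a finite change of the primes on the counting function. -/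
theorem lemmaF {r : ℕ → ℝ} (S : Finset ℕ) (hS : ∀ p ∈ S, p.Prime) (h : ∀ p ∈ S, 1 < r p)
    {σ : ℝ} (hσ0 : 0 < σ) (hσ1 : σ ≤ 1) :
    ∀ x : ℝ, 0 < x → |N (tr r S) x - (∏ p ∈ S, dens r p) * x| ≤ (∏ p ∈ S, errf r σ p) * x ^ σ := by
  classical
  induction S using Finset.induction_on with
  | empty =>
    intro x hx
    have e : tr r ∅ = fun p : ℕ => (p : ℝ) := by funext p; simp [tr]
    rw [e, N_id hx.le]
    simp only [Finset.prod_empty, one_mul]
    exact abs_floor_sub_le hx hσ0 hσ1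
  | insert a S ha ih =>
    have ih' := ih (fun p hp => hS p (Finset.mem_insert_of_mem hp))
      (fun p hp => h p (Finset.mem_insert_of_mem hp))
    have hap : a.Prime := hS a (Finset.mem_insert_self _ _)
    have hra : 1 < r a := h a (Finset.mem_insert_self _ _)
    have hgS : Good (tr r S) := good_tr S (fun p hp _ => h p (Finset.mem_insert_of_mem hp))
    have hgS' : Good (tr r (insert a S)) := good_tr _ (fun p hp _ => h p hp)
    have ha1 : (1 : ℝ) < a := by exact_mod_cast hap.one_lt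
    have e1 : tr r S a = a := by simp [tr, ha]
    have e2 : tr r (insert a S) a = r a := by simp [tr]
    have hNp : ∀ x, Np (tr r S) a x = Np (tr r (insert a S)) a x := by
      intro x
      apply Np_congr
      intro q _ hqa
      simp [tr, hqa]
    rw [Finset.prod_insert ha, Finset.prod_insert ha]
    set ρ := ∏ p ∈ S, dens r p with hρ
    set A := ∏ p ∈ S, errf r σ p with hA
    have hra' : (r a) ^ (-σ) < 1 := Real.rpow_lt_one_of_one_lt_of_neg hra (by linarith)
    have hd1 : 0 < 1 - (r a) ^ (-σ) := by linarith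
    have hd2 : 0 < 1 - 1 / r a := by
      have : 1 / r a < 1 := by rw [div_lt_one (by linarith)]; exact hra
      linarith
    set B := errf r σ a * A with hB
    set ρ' := dens r a * ρ with hρ'
    have hρ'eq : ρ' * (1 - 1 / r a) = ρ * (1 - 1 / (a : ℝ)) := by
      have h3 : 1 - 1 / r a ≠ 0 := hd2.ne'
      rw [hρ', dens, mul_comm (_ / _) ρ, mul_assoc, div_mul_cancel₀ _ h3]
    have hBeq : B * (1 - (r a) ^ (-σ)) = A * (1 + (a : ℝ) ^ (-σ)) := by
      have h3 : 1 - (r a) ^ (-σ) ≠ 0 := hd1.ne'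
      rw [hB, errf, mul_comm (_ / _) A, mul_assoc, div_mul_cancel₀ _ h3]
    -- the key recursive inequality
    set H : ℝ → ℝ := fun x => |N (tr r (insert a S)) x - ρ' * x| - B * x ^ σ with hH
    have key : ∀ x : ℝ, 0 < x → H x ≤ H (x / r a) := by
      intro x hx
      have s1 := N_step hgS hap x
      have s2 := N_step hgS' hap x
      rw [e1] at s1
      rw [e2] at s2
      rw [hNp x] at s1
      have b1 := ih' x hx
      have b2 := ih' (x / a) (by positivity)
      have hr0 : 0 < r a := by linarith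
      have eq1 : N (tr r (insert a S)) x - ρ' * x =
          (N (tr r (insert a S)) (x / r a) - ρ' * (x / r a)) + (N (tr r S) x - ρ * x)
            - (N (tr r S) (x / a) - ρ * (x / a)) := by
        have : ρ' * x - ρ' * (x / r a) = ρ * x - ρ * (x / a) := by
          have := congrArg (fun t => t * x) hρ'eq
          calc ρ' * x - ρ' * (x / r a) = ρ' * (1 - 1 / r a) * x := by ring
            _ = ρ * (1 - 1 / (a : ℝ)) * x := this
            _ = ρ * x - ρ * (x / a) := by ring
        linarith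
      have b3 : |N (tr r (insert a S)) x - ρ' * x| ≤
          |N (tr r (insert a S)) (x / r a) - ρ' * (x / r a)| + A * x ^ σ + A * (x / a) ^ σ := by
        rw [eq1]
        calc _ ≤ |(N (tr r (insert a S)) (x / r a) - ρ' * (x / r a)) + (N (tr r S) x - ρ * x)|
            + |N (tr r S) (x / a) - ρ * (x / a)| := abs_sub _ _
          _ ≤ _ := by
            have := abs_add_le (N (tr r (insert a S)) (x / r a) - ρ' * (x / r a)) (N (tr r S) x - ρ * x)
            linarith
      have e3 : (x / a) ^ σ = x ^ σ * (a : ℝ) ^ (-σ) := by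
        rw [Real.div_rpow hx.le (by positivity), Real.rpow_neg (by positivity)]; rfl
      have e4 : (x / r a) ^ σ = x ^ σ * (r a) ^ (-σ) := by
        rw [Real.div_rpow hx.le (by positivity), Real.rpow_neg (by positivity)]; rfl
      simp only [hH]
      rw [e3] at b3
      rw [e4]
      have : A * x ^ σ + A * (x ^ σ * (a : ℝ) ^ (-σ)) = B * x ^ σ - B * (x ^ σ * (r a) ^ (-σ)) := by
        calc A * x ^ σ + A * (x ^ σ * (a : ℝ) ^ (-σ)) = A * (1 + (a : ℝ) ^ (-σ)) * x ^ σ := by ring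
          _ = B * (1 - (r a) ^ (-σ)) * x ^ σ := by rw [hBeq]
          _ = _ := by ring
      linarith
    have key2 : ∀ x : ℝ, 0 < x → ∀ k : ℕ, H x ≤ H (x / (r a) ^ k) := by
      intro x hx k
      induction k with
      | zero => simp
      | succ k ihk =>
        have := key (x / (r a) ^ k) (by positivity)
        rw [div_div, ← pow_succ] at this
        exact ihk.trans this
    intro x hx
    have hB0 : 0 ≤ B := by
      have hA0 : 0 ≤ A := by
        have := (abs_nonneg _).trans (ih' 1 one_pos)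
        simpa using this
      have : 0 ≤ errf r σ a := by unfold errf; positivity
      positivity
    have hlim : Filter.Tendsto (fun k : ℕ => |ρ'| * (x / (r a) ^ k)) Filter.atTop (nhds 0) := by
      have h1 : Filter.Tendsto (fun k : ℕ => (r a) ^ k) Filter.atTop Filter.atTop :=
        tendsto_pow_atTop_atTop_of_one_lt hra
      have h2 : Filter.Tendsto (fun k : ℕ => x / (r a) ^ k) Filter.atTop (nhds 0) :=
        Filter.Tendsto.div_atTop tendsto_const_nhds h1
      simpa using h2.const_mul |ρ'|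
    have hev : ∀ᶠ k : ℕ in Filter.atTop, H x ≤ |ρ'| * (x / (r a) ^ k) := by
      have h1 : Filter.Tendsto (fun k : ℕ => (r a) ^ k) Filter.atTop Filter.atTop :=
        tendsto_pow_atTop_atTop_of_one_lt hra
      filter_upwards [h1.eventually_gt_atTop x] with k hk
      have hpos : 0 < (r a) ^ k := by positivity
      have hlt : x / (r a) ^ k < 1 := by rw [div_lt_one hpos]; exact hk
      refine (key2 x hx k).trans ?_
      simp only [hH]
      rw [N_lt_one hgS' hlt, zero_sub, abs_neg, abs_mul, abs_of_pos (show 0 < x / (r a) ^ k by positivity)]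
      have : 0 ≤ B * (x / (r a) ^ k) ^ σ := by positivity
      linarith
    have := ge_of_tendsto hlim hev
    simp only [hH] at this
    linarith

end Pool.Agent.KS6_1.Beu
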