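import Mathlib
import Pool.Agent.KS6_1.Beurling.Basic

set_option autoImplicit false

namespace Pool.Agent.KS6_1.Beu

open Finset

/-- the set of primes up to `Y` -/
def PS (Y : ℕ) : Finset ℕ := (Finset.range (Y + 1)).filter Nat.Prime

theorem mem_PS {Y p : ℕ} : p ∈ PS Y ↔ p ≤ Y ∧ p.Prime := by
  simp [PS, Nat.lt_succ_iff]

theorem dyadic_step (K : ℕ) (hK : 1 ≤ K) :
    ∑ p ∈ (PS (2 ^ (K + 1))) \ (PS (2 ^ K)), (1 : ℝ) / p ≤ 4 / K := by
  have hK0 : (0 : ℝ) < K := by exact_mod_cast hK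
  have hl2 : 0 < Real.log 2 := Real.log_pos (by norm_num)
  have h1 : ∀ p ∈ (PS (2 ^ (K + 1))) \ (PS (2 ^ K)),
      (1 : ℝ) / p ≤ Real.log p * (1 / ((2 : ℝ) ^ K * (K * Real.log 2))) := by
    intro p hp
    rw [Finset.mem_sdiff, mem_PS, mem_PS] at hp
    obtain ⟨⟨hp1, hp2⟩, hp3⟩ := hp
    have hp4 : 2 ^ K < p := by
      by_contra hcon
      exact hp3 ⟨not_lt.1 hcon, hp2⟩
    have hp5 : (2 : ℝ) ^ K ≤ p := by exact_mod_cast hp4.le
    have hp0 : (0 : ℝ) < p := by exact_mod_cast hp2.pos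
    have hl : K * Real.log 2 ≤ Real.log p := by
      rw [← Real.log_pow]
      exact Real.log_le_log (by positivity) hp5
    rw [mul_one_div, div_le_div_iff₀ hp0 (by positivity), one_mul]
    have h6 : 0 < K * Real.log 2 := by positivity
    calc (2 : ℝ) ^ K * (K * Real.log 2) ≤ p * Real.log p :=
          mul_le_mul hp5 hl h6.le hp0.le
      _ = Real.log p * p := by ring
  have h2 : ∑ p ∈ (PS (2 ^ (K + 1))) \ (PS (2 ^ K)), Real.log p ≤ Real.log 4 * 2 ^ (K + 1) := by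
    have h3 := Chebyshev.theta_le_log4_mul_x (x := (2 : ℝ) ^ (K + 1)) (by positivity)
    refine le_trans ?_ h3
    rw [Chebyshev.theta_eq_sum_Icc]
    apply Finset.sum_le_sum_of_subset_of_nonneg
    · intro p hp
      rw [Finset.mem_sdiff, mem_PS] at hp
      simp only [Finset.mem_filter, Finset.mem_Icc]
      refine ⟨⟨Nat.zero_le _, ?_⟩, hp.1.2⟩
      apply Nat.le_floor
      exact_mod_cast hp.1.1
    · intro p hp _
      exact Real.log_natCast_nonneg p
  calc ∑ p ∈ (PS (2 ^ (K + 1))) \ (PS (2 ^ K)), (1 : ℝ) / p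
      ≤ ∑ p ∈ (PS (2 ^ (K + 1))) \ (PS (2 ^ K)),
        Real.log p * (1 / ((2 : ℝ) ^ K * (K * Real.log 2))) := Finset.sum_le_sum h1
    _ = (∑ p ∈ (PS (2 ^ (K + 1))) \ (PS (2 ^ K)), Real.log p) *
        (1 / ((2 : ℝ) ^ K * (K * Real.log 2))) := by rw [Finset.sum_mul]
    _ ≤ (Real.log 4 * 2 ^ (K + 1)) * (1 / ((2 : ℝ) ^ K * (K * Real.log 2))) := by
        apply mul_le_mul_of_nonneg_right h2; positivity
    _ = 4 / K := by
        have : Real.log 4 = 2 * Real.log 2 := by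
          rw [show (4 : ℝ) = 2 ^ 2 by norm_num, Real.log_pow]; norm_num
        rw [this]
        field_simp
        ring

theorem sum_two_pow (K : ℕ) :
    ∑ p ∈ PS (2 ^ (K + 1)), (1 : ℝ) / p ≤ 1 / 2 + 4 * (harmonic K : ℝ) := by
  induction K with
  | zero =>
    have : PS (2 ^ (0 + 1)) = {2} := by decide
    rw [this]
    simp [harmonic]
  | succ K ih =>
    have hsub : PS (2 ^ (K + 1)) ⊆ PS (2 ^ (K + 1 + 1)) := by
      intro p hp
      rw [mem_PS] at hp ⊢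
      exact ⟨hp.1.trans (Nat.pow_le_pow_right (by norm_num) (Nat.le_succ _)), hp.2⟩
    have h2 := Finset.sum_sdiff (f := fun p : ℕ => (1 : ℝ) / p) hsub
    rw [← h2]
    have h3 := dyadic_step (K + 1) (by omega)
    have h4 : (harmonic (K + 1) : ℝ) = harmonic K + 1 / (K + 1) := by
      rw [harmonic_succ]; push_cast; rw [one_div]
    rw [h4]
    push_cast at h3
    have h5 : (4 : ℝ) / (K + 1) = 4 * (1 / (K + 1)) := by ring
    rw [h5] at h3
    linarith

/-- Chebyshev-type bound `∑_{p ≤ Y} 1/p ≤ 5 + 4 log (1 + log Y / log 2)`. -/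
theorem sum_inv_le (Y : ℕ) (hY : 2 ≤ Y) :
    ∑ p ∈ PS Y, (1 : ℝ) / p ≤ 5 + 4 * Real.log (2 * Real.log Y) := by
  set K := Nat.log 2 Y with hK
  have h1 : Y < 2 ^ (K + 1) := Nat.lt_pow_succ_log_self (by norm_num) Y
  have h2 : 2 ^ K ≤ Y := Nat.pow_log_le_self 2 (by omega)
  have hK1 : 1 ≤ K := by
    rw [hK]
    exact (Nat.le_log_iff_pow_le (by norm_num) (by omega)).2 (by simpa using hY)
  have hsub : PS Y ⊆ PS (2 ^ (K + 1)) := by
    intro p hp
    rw [mem_PS] at hp ⊢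
    exact ⟨hp.1.trans h1.le, hp.2⟩
  have h3 : ∑ p ∈ PS Y, (1 : ℝ) / p ≤ ∑ p ∈ PS (2 ^ (K + 1)), (1 : ℝ) / p :=
    Finset.sum_le_sum_of_subset_of_nonneg hsub (fun p _ _ => by positivity)
  have h4 := sum_two_pow K
  have h5 := harmonic_le_one_add_log K
  have h5' : (harmonic K : ℝ) ≤ 1 + Real.log K := by exact_mod_cast h5
  have hK0 : (0 : ℝ) < K := by exact_mod_cast hK1
  have h6 : (K : ℝ) ≤ 2 * Real.log Y := by
    have h7 : (K : ℝ) * Real.log 2 ≤ Real.log Y := by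
      rw [← Real.log_pow]
      exact Real.log_le_log (by positivity) (by exact_mod_cast h2)
    have h8 : (1 : ℝ) / 2 ≤ Real.log 2 := by linarith [Real.log_two_gt_d9]
    nlinarith
  have h9 : Real.log K ≤ Real.log (2 * Real.log Y) := Real.log_le_log hK0 h6
  linarith

end Pool.Agent.KS6_1.Beu
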