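import Mathlib
import Pool.Agent.KS6_1.Beurling.Basic
import Pool.Agent.KS6_1.Beurling.Sum

set_option autoImplicit false

namespace Pool.Agent.KS6_1.Beu

open Finset Filter

/-- `r` is within `C p ^ θ` of the primes. -/
structure Close (r : ℕ → ℝ) (θ : ℝ) : Prop where
  one_lt : ∀ p : ℕ, p.Prime → 1 < r p
  close : ∃ C : ℝ, ∀ p : ℕ, p.Prime → |r p - p| ≤ C * (p : ℝ) ^ θ

theorem eventually_rpow_le {θ C : ℝ} (hθ : θ < 1) :
    ∀ᶠ p : ℕ in atTop, C * (p : ℝ) ^ θ ≤ p / 2 := by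
  have h1 : Tendsto (fun x : ℝ => x ^ (1 - θ)) atTop atTop := tendsto_rpow_atTop (by linarith)
  have h2 := (h1.comp tendsto_natCast_atTop_atTop).eventually_ge_atTop (2 * C)
  filter_upwards [h2, eventually_ge_atTop 1] with p hp hp1
  have hp0 : (0 : ℝ) < p := by exact_mod_cast hp1
  simp only [Function.comp] at hp
  have h3 : (p : ℝ) = (p : ℝ) ^ (1 - θ) * (p : ℝ) ^ θ := by
    rw [← Real.rpow_add hp0]; simp
  have h4 : 0 < (p : ℝ) ^ θ := by positivity
  have h5 : 2 * C * (p : ℝ) ^ θ ≤ (p : ℝ) ^ (1 - θ) * (p : ℝ) ^ θ :=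
    mul_le_mul_of_nonneg_right hp h4.le
  rw [← h3] at h5
  linarith

theorem Close.lower {r : ℕ → ℝ} {θ : ℝ} (h : Close r θ) (hθ : θ < 1) :
    (∃ c : ℝ, 0 < c ∧ c ≤ 1 ∧ ∀ p : ℕ, p.Prime → c * p ≤ r p) ∧
    (∃ d : ℝ, 0 < d ∧ ∀ p : ℕ, p.Prime → 1 + d ≤ r p) := by
  obtain ⟨C, hC⟩ := h.close
  obtain ⟨P, hP⟩ := (((eventually_rpow_le (C := C) hθ)).and (eventually_ge_atTop 4)).exists_forall_of_atTop
  have hbig : ∀ p : ℕ, p.Prime → P ≤ p → (p : ℝ) / 2 ≤ r p ∧ 2 ≤ r p := by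
    intro p hp hPp
    obtain ⟨h1, h2⟩ := hP p hPp
    have h3 := (abs_le.1 (hC p hp)).1
    have h4 : (4 : ℝ) ≤ p := by exact_mod_cast h2
    constructor <;> linarith
  have hP4 : 4 ≤ P := (hP P le_rfl).2
  have hP4' : (4 : ℝ) ≤ P := by exact_mod_cast hP4
  constructor
  · refine ⟨1 / P, by positivity, ?_, ?_⟩
    · rw [div_le_one (by linarith)]; linarith
    · intro p hp
      rcases le_or_gt P p with hle | hlt
      · have := (hbig p hp hle).1
        have hp0 : (0 : ℝ) ≤ p := by positivity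
        have h5 : (1 : ℝ) / P ≤ 1 / 2 := by
          apply one_div_le_one_div_of_le <;> linarith
        nlinarith
      · have h1 := h.one_lt p hp
        have h2 : (p : ℝ) < P := by exact_mod_cast hlt
        have h3 : 1 / (P : ℝ) * p < 1 := by
          rw [one_div, inv_mul_lt_iff₀ (by linarith)]; linarith
        linarith
  · have hne : (PS P).Nonempty := ⟨2, by rw [mem_PS]; exact ⟨by omega, Nat.prime_two⟩⟩
    obtain ⟨q, hq, hmin⟩ := (PS P).exists_min_image (fun p => r p) hne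
    have hq1 := h.one_lt q (mem_PS.1 hq).2
    refine ⟨min (r q - 1) 1, lt_min (by linarith) one_pos, ?_⟩
    intro p hp
    rcases le_or_gt P p with hle | hlt
    · have := (hbig p hp hle).2
      linarith [min_le_right (r q - 1) 1]
    · have := hmin p (mem_PS.2 ⟨hlt.le, hp⟩)
      linarith [min_le_left (r q - 1) 1]

theorem Close.good {r : ℕ → ℝ} {θ : ℝ} (h : Close r θ) (hθ : θ < 1) :
    ∃ η : ℝ, 0 < η ∧ η ≤ 1 ∧ ∀ p : ℕ, p.Prime → (p : ℝ) ^ η ≤ r p := by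
  obtain ⟨⟨c, hc0, hc1, hc⟩, ⟨d, hd0, hd⟩⟩ := h.lower hθ
  -- if `p ≥ c⁻²`, then `p^(1/2) ≤ c p`; else `p^η ≤ c^(-2η) ≤ 1 + d`
  set M : ℝ := (1 / c) ^ 2 + 1 with hM
  have hM1 : 1 < M := by
    have : 0 < (1 / c) ^ 2 := by positivity
    linarith
  have hlM : 0 < Real.log M := Real.log_pos hM1
  have hld : 0 < Real.log (1 + d) := Real.log_pos (by linarith)
  refine ⟨min (1 / 2) (Real.log (1 + d) / Real.log M), lt_min (by norm_num) (by positivity),
    (min_le_left _ _).trans (by norm_num), ?_⟩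
  intro p hp
  have hp1 : (1 : ℝ) ≤ p := by exact_mod_cast hp.one_le
  have hp0 : (0 : ℝ) < p := by linarith
  rcases le_or_gt M p with hle | hlt
  · refine (Real.rpow_le_rpow_of_exponent_le hp1 (min_le_left _ _)).trans ((?_ : _ ≤ c * p).trans (hc p hp))
    rw [← Real.sqrt_eq_rpow]
    have h1 : Real.sqrt p * Real.sqrt p = p := Real.mul_self_sqrt hp0.le
    have h2 : 1 / c ≤ Real.sqrt p := by
      apply Real.le_sqrt_of_sq_le; linarith
    have h3 : 0 < Real.sqrt p := Real.sqrt_pos.2 hp0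
    have h4 : 1 ≤ c * Real.sqrt p := by
      rw [div_le_iff₀ hc0] at h2; linarith
    calc Real.sqrt p = 1 * Real.sqrt p := (one_mul _).symm
      _ ≤ (c * Real.sqrt p) * Real.sqrt p := mul_le_mul_of_nonneg_right h4 h3.le
      _ = c * p := by rw [mul_assoc, h1]
  · refine (Real.rpow_le_rpow_of_exponent_le hp1 (min_le_right _ _)).trans ((?_ : _ ≤ 1 + d).trans (hd p hp))
    calc (p : ℝ) ^ (Real.log (1 + d) / Real.log M) ≤ M ^ (Real.log (1 + d) / Real.log M) :=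
          Real.rpow_le_rpow hp0.le hlt.le (by positivity)
      _ = 1 + d := by
          rw [Real.rpow_def_of_pos (by linarith), mul_div_cancel₀ _ hlM.ne', Real.exp_log (by linarith)]

theorem abs_log_le {v c : ℝ} (hc : 0 < c) (hc1 : c ≤ 1) (hv : c ≤ v) : |Real.log v| ≤ |v - 1| / c := by
  have hv0 : 0 < v := lt_of_lt_of_le hc hv
  rw [abs_le]
  constructor
  · have h1 : Real.log v⁻¹ ≤ v⁻¹ - 1 := Real.log_le_sub_one_of_pos (by positivity)
    rw [Real.log_inv] at h1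
    have h2 : v⁻¹ - 1 ≤ |v - 1| / c := by
      have : v⁻¹ - 1 = (1 - v) / v := by field_simp
      rw [this]
      calc (1 - v) / v ≤ |v - 1| / v := by
            apply div_le_div_of_nonneg_right _ hv0.le
            rw [abs_sub_comm]; exact le_abs_self _
        _ ≤ |v - 1| / c := div_le_div_of_nonneg_left (abs_nonneg _) hc hv
    linarith
  · have h1 : Real.log v ≤ v - 1 := Real.log_le_sub_one_of_pos hv0
    have h2 : v - 1 ≤ |v - 1| := le_abs_self _
    have h3 : |v - 1| ≤ |v - 1| / c := by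
      rw [le_div_iff₀ hc]; nlinarith [abs_nonneg (v - 1)]
    linarith

theorem Close.log_ratio {r : ℕ → ℝ} {θ : ℝ} (h : Close r θ) (hθ : θ < 1) :
    ∃ C : ℝ, 0 < C ∧ ∀ p : ℕ, p.Prime → |Real.log (r p) - Real.log p| ≤ C * (p : ℝ) ^ (θ - 1) := by
  obtain ⟨⟨c, hc0, hc1, hc⟩, _⟩ := h.lower hθ
  obtain ⟨C, hC⟩ := h.close
  refine ⟨(|C| + 1) / c, by positivity, ?_⟩
  intro p hp
  have hp0 : (0 : ℝ) < p := by exact_mod_cast hp.pos
  have hr0 : 0 < r p := lt_trans one_pos (h.one_lt p hp)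
  rw [← Real.log_div hr0.ne' hp0.ne']
  have h1 : c ≤ r p / p := by rw [le_div_iff₀ hp0]; exact hc p hp
  refine (abs_log_le hc0 hc1 h1).trans ?_
  have h2 : |r p / p - 1| = |r p - p| / p := by
    have : r p / p - 1 = (r p - p) / p := by field_simp
    rw [this, abs_div, abs_of_pos hp0]
  rw [h2]
  have h3 : |r p - p| ≤ (|C| + 1) * (p : ℝ) ^ θ := by
    refine (hC p hp).trans ?_
    apply mul_le_mul_of_nonneg_right _ (by positivity)
    linarith [le_abs_self C]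
  have h4 : (p : ℝ) ^ (θ - 1) = (p : ℝ) ^ θ / p := by
    rw [Real.rpow_sub hp0, Real.rpow_one]
  rw [h4]
  calc |r p - p| / p / c ≤ ((|C| + 1) * (p : ℝ) ^ θ) / p / c := by
        gcongr
    _ = (|C| + 1) / c * ((p : ℝ) ^ θ / p) := by ring

theorem dens_pos {r : ℕ → ℝ} {p : ℕ} (hp : p.Prime) (hr : 1 < r p) : 0 < dens r p := by
  have hp1 : (1 : ℝ) < p := by exact_mod_cast hp.one_lt
  have h1 : 1 / (p : ℝ) < 1 := by rw [div_lt_one (by linarith)]; exact hp1
  have h2 : 1 / (r p) < 1 := by rw [div_lt_one (by linarith)]; exact hr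
  unfold dens
  apply div_pos <;> linarith

theorem Close.log_dens {r : ℕ → ℝ} {θ : ℝ} (h : Close r θ) (hθ : θ < 1) :
    ∃ C : ℝ, 0 < C ∧ ∀ p : ℕ, p.Prime → |Real.log (dens r p)| ≤ C * (p : ℝ) ^ (θ - 2) := by
  obtain ⟨⟨c, hc0, hc1, hc⟩, ⟨d, hd0, hd⟩⟩ := h.lower hθ
  obtain ⟨C, hC⟩ := h.close
  refine ⟨(|C| + 1) / c * (1 + 1 / d) * 2, by positivity, ?_⟩
  intro p hp
  have hp0 : (0 : ℝ) < p := by exact_mod_cast hp.pos
  have hp2 : (2 : ℝ) ≤ p := by exact_mod_cast hp.two_le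
  have hr1 : 1 < r p := h.one_lt p hp
  have hr0 : 0 < r p := by linarith
  have hdp := hd p hp
  have hrm : 0 < r p - 1 := by linarith
  -- lower bound for the ratio
  have hlow : (1 : ℝ) / 2 ≤ dens r p := by
    unfold dens
    have h1 : 1 / (p : ℝ) ≤ 1 / 2 := one_div_le_one_div_of_le (by norm_num) hp2
    have h2 : 0 < 1 / r p := by positivity
    have h3 : 1 / r p < 1 := by rw [div_lt_one (by linarith)]; exact hr1
    rw [le_div_iff₀ (by linarith)]
    nlinarith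
  refine (abs_log_le (by norm_num) (by norm_num) hlow).trans ?_
  have e1 : dens r p - 1 = (p - r p) / (p * (r p - 1)) := by
    unfold dens
    have h3 : 1 - 1 / r p = (r p - 1) / r p := by field_simp
    have h4 : 1 - 1 / (p : ℝ) = (p - 1) / p := by field_simp
    rw [h3, h4]
    field_simp
    ring
  rw [e1, abs_div, abs_of_pos (show 0 < (p : ℝ) * (r p - 1) by positivity), abs_sub_comm]
  have h3 : |r p - p| ≤ (|C| + 1) * (p : ℝ) ^ θ := by
    refine (hC p hp).trans ?_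
    apply mul_le_mul_of_nonneg_right _ (by positivity)
    linarith [le_abs_self C]
  -- `r p ≤ (1 + 1/d) (r p - 1)`
  have h5 : r p ≤ (1 + 1 / d) * (r p - 1) := by
    have : (1 / d) * (r p - 1) ≥ 1 := by
      rw [ge_iff_le, one_div, ← div_eq_inv_mul, le_div_iff₀ hd0]; linarith
    nlinarith
  have h6 : (c * p) / (1 + 1 / d) ≤ r p - 1 := by
    rw [div_le_iff₀ (by positivity)]
    linarith [hc p hp]
  have h7 : (p : ℝ) ^ (θ - 2) = (p : ℝ) ^ θ / (p * p) := by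
    rw [Real.rpow_sub hp0, Real.rpow_two, pow_two]
  rw [h7]
  calc |r p - p| / (p * (r p - 1)) / (1 / 2)
      ≤ ((|C| + 1) * (p : ℝ) ^ θ) / (p * ((c * p) / (1 + 1 / d))) / (1 / 2) := by
        gcongr
    _ = (|C| + 1) / c * (1 + 1 / d) * 2 * ((p : ℝ) ^ θ / (p * p)) := by
        field_simp

theorem Close.errf_le {r : ℕ → ℝ} {θ : ℝ} (h : Close r θ) (hθ : θ < 1) :
    ∃ C : ℝ, 0 < C ∧ ∀ p : ℕ, p.Prime → ∀ σ : ℝ, 1 / 2 ≤ σ → σ ≤ 1 →
      0 < errf r σ p ∧ errf r σ p ≤ Real.exp (C * (p : ℝ) ^ (-σ)) := by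
  obtain ⟨⟨c, hc0, hc1, hc⟩, ⟨d, hd0, hd⟩⟩ := h.lower hθ
  set t0 : ℝ := (1 + d) ^ (-(1 / 2) : ℝ) with ht0
  have ht0' : t0 < 1 := Real.rpow_lt_one_of_one_lt_of_neg (by linarith) (by norm_num)
  refine ⟨1 + (1 / c) / (1 - t0), by have := sub_pos.2 ht0'; positivity, ?_⟩
  intro p hp σ hσ hσ1
  have hp0 : (0 : ℝ) < p := by exact_mod_cast hp.pos
  have hr1 : 1 < r p := h.one_lt p hp
  have hr0 : 0 < r p := by linarith
  have hdp := hd p hp
  set t := (r p) ^ (-σ) with ht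
  have htpos : 0 < t := by positivity
  have ht1 : t ≤ t0 := by
    calc t ≤ (1 + d) ^ (-σ) := Real.rpow_le_rpow_of_nonpos (by linarith) hdp (by linarith)
      _ ≤ t0 := Real.rpow_le_rpow_of_exponent_le (by linarith) (by linarith)
  have ht2 : t ≤ (1 / c) * (p : ℝ) ^ (-σ) := by
    calc t ≤ (c * p) ^ (-σ) := Real.rpow_le_rpow_of_nonpos (by positivity) (hc p hp) (by linarith)
      _ = c ^ (-σ) * (p : ℝ) ^ (-σ) := Real.mul_rpow hc0.le hp0.le
      _ ≤ (1 / c) * (p : ℝ) ^ (-σ) := by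
          apply mul_le_mul_of_nonneg_right _ (by positivity)
          rw [one_div, ← Real.rpow_neg_one]
          exact Real.rpow_le_rpow_of_exponent_ge hc0 hc1 (by linarith)
  have hpos : 0 < 1 - t := by linarith
  have h1 : 0 < errf r σ p := by
    unfold errf; positivity
  refine ⟨h1, ?_⟩
  have e1 : 1 + (p : ℝ) ^ (-σ) ≤ Real.exp ((p : ℝ) ^ (-σ)) := by
    have := Real.add_one_le_exp ((p : ℝ) ^ (-σ)); linarith
  have e2 : 1 / (1 - t) ≤ Real.exp ((1 / c) / (1 - t0) * (p : ℝ) ^ (-σ)) := by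
    have h2 : 1 / (1 - t) = 1 + t / (1 - t) := by field_simp; ring
    have h3 : t / (1 - t) ≤ ((1 / c) * (p : ℝ) ^ (-σ)) / (1 - t0) := by
      apply div_le_div₀ (by positivity) ht2 (by linarith) (by linarith)
    have h4 : ((1 / c) * (p : ℝ) ^ (-σ)) / (1 - t0) = (1 / c) / (1 - t0) * (p : ℝ) ^ (-σ) := by ring
    rw [h2]
    have := Real.add_one_le_exp ((1 / c) / (1 - t0) * (p : ℝ) ^ (-σ))
    rw [h4] at h3
    linarith
  unfold errf
  have e3 : (1 + 1 / c / (1 - t0)) * (p : ℝ) ^ (-σ) =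
      (p : ℝ) ^ (-σ) + 1 / c / (1 - t0) * (p : ℝ) ^ (-σ) := by ring
  rw [← ht, div_eq_mul_one_div, e3, Real.exp_add]
  exact mul_le_mul e1 e2 (by positivity) (by positivity)

end Pool.Agent.KS6_1.Beu
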