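import Mathlib
import Pool.Agent.KS6_1.Beurling.Basic

set_option autoImplicit false

namespace Pool.Agent.KS6_1.Beu

open Finset Filter

/-- The number of generalised integers `∏ i, q i ^ f i` (counted with multiplicity) up to `x`. -/
noncomputable def gcount (q : ℕ → ℝ) (x : ℝ) : ℕ :=
  Set.ncard {f : ℕ →₀ ℕ | (f.prod fun i k => q i ^ k) ≤ x}

/-- the `n`-th prime -/
noncomputable def pr (n : ℕ) : ℕ := Nat.nth Nat.Prime n

theorem pr_prime (n : ℕ) : (pr n).Prime := Nat.prime_nth_prime n

theorem pr_strictMono : StrictMono pr := Nat.nth_strictMono Nat.infinite_setOf_prime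

theorem pr_injective : Function.Injective pr := pr_strictMono.injective

theorem exists_pr {p : ℕ} (hp : p.Prime) : ∃ n, pr n = p :=
  ⟨Nat.count Nat.Prime p, Nat.nth_count hp⟩

noncomputable def psi (f : ℕ →₀ ℕ) : ℕ := (f.mapDomain pr).prod (· ^ ·)

theorem support_prime (f : ℕ →₀ ℕ) : ∀ p ∈ (f.mapDomain pr).support, p.Prime := by
  classical
  intro p hp
  have h1 := Finsupp.mapDomain_support hp
  rw [Finset.mem_image] at h1
  obtain ⟨i, _, rfl⟩ := h1
  exact pr_prime i

theorem psi_factorization (f : ℕ →₀ ℕ) : (psi f).factorization = f.mapDomain pr :=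
  Nat.prod_pow_factorization_eq_self (support_prime f)

theorem psi_ne_zero (f : ℕ →₀ ℕ) : psi f ≠ 0 := by
  unfold psi Finsupp.prod
  rw [Finset.prod_ne_zero_iff]
  intro p hp
  exact pow_ne_zero _ (support_prime f p hp).ne_zero

theorem psi_injective : Function.Injective psi := by
  intro f g hfg
  have h1 : f.mapDomain pr = g.mapDomain pr := by
    rw [← psi_factorization, ← psi_factorization, hfg]
  exact Finsupp.mapDomain_injective pr_injective h1

theorem Q_psi (r : ℕ → ℝ) (f : ℕ →₀ ℕ) : Q r (psi f) = f.prod fun i k => r (pr i) ^ k := by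
  unfold Q
  rw [psi_factorization]
  exact Finsupp.prod_mapDomain_index_inj pr_injective

theorem psi_surj {n : ℕ} (hn : n ≠ 0) : ∃ f, psi f = n := by
  refine ⟨Finsupp.comapDomain pr n.factorization pr_injective.injOn, ?_⟩
  unfold psi
  rw [Finsupp.mapDomain_comapDomain pr pr_injective]
  · exact Nat.prod_factorization_pow_eq_self hn
  · intro p hp
    rw [Nat.support_factorization] at hp
    have hp' : p ∈ n.primeFactors := by simpa using hp
    obtain ⟨i, hi⟩ := exists_pr (Nat.prime_of_mem_primeFactors hp')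
    exact ⟨i, hi⟩

theorem gcount_eq (r : ℕ → ℝ) (x : ℝ) : (gcount (fun n => r (pr n)) x : ℝ) = N r x := by
  unfold gcount N
  congr 1
  have : {n : ℕ | n ≠ 0 ∧ Q r n ≤ x} =
      psi '' {f : ℕ →₀ ℕ | (f.prod fun i k => r (pr i) ^ k) ≤ x} := by
    ext n
    simp only [Set.mem_ofPred_eq, Set.mem_image]
    constructor
    · rintro ⟨hn, hx⟩
      obtain ⟨f, rfl⟩ := psi_surj hn
      exact ⟨f, by rwa [Q_psi] at hx, rfl⟩
    · rintro ⟨f, hf, rfl⟩
      exact ⟨psi_ne_zero f, by rwa [Q_psi]⟩
  rw [this, Set.ncard_image_of_injective _ psi_injective]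

end Pool.Agent.KS6_1.Beu
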