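import Mathlib
import Pool.Agent.KS6_1.Beurling.Basic
import Pool.Agent.KS6_1.Beurling.Count

set_option autoImplicit false

namespace Pool.Agent.KS6_1.Beu

open Finset Filter

/-- number of primes in `(a, c]` -/
def cnt (a c : ℕ) : ℕ := ((Ioc a c).filter Nat.Prime).card

noncomputable def kk (b : ℕ → ℕ) (p : ℕ) : ℕ := sInf {k | p ≤ b (k + 1)}

/-- the new position of the prime `p` -/
noncomputable def rr (b : ℕ → ℕ) (h : ℕ → ℝ) (p : ℕ) : ℝ :=
  if p ≤ b 0 then p else
    b (kk b p) + h (kk b p) + (cnt (b (kk b p)) p : ℝ) / cnt (b (kk b p)) (b (kk b p + 1)) *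
      ((b (kk b p + 1) : ℝ) - b (kk b p) - h (kk b p))

/-- assumptions on the blocks -/
structure Blocks (b : ℕ → ℕ) (h : ℕ → ℝ) : Prop where
  mono : StrictMono b
  nonneg : ∀ k, 0 ≤ h k
  small : ∀ k, h k < (b (k + 1) : ℝ) - b k
  one_le : ∀ k, 1 ≤ cnt (b k) (b (k + 1))

variable {b : ℕ → ℕ} {h : ℕ → ℝ}

theorem kk_spec (H : Blocks b h) {p : ℕ} (hp : b 0 < p) :
    b (kk b p) < p ∧ p ≤ b (kk b p + 1) := by
  have hne : {k | p ≤ b (k + 1)}.Nonempty :=
    ⟨p, (Nat.le_succ p).trans (H.mono.id_le (p + 1))⟩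
  have h2 : p ≤ b (kk b p + 1) := Nat.sInf_mem hne
  refine ⟨?_, h2⟩
  rcases Nat.eq_zero_or_pos (kk b p) with h0 | hpos
  · rw [h0]; exact hp
  · by_contra hcon
    have h3 : kk b p - 1 ∈ {k | p ≤ b (k + 1)} := by
      show p ≤ b (kk b p - 1 + 1)
      rw [Nat.sub_add_cancel hpos]; exact not_lt.1 hcon
    have h4 : kk b p ≤ kk b p - 1 := Nat.sInf_le h3
    omega

theorem kk_eq (H : Blocks b h) {p k : ℕ} (h1 : b k < p) (h2 : p ≤ b (k + 1)) : kk b p = k := by
  have hp : b 0 < p := lt_of_le_of_lt (H.mono.monotone (Nat.zero_le k)) h1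
  obtain ⟨h3, h4⟩ := kk_spec H hp
  apply le_antisymm
  · exact Nat.sInf_le h2
  · by_contra hcon
    have h5 : kk b p + 1 ≤ k := by omega
    have h6 := H.mono.monotone h5
    omega

theorem kk_mono (H : Blocks b h) {p p' : ℕ} (hp : b 0 < p) (hpp : p ≤ p') : kk b p ≤ kk b p' := by
  obtain ⟨h1, h2⟩ := kk_spec H hp
  obtain ⟨h3, h4⟩ := kk_spec H (lt_of_lt_of_le hp hpp)
  by_contra hcon
  have h5 : kk b p' + 1 ≤ kk b p := by omega
  have h6 := H.mono.monotone h5
  omega

theorem cnt_mono {a c c' : ℕ} (hc : c ≤ c') : cnt a c ≤ cnt a c' := by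
  unfold cnt
  apply Finset.card_le_card
  apply Finset.filter_subset_filter
  exact Finset.Ioc_subset_Ioc_right hc

theorem cnt_pos {a p : ℕ} (hp : p.Prime) (ha : a < p) : 1 ≤ cnt a p := by
  unfold cnt
  rw [Nat.one_le_iff_ne_zero, Finset.card_ne_zero]
  exact ⟨p, by simp [ha, hp]⟩

theorem cnt_lt {a p p' : ℕ} (hp' : p'.Prime) (ha : a < p') (hpp : p < p') : cnt a p < cnt a p' := by
  unfold cnt
  apply Finset.card_lt_card
  rw [Finset.ssubset_iff_of_subset]
  · exact ⟨p', by simp [ha, hp'], by simp [hpp]⟩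
  · apply Finset.filter_subset_filter
    exact Finset.Ioc_subset_Ioc_right hpp.le

theorem rr_block (H : Blocks b h) {p k : ℕ} (h1 : b k < p) (h2 : p ≤ b (k + 1)) :
    rr b h p = b k + h k + (cnt (b k) p : ℝ) / cnt (b k) (b (k + 1)) *
      ((b (k + 1) : ℝ) - b k - h k) := by
  have h3 : ¬ p ≤ b 0 := by
    have := H.mono.monotone (Nat.zero_le k); omega
  unfold rr
  rw [if_neg h3, kk_eq H h1 h2]

theorem rr_small {p : ℕ} (hp : p ≤ b 0) : rr b h p = p := by
  unfold rr; rw [if_pos hp]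

theorem rr_bounds (H : Blocks b h) {p k : ℕ} (hp : p.Prime) (h1 : b k < p) (h2 : p ≤ b (k + 1)) :
    (b k : ℝ) + h k < rr b h p ∧ rr b h p ≤ b (k + 1) := by
  rw [rr_block H h1 h2]
  have hM : (1 : ℝ) ≤ cnt (b k) (b (k + 1)) := by exact_mod_cast H.one_le k
  have hc1 : (1 : ℝ) ≤ cnt (b k) p := by exact_mod_cast cnt_pos hp h1
  have hc2 : (cnt (b k) p : ℝ) ≤ cnt (b k) (b (k + 1)) := by exact_mod_cast cnt_mono h2
  have hs := H.small k
  have hd : 0 < (b (k + 1) : ℝ) - b k - h k := by linarith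
  have hq0 : 0 < (cnt (b k) p : ℝ) / cnt (b k) (b (k + 1)) := by positivity
  have hq1 : (cnt (b k) p : ℝ) / cnt (b k) (b (k + 1)) ≤ 1 := by
    rw [div_le_one (by linarith)]; exact hc2
  constructor
  · have := mul_pos hq0 hd; linarith
  · have := mul_le_mul_of_nonneg_right hq1 hd.le; linarith

theorem rr_lt (H : Blocks b h) {p p' : ℕ} (hp : p.Prime) (hp' : p'.Prime) (hpp : p < p') :
    rr b h p < rr b h p' := by
  by_cases h0' : p' ≤ b 0
  · rw [rr_small h0', rr_small (by omega)]
    exact_mod_cast hpp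
  · obtain ⟨h1', h2'⟩ := kk_spec H (not_le.1 h0')
    obtain ⟨h3', h4'⟩ := rr_bounds H hp' h1' h2'
    have hn := H.nonneg (kk b p')
    by_cases h0 : p ≤ b 0
    · rw [rr_small h0]
      have : b 0 ≤ b (kk b p') := H.mono.monotone (Nat.zero_le _)
      have h5 : (p : ℝ) ≤ b (kk b p') := by exact_mod_cast h0.trans this
      linarith
    · obtain ⟨h1, h2⟩ := kk_spec H (not_le.1 h0)
      obtain ⟨h3, h4⟩ := rr_bounds H hp h1 h2
      have hk := kk_mono H (not_le.1 h0) hpp.le
      rcases Nat.eq_or_lt_of_le hk with heq | hlt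
      · rw [rr_block H h1 h2, rr_block (k := kk b p) H (by omega) (by rw [heq]; exact h2')]
        have hM : (1 : ℝ) ≤ cnt (b (kk b p)) (b (kk b p + 1)) := by exact_mod_cast H.one_le _
        have hlt2 : (cnt (b (kk b p)) p : ℝ) < cnt (b (kk b p)) p' := by
          exact_mod_cast cnt_lt hp' (by omega) hpp
        have hs := H.small (kk b p)
        have hd : 0 < (b (kk b p + 1) : ℝ) - b (kk b p) - h (kk b p) := by linarith
        have : (cnt (b (kk b p)) p : ℝ) / cnt (b (kk b p)) (b (kk b p + 1)) <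
            (cnt (b (kk b p)) p' : ℝ) / cnt (b (kk b p)) (b (kk b p + 1)) :=
          div_lt_div_of_pos_right hlt2 (by linarith)
        have := mul_lt_mul_of_pos_right this hd
        linarith
      · have h5 : b (kk b p + 1) ≤ b (kk b p') := H.mono.monotone hlt
        have h6 : (b (kk b p + 1) : ℝ) ≤ b (kk b p') := by exact_mod_cast h5
        linarith

/-- no primes between consecutive primes -/
theorem no_between {n p : ℕ} (hp : p.Prime) (h1 : pr n < p) : pr (n + 1) ≤ p := by
  obtain ⟨m, rfl⟩ := exists_pr hp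
  have : n < m := pr_strictMono.lt_iff_lt.1 h1
  exact pr_strictMono.monotone this

/-- upper bound for the gap -/
theorem gap_le (H : Blocks b h) {n : ℕ} (hn : b 0 < pr n) :
    (∃ k, (b k : ℝ) ≤ rr b h (pr n) ∧
      rr b h (pr (n + 1)) - rr b h (pr n) ≤ ((b (k + 1) : ℝ) - b k) / cnt (b k) (b (k + 1))) ∨
    (∃ k, rr b h (pr n) = b k ∧
      rr b h (pr (n + 1)) - rr b h (pr n) ≤
        h k + ((b (k + 1) : ℝ) - b k) / cnt (b k) (b (k + 1))) := by
  have hlt : pr n < pr (n + 1) := pr_strictMono (Nat.lt_succ_self n)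
  have hn' : b 0 < pr (n + 1) := hn.trans hlt
  obtain ⟨h1, h2⟩ := kk_spec H hn
  obtain ⟨h1', h2'⟩ := kk_spec H hn'
  obtain ⟨h3, h4⟩ := rr_bounds H (pr_prime n) h1 h2
  have hk := kk_mono H hn hlt.le
  rcases Nat.eq_or_lt_of_le hk with heq | hklt
  · left
    refine ⟨kk b (pr n), by linarith [H.nonneg (kk b (pr n))], ?_⟩
    rw [rr_block H h1 h2, rr_block (k := kk b (pr n)) H (by omega) (by rw [heq]; exact h2')]
    have hcnt : cnt (b (kk b (pr n))) (pr (n + 1)) = cnt (b (kk b (pr n))) (pr n) + 1 := by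
      unfold cnt
      have : (Ioc (b (kk b (pr n))) (pr (n + 1))).filter Nat.Prime =
          insert (pr (n + 1)) ((Ioc (b (kk b (pr n))) (pr n)).filter Nat.Prime) := by
        ext p
        simp only [Finset.mem_filter, Finset.mem_Ioc, Finset.mem_insert]
        constructor
        · rintro ⟨⟨ha, hb⟩, hc⟩
          by_cases hle : p ≤ pr n
          · right; exact ⟨⟨ha, hle⟩, hc⟩
          · left
            have := no_between hc (not_le.1 hle)
            omega
        · rintro (rfl | ⟨⟨ha, hb⟩, hc⟩)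
          · exact ⟨⟨by omega, le_rfl⟩, pr_prime _⟩
          · exact ⟨⟨ha, by omega⟩, hc⟩
      rw [this, Finset.card_insert_of_notMem]
      simp only [Finset.mem_filter, Finset.mem_Ioc, not_and]
      intro ha hb
      omega
    rw [hcnt]
    have hM : (1 : ℝ) ≤ cnt (b (kk b (pr n))) (b (kk b (pr n) + 1)) := by
      exact_mod_cast H.one_le _
    push_cast
    have h5 := H.nonneg (kk b (pr n))
    have h6 : ((b (kk b (pr n) + 1) : ℝ) - b (kk b (pr n)) - h (kk b (pr n))) /
        cnt (b (kk b (pr n))) (b (kk b (pr n) + 1)) ≤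
        ((b (kk b (pr n) + 1) : ℝ) - b (kk b (pr n))) / cnt (b (kk b (pr n))) (b (kk b (pr n) + 1)) :=
      div_le_div_of_nonneg_right (by linarith) (by linarith)
    calc _ = ((b (kk b (pr n) + 1) : ℝ) - b (kk b (pr n)) - h (kk b (pr n))) /
        cnt (b (kk b (pr n))) (b (kk b (pr n) + 1)) := by ring
      _ ≤ _ := h6
  · right
    -- the next block contains a prime
    obtain ⟨P, hP⟩ : ∃ P, P ∈ (Ioc (b (kk b (pr n) + 1)) (b (kk b (pr n) + 1 + 1))).filter Nat.Prime := by
      have := H.one_le (kk b (pr n) + 1)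
      unfold cnt at this
      rw [Nat.one_le_iff_ne_zero, Finset.card_ne_zero] at this
      exact this
    rw [Finset.mem_filter, Finset.mem_Ioc] at hP
    obtain ⟨⟨hP1, hP2⟩, hP3⟩ := hP
    have hle : pr (n + 1) ≤ P := no_between hP3 (by omega)
    have hgt : b (kk b (pr n) + 1) < pr (n + 1) :=
      lt_of_le_of_lt (H.mono.monotone hklt) h1'
    refine ⟨kk b (pr n) + 1, ?_, ?_⟩
    · rw [rr_block H h1 h2]
      have hcnt : cnt (b (kk b (pr n))) (pr n) = cnt (b (kk b (pr n))) (b (kk b (pr n) + 1)) := by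
        unfold cnt
        congr 1
        ext p
        simp only [Finset.mem_filter, Finset.mem_Ioc]
        constructor
        · rintro ⟨⟨ha, hb⟩, hc⟩
          exact ⟨⟨ha, by omega⟩, hc⟩
        · rintro ⟨⟨ha, hb⟩, hc⟩
          refine ⟨⟨ha, ?_⟩, hc⟩
          by_contra hcon
          have := no_between hc (not_le.1 hcon)
          omega
      rw [hcnt]
      have hM : (1 : ℝ) ≤ cnt (b (kk b (pr n))) (b (kk b (pr n) + 1)) := by
        exact_mod_cast H.one_le _
      rw [div_self (by linarith)]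
      ring
    · have hr := rr_block (p := pr (n + 1)) (k := kk b (pr n) + 1) H hgt (by omega)
      have hcnt : cnt (b (kk b (pr n) + 1)) (pr (n + 1)) = 1 := by
        unfold cnt
        rw [Finset.card_eq_one]
        refine ⟨pr (n + 1), ?_⟩
        ext p
        simp only [Finset.mem_filter, Finset.mem_Ioc, Finset.mem_singleton]
        constructor
        · rintro ⟨⟨ha, hb⟩, hc⟩
          have := no_between hc (show pr n < p by omega)
          omega
        · rintro rfl
          exact ⟨⟨hgt, le_rfl⟩, pr_prime _⟩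
      have hr0 : rr b h (pr n) = b (kk b (pr n) + 1) := by
        rw [rr_block H h1 h2]
        have hcnt : cnt (b (kk b (pr n))) (pr n) = cnt (b (kk b (pr n))) (b (kk b (pr n) + 1)) := by
          unfold cnt
          congr 1
          ext p
          simp only [Finset.mem_filter, Finset.mem_Ioc]
          constructor
          · rintro ⟨⟨ha, hb⟩, hc⟩
            exact ⟨⟨ha, by omega⟩, hc⟩
          · rintro ⟨⟨ha, hb⟩, hc⟩
            refine ⟨⟨ha, ?_⟩, hc⟩
            by_contra hcon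
            have := no_between hc (not_le.1 hcon)
            omega
        rw [hcnt]
        have hM : (1 : ℝ) ≤ cnt (b (kk b (pr n))) (b (kk b (pr n) + 1)) := by
          exact_mod_cast H.one_le _
        rw [div_self (by linarith)]
        ring
      rw [hr, hr0, hcnt]
      have hM : (1 : ℝ) ≤ cnt (b (kk b (pr n) + 1)) (b (kk b (pr n) + 1 + 1)) := by
        exact_mod_cast H.one_le _
      have h5 := H.nonneg (kk b (pr n) + 1)
      push_cast
      have h6 : ((b (kk b (pr n) + 1 + 1) : ℝ) - b (kk b (pr n) + 1) - h (kk b (pr n) + 1)) /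
          cnt (b (kk b (pr n) + 1)) (b (kk b (pr n) + 1 + 1)) ≤
          ((b (kk b (pr n) + 1 + 1) : ℝ) - b (kk b (pr n) + 1)) /
            cnt (b (kk b (pr n) + 1)) (b (kk b (pr n) + 1 + 1)) :=
        div_le_div_of_nonneg_right (by linarith) (by linarith)
      have e : 1 / (cnt (b (kk b (pr n) + 1)) (b (kk b (pr n) + 1 + 1)) : ℝ) *
          ((b (kk b (pr n) + 1 + 1) : ℝ) - b (kk b (pr n) + 1) - h (kk b (pr n) + 1)) =
          ((b (kk b (pr n) + 1 + 1) : ℝ) - b (kk b (pr n) + 1) - h (kk b (pr n) + 1)) /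
          cnt (b (kk b (pr n) + 1)) (b (kk b (pr n) + 1 + 1)) := by ring
      linarith

/-- every block boundary is followed by a large gap -/
theorem exists_gap (H : Blocks b h) (k : ℕ) :
    ∃ n, rr b h (pr (n + 1)) ≤ b (k + 1 + 1) ∧ b 0 < pr n ∧
      h (k + 1) ≤ rr b h (pr (n + 1)) - rr b h (pr n) := by
  -- `P` a prime in block `k`, `P'` a prime in block `k+1`
  have hex : ∀ k, ∃ P, P ∈ (Ioc (b k) (b (k + 1))).filter Nat.Prime := by
    intro k
    have := H.one_le k
    unfold cnt at this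
    rw [Nat.one_le_iff_ne_zero, Finset.card_ne_zero] at this
    exact this
  obtain ⟨P, hP⟩ := hex k
  obtain ⟨P', hP'⟩ := hex (k + 1)
  rw [Finset.mem_filter, Finset.mem_Ioc] at hP hP'
  obtain ⟨⟨a1, a2⟩, a3⟩ := hP
  obtain ⟨⟨c1, c2⟩, c3⟩ := hP'
  -- the first prime after `b (k+1)`
  have hne : ∃ m, b (k + 1) < pr m := by
    obtain ⟨m, hm⟩ := exists_pr c3
    exact ⟨m, by omega⟩
  classical
  have hm1 := Nat.find_spec hne
  have hmin : ∀ j, j < Nat.find hne → pr j ≤ b (k + 1) := fun j hj =>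
    not_lt.1 (Nat.find_min hne hj)
  obtain ⟨jP, hjP⟩ := exists_pr a3
  have hpos : 0 < Nat.find hne := by
    rcases Nat.eq_zero_or_pos (Nat.find hne) with h0 | h0
    · rw [h0] at hm1
      have : pr 0 ≤ pr jP := pr_strictMono.monotone (Nat.zero_le _)
      omega
    · exact h0
  obtain ⟨n, hn⟩ : ∃ n, Nat.find hne = n + 1 := ⟨Nat.find hne - 1, by omega⟩
  rw [hn] at hm1 hmin
  have hle : pr n ≤ b (k + 1) := hmin n (Nat.lt_succ_self n)
  obtain ⟨jP', hjP'⟩ := exists_pr c3
  have hle2 : pr (n + 1) ≤ P' := by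
    apply no_between c3; omega
  have hjn : jP ≤ n := by
    by_contra hcon
    have : pr (n + 1) ≤ pr jP := pr_strictMono.monotone (by omega)
    omega
  have hPn : P ≤ pr n := by rw [← hjP]; exact pr_strictMono.monotone hjn
  have hb0 : b 0 ≤ b k := H.mono.monotone (Nat.zero_le _)
  have r1 := rr_bounds (k := k + 1) H (pr_prime (n + 1)) hm1 (by omega)
  have r2 := rr_bounds (k := k) H (pr_prime n) (by omega) hle
  refine ⟨n, r1.2, by omega, ?_⟩
  linarith [r1.1, r2.2]

end Pool.Agent.KS6_1.Beu
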