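import Mathlib
import Pool.Agent.KS6_1.Beurling.Basic
import Pool.Agent.KS6_1.Beurling.Sum
import Pool.Agent.KS6_1.Beurling.Close

set_option autoImplicit false

namespace Pool.Agent.KS6_1.Beu

open Finset Filter

theorem log_Q {r : ℕ → ℝ} (h : ∀ p : ℕ, p.Prime → 0 < r p) (n : ℕ) :
    Real.log (Q r n) = ∑ p ∈ n.primeFactors, (n.factorization p : ℝ) * Real.log (r p) := by
  unfold Q Finsupp.prod
  rw [Nat.support_factorization, Real.log_prod]
  · apply Finset.sum_congr rfl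
    intro p hp
    rw [Real.log_pow]
  · intro p hp
    have := h p (Nat.prime_of_mem_primeFactors hp)
    positivity

theorem log_nat_eq {n : ℕ} (hn : n ≠ 0) :
    Real.log n = ∑ p ∈ n.primeFactors, (n.factorization p : ℝ) * Real.log p := by
  have h := log_Q (r := fun p => (p : ℝ)) (fun p hp => by exact_mod_cast hp.pos) n
  rw [Q_id hn] at h
  exact h

theorem sum_fact_le {n : ℕ} (hn : n ≠ 0) :
    ∑ p ∈ n.primeFactors, (n.factorization p : ℝ) ≤ 2 * Real.log n := by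
  rw [log_nat_eq hn, Finset.mul_sum]
  apply Finset.sum_le_sum
  intro p hp
  have hp2 : (2 : ℝ) ≤ p := by exact_mod_cast (Nat.prime_of_mem_primeFactors hp).two_le
  have h8 : (1 : ℝ) / 2 ≤ Real.log 2 := by linarith [Real.log_two_gt_d9]
  have h9 : Real.log 2 ≤ Real.log p := Real.log_le_log (by norm_num) hp2
  have h10 : (0 : ℝ) ≤ n.factorization p := by positivity
  nlinarith

theorem exists_tr_pos {r : ℕ → ℝ} (h : ∀ p : ℕ, p.Prime → 1 < r p) (S : Finset ℕ) :
    ∀ p : ℕ, p.Prime → 1 < tr r S p := by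
  intro p hp
  unfold tr
  split_ifs
  · exact h p hp
  · exact_mod_cast hp.one_lt

theorem log_diff {r : ℕ → ℝ} {θ : ℝ} (h : Close r θ) (hθ : θ < 1) :
    ∃ C : ℝ, 0 < C ∧ ∀ Y : ℕ, ∀ n : ℕ, n ≠ 0 →
      |Real.log (Q r n) - Real.log (Q (tr r (PS Y)) n)| ≤
        C * ((Y : ℝ) + 1) ^ (θ - 1) * Real.log n := by
  obtain ⟨C, hC0, hC⟩ := h.log_ratio hθ
  refine ⟨C * 2, by positivity, ?_⟩
  intro Y n hn
  rw [log_Q (fun p hp => lt_trans one_pos (h.one_lt p hp)) n,
    log_Q (fun p hp => lt_trans one_pos (exists_tr_pos h.one_lt (PS Y) p hp)) n,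
    ← Finset.sum_sub_distrib]
  refine (Finset.abs_sum_le_sum_abs _ _).trans ?_
  have hterm : ∀ p ∈ n.primeFactors,
      |(n.factorization p : ℝ) * Real.log (r p) - (n.factorization p : ℝ) * Real.log (tr r (PS Y) p)|
        ≤ (n.factorization p : ℝ) * (C * ((Y : ℝ) + 1) ^ (θ - 1)) := by
    intro p hp
    have hpp := Nat.prime_of_mem_primeFactors hp
    rw [← mul_sub, abs_mul, abs_of_nonneg (show (0 : ℝ) ≤ n.factorization p by positivity)]
    apply mul_le_mul_of_nonneg_left _ (by positivity)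
    unfold tr
    split_ifs with hmem
    · rw [sub_self, abs_zero]; positivity
    · have hlt : Y < p := by
        by_contra hcon
        exact hmem (mem_PS.2 ⟨not_lt.1 hcon, hpp⟩)
      have hlt' : (Y : ℝ) + 1 ≤ p := by exact_mod_cast hlt
      refine (hC p hpp).trans ?_
      apply mul_le_mul_of_nonneg_left _ hC0.le
      exact Real.rpow_le_rpow_of_nonpos (by positivity) hlt' (by linarith)
  refine (Finset.sum_le_sum hterm).trans ?_
  rw [← Finset.sum_mul]
  have h1 := sum_fact_le hn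
  have h2 : 0 ≤ C * ((Y : ℝ) + 1) ^ (θ - 1) := by positivity
  calc (∑ p ∈ n.primeFactors, (n.factorization p : ℝ)) * (C * ((Y : ℝ) + 1) ^ (θ - 1))
      ≤ (2 * Real.log n) * (C * ((Y : ℝ) + 1) ^ (θ - 1)) := mul_le_mul_of_nonneg_right h1 h2
    _ = C * 2 * ((Y : ℝ) + 1) ^ (θ - 1) * Real.log n := by ring

theorem abs_exp_sub_one_le' (δ : ℝ) : |Real.exp δ - 1| ≤ |δ| * Real.exp |δ| := by
  rcases le_total 0 δ with h | h
  · rw [abs_of_nonneg h, abs_of_nonneg (by linarith [Real.add_one_le_exp δ])]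
    have h1 := Real.add_one_le_exp (-δ)
    rw [Real.exp_neg] at h1
    have h2 : 0 < Real.exp δ := Real.exp_pos _
    have h3 : (-δ + 1) * Real.exp δ ≤ 1 := by
      calc (-δ + 1) * Real.exp δ ≤ (Real.exp δ)⁻¹ * Real.exp δ := mul_le_mul_of_nonneg_right h1 h2.le
        _ = 1 := inv_mul_cancel₀ h2.ne'
    linarith
  · rw [abs_of_nonpos h, abs_of_nonpos (by linarith [Real.exp_le_one_iff.2 h])]
    have h1 := Real.add_one_le_exp δ
    have h2 : 1 ≤ Real.exp (-δ) := Real.one_le_exp (by linarith)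
    nlinarith

/-- convergence of the density -/
theorem density {r : ℕ → ℝ} {θ : ℝ} (h : Close r θ) (hθ : θ < 1) :
    ∃ ρ : ℝ, 0 < ρ ∧ ∃ C : ℝ, 0 < C ∧ ∀ Y : ℕ,
      0 < (∏ p ∈ PS Y, dens r p) ∧ (∏ p ∈ PS Y, dens r p) ≤ C ∧
      |(∏ p ∈ PS Y, dens r p) - ρ| ≤ C * ((Y : ℝ) + 1) ^ (-(1 - θ) / 2) := by
  obtain ⟨C, hC0, hC⟩ := h.log_dens hθ
  set f : ℕ → ℝ := fun p => if p.Prime then Real.log (dens r p) else 0 with hf
  set g : ℕ → ℝ := fun p => (p : ℝ) ^ (-(1 + (1 - θ) / 2)) with hg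
  have hgs : Summable g := by
    rw [hg]
    exact Real.summable_nat_rpow.2 (by linarith)
  set Z := ∑' p, g p with hZ
  have hZ0 : 0 ≤ Z := tsum_nonneg (fun p => by rw [hg]; positivity)
  have hfb : ∀ p, ‖f p‖ ≤ C * g p := by
    intro p
    rw [hf, hg]
    simp only [Real.norm_eq_abs]
    split_ifs with hp
    · refine (hC p hp).trans ?_
      apply mul_le_mul_of_nonneg_left _ hC0.le
      exact Real.rpow_le_rpow_of_exponent_le (by exact_mod_cast hp.one_le) (by linarith)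
    · rw [abs_zero]; positivity
  have hfs : Summable f := Summable.of_norm_bounded (hgs.mul_left C) hfb
  set s := ∑' p, f p with hs
  have hprod : ∀ Y, (∏ p ∈ PS Y, dens r p) = Real.exp (∑ p ∈ PS Y, f p) := by
    intro Y
    rw [Real.exp_sum]
    apply Finset.prod_congr rfl
    intro p hp
    have hpp := (mem_PS.1 hp).2
    rw [hf]
    simp only [hpp, if_true]
    rw [Real.exp_log (dens_pos hpp (h.one_lt p hpp))]
  have htail : ∀ Y : ℕ, |(∑ p ∈ PS Y, f p) - s| ≤ C * Z * ((Y : ℝ) + 1) ^ (-(1 - θ) / 2) := by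
    intro Y
    have h1 : HasSum (fun p => if p ∈ PS Y then f p else 0) (∑ p ∈ PS Y, f p) := by
      have e : (∑ b ∈ PS Y, if b ∈ PS Y then f b else 0) = ∑ p ∈ PS Y, f p :=
        Finset.sum_congr rfl (fun b hb => by simp [hb])
      rw [← e]
      exact hasSum_sum_of_ne_finset_zero (fun b hb => by simp [hb])
    have h2 := h1.sub hfs.hasSum
    have h3 : ∀ p, ‖(if p ∈ PS Y then f p else 0) - f p‖ ≤
        C * g p * ((Y : ℝ) + 1) ^ (-(1 - θ) / 2) := by
      intro p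
      split_ifs with hmem
      · rw [sub_self, norm_zero, hg]; positivity
      · rw [zero_sub, norm_neg]
        by_cases hp : p.Prime
        · have hlt : Y < p := by
            by_contra hcon
            exact hmem (mem_PS.2 ⟨not_lt.1 hcon, hp⟩)
          have hlt' : (Y : ℝ) + 1 ≤ p := by exact_mod_cast hlt
          have hp0 : (0 : ℝ) < p := by exact_mod_cast hp.pos
          rw [hf, hg]
          simp only [hp, if_true, Real.norm_eq_abs]
          refine (hC p hp).trans ?_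
          rw [mul_assoc]
          apply mul_le_mul_of_nonneg_left _ hC0.le
          calc (p : ℝ) ^ (θ - 2) = (p : ℝ) ^ (-(1 + (1 - θ) / 2)) * (p : ℝ) ^ (-(1 - θ) / 2) := by
                rw [← Real.rpow_add hp0]; congr 1; ring
            _ ≤ (p : ℝ) ^ (-(1 + (1 - θ) / 2)) * ((Y : ℝ) + 1) ^ (-(1 - θ) / 2) := by
                apply mul_le_mul_of_nonneg_left _ (by positivity)
                exact Real.rpow_le_rpow_of_nonpos (by positivity) hlt' (by linarith)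
        · rw [hf, hg]; simp only [hp, if_false, norm_zero]; positivity
    have h4 : HasSum (fun p => C * g p * ((Y : ℝ) + 1) ^ (-(1 - θ) / 2))
        (C * Z * ((Y : ℝ) + 1) ^ (-(1 - θ) / 2)) := (hgs.hasSum.mul_left C).mul_right _
    have h5 := tsum_of_norm_bounded h4 h3
    rw [h2.tsum_eq] at h5
    exact h5
  have hle1 : ∀ Y : ℕ, ((Y : ℝ) + 1) ^ (-(1 - θ) / 2) ≤ 1 := by
    intro Y
    exact Real.rpow_le_one_of_one_le_of_nonpos (by linarith [Nat.cast_nonneg (α := ℝ) Y]) (by linarith)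
  refine ⟨Real.exp s, Real.exp_pos _, Real.exp (s + C * Z) + Real.exp s * (C * Z * Real.exp (C * Z)) + 1,
    by positivity, ?_⟩
  intro Y
  have hCZ : 0 ≤ C * Z := by positivity
  have t1 : |(∑ p ∈ PS Y, f p) - s| ≤ C * Z := by
    refine (htail Y).trans ?_
    calc C * Z * ((Y : ℝ) + 1) ^ (-(1 - θ) / 2) ≤ C * Z * 1 :=
          mul_le_mul_of_nonneg_left (hle1 Y) hCZ
      _ = C * Z := mul_one _
  rw [hprod Y]
  refine ⟨Real.exp_pos _, ?_, ?_⟩
  · have : Real.exp (∑ p ∈ PS Y, f p) ≤ Real.exp (s + C * Z) := by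
      apply Real.exp_le_exp.2; linarith [(abs_le.1 t1).2]
    have h2 : 0 ≤ Real.exp s * (C * Z * Real.exp (C * Z)) := by positivity
    linarith
  · have e1 : Real.exp (∑ p ∈ PS Y, f p) - Real.exp s =
        Real.exp s * (Real.exp ((∑ p ∈ PS Y, f p) - s) - 1) := by
      rw [mul_sub, ← Real.exp_add]; ring_nf
    rw [e1, abs_mul, abs_of_pos (Real.exp_pos s)]
    have t2 := abs_exp_sub_one_le' ((∑ p ∈ PS Y, f p) - s)
    have t3 : |(∑ p ∈ PS Y, f p) - s| * Real.exp |(∑ p ∈ PS Y, f p) - s| ≤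
        (C * Z * ((Y : ℝ) + 1) ^ (-(1 - θ) / 2)) * Real.exp (C * Z) :=
      mul_le_mul (htail Y) (Real.exp_le_exp.2 t1) (Real.exp_pos _).le (by positivity)
    calc Real.exp s * |Real.exp ((∑ p ∈ PS Y, f p) - s) - 1|
        ≤ Real.exp s * ((C * Z * ((Y : ℝ) + 1) ^ (-(1 - θ) / 2)) * Real.exp (C * Z)) :=
          mul_le_mul_of_nonneg_left (t2.trans t3) (Real.exp_pos _).le
      _ = (Real.exp s * (C * Z * Real.exp (C * Z))) * ((Y : ℝ) + 1) ^ (-(1 - θ) / 2) := by ring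
      _ ≤ _ := by
          apply mul_le_mul_of_nonneg_right _ (by positivity)
          linarith [Real.exp_pos (s + C * Z)]

theorem prod_errf {r : ℕ → ℝ} {θ : ℝ} (h : Close r θ) (hθ : θ < 1) :
    ∃ C : ℝ, 0 < C ∧ ∀ Y : ℕ, 2 ≤ Y → ∀ σ : ℝ, 1 / 2 ≤ σ → σ ≤ 1 →
      0 < (∏ p ∈ PS Y, errf r σ p) ∧
      (∏ p ∈ PS Y, errf r σ p) ≤
        Real.exp (C * ((Y : ℝ) ^ (1 - σ) * (5 + 4 * Real.log (2 * Real.log Y)))) := by
  obtain ⟨C, hC0, hC⟩ := h.errf_le hθ
  refine ⟨C, hC0, ?_⟩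
  intro Y hY σ hσ hσ1
  constructor
  · apply Finset.prod_pos
    intro p hp
    exact (hC p (mem_PS.1 hp).2 σ hσ hσ1).1
  · calc (∏ p ∈ PS Y, errf r σ p) ≤ ∏ p ∈ PS Y, Real.exp (C * (p : ℝ) ^ (-σ)) := by
          apply Finset.prod_le_prod
          · intro p hp; exact (hC p (mem_PS.1 hp).2 σ hσ hσ1).1.le
          · intro p hp; exact (hC p (mem_PS.1 hp).2 σ hσ hσ1).2
      _ = Real.exp (∑ p ∈ PS Y, C * (p : ℝ) ^ (-σ)) := (Real.exp_sum _ _).symm
      _ ≤ _ := by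
          apply Real.exp_le_exp.2
          rw [← Finset.mul_sum]
          apply mul_le_mul_of_nonneg_left _ hC0.le
          calc ∑ p ∈ PS Y, (p : ℝ) ^ (-σ) ≤ ∑ p ∈ PS Y, (Y : ℝ) ^ (1 - σ) * (1 / p) := by
                apply Finset.sum_le_sum
                intro p hp
                have hpp := (mem_PS.1 hp).2
                have hpY : (p : ℝ) ≤ Y := by exact_mod_cast (mem_PS.1 hp).1
                have hp0 : (0 : ℝ) < p := by exact_mod_cast hpp.pos
                have e : (p : ℝ) ^ (-σ) = (p : ℝ) ^ (1 - σ) * (1 / p) := by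
                  rw [show -σ = (1 - σ) - 1 by ring, Real.rpow_sub hp0, Real.rpow_one]
                  ring
                rw [e]
                apply mul_le_mul_of_nonneg_right _ (by positivity)
                exact Real.rpow_le_rpow hp0.le hpY (by linarith)
            _ = (Y : ℝ) ^ (1 - σ) * ∑ p ∈ PS Y, (1 : ℝ) / p := by rw [Finset.mul_sum]
            _ ≤ _ := mul_le_mul_of_nonneg_left (sum_inv_le Y hY) (by positivity)

theorem good_of {r : ℕ → ℝ} {η : ℝ} (hη : 0 < η) (H : ∀ p : ℕ, p.Prime → (p : ℝ) ^ η ≤ r p) :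
    Good r := ⟨η, hη, H⟩

theorem tr_ge {r : ℕ → ℝ} {η : ℝ} (hη1 : η ≤ 1)
    (H : ∀ p : ℕ, p.Prime → (p : ℝ) ^ η ≤ r p) (S : Finset ℕ) :
    ∀ p : ℕ, p.Prime → (p : ℝ) ^ η ≤ tr r S p := by
  intro p hp
  unfold tr
  split_ifs
  · exact H p hp
  · calc (p : ℝ) ^ η ≤ (p : ℝ) ^ (1 : ℝ) :=
        Real.rpow_le_rpow_of_exponent_le (by exact_mod_cast hp.one_le) hη1
      _ = p := Real.rpow_one _

theorem N_mono_of {r s : ℕ → ℝ} (hs : Good s) {x y : ℝ}
    (h : ∀ n : ℕ, n ≠ 0 → Q r n ≤ x → Q s n ≤ y) : N r x ≤ N s y := by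
  unfold N
  have := Set.ncard_le_ncard (s := {n : ℕ | n ≠ 0 ∧ Q r n ≤ x}) (t := {n : ℕ | n ≠ 0 ∧ Q s n ≤ y})
    (fun n hn => ⟨hn.1, h n hn.1 hn.2⟩) (hs.finite y)
  exact_mod_cast this

/-- The nonasymptotic stability bound. -/
theorem stab_bound {r : ℕ → ℝ} {θ : ℝ} (h : Close r θ) (hθ : θ < 1) :
    ∃ ρ : ℝ, 0 < ρ ∧ ∃ C : ℝ, 0 < C ∧ ∀ Y : ℕ, 2 ≤ Y → ∀ σ : ℝ, 1 / 2 ≤ σ → σ ≤ 1 →
      ∀ x : ℝ, 1 ≤ x → C * ((Y : ℝ) + 1) ^ (θ - 1) * Real.log x ≤ 1 →
      |N r x - ρ * x| ≤ C * (x * (((Y : ℝ) + 1) ^ (θ - 1) * Real.log x) +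
        x * ((Y : ℝ) + 1) ^ (-(1 - θ) / 2) +
        Real.exp (C * ((Y : ℝ) ^ (1 - σ) * (5 + 4 * Real.log (2 * Real.log Y)))) * x ^ σ) := by
  obtain ⟨η, hη0, hη1, H⟩ := h.good hθ
  obtain ⟨C1, hC10, hC1⟩ := log_diff h hθ
  obtain ⟨ρ, hρ, C2, hC20, hC2⟩ := density h hθ
  obtain ⟨C3, hC30, hC3⟩ := prod_errf h hθ
  have hgood : Good r := good_of hη0 H
  -- the constant
  obtain ⟨C, hC⟩ : ∃ C : ℝ, C = C1 / η + C1 / η * C2 * 2 + C2 + C3 + 3 := ⟨_, rfl⟩
  have hCpos : 0 < C := by rw [hC]; positivity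
  have hCa : C1 / η ≤ C := by
    have : 0 ≤ C1 / η * C2 * 2 := by positivity
    linarith
  have hCb : C3 ≤ C := by
    have : 0 ≤ C1 / η * C2 * 2 := by positivity
    have : 0 ≤ C1 / η := by positivity
    linarith
  refine ⟨ρ, hρ, C, hCpos, ?_⟩
  intro Y hY σ hσ hσ1 x hx hε
  have hW0' : 0 < ((Y : ℝ) + 1) ^ (θ - 1) := by positivity
  obtain ⟨W, hW⟩ : ∃ W : ℝ, W = ((Y : ℝ) + 1) ^ (θ - 1) := ⟨_, rfl⟩
  rw [← hW] at hε hW0' ⊢
  have hW0 : 0 < W := hW0'
  have hL0 : 0 ≤ Real.log x := Real.log_nonneg hx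
  obtain ⟨ε, hεdef⟩ : ∃ ε : ℝ, ε = C1 / η * W * Real.log x := ⟨_, rfl⟩
  have hε0 : 0 ≤ ε := by rw [hεdef]; positivity
  have hε1 : ε ≤ 1 := by
    rw [hεdef]
    refine le_trans ?_ hε
    apply mul_le_mul_of_nonneg_right _ hL0
    exact mul_le_mul_of_nonneg_right hCa hW0.le
  have hx0 : 0 < x := by linarith
  -- the log of `n` in terms of `Q`
  have hlogn : ∀ s : ℕ → ℝ, (∀ p : ℕ, p.Prime → (p : ℝ) ^ η ≤ s p) → ∀ n : ℕ, n ≠ 0 → Q s n ≤ x →
      Real.log n ≤ Real.log x / η := by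
    intro s hs n hn hQ
    have h1 := (Good.le_Q hs hn).trans hQ
    have hn0 : (0 : ℝ) < n := by exact_mod_cast Nat.pos_of_ne_zero hn
    have h2 := Real.log_le_log (by positivity) h1
    rw [Real.log_rpow hn0] at h2
    rw [le_div_iff₀ hη0]; linarith
  have hdiff : ∀ n : ℕ, n ≠ 0 → (Q r n ≤ x ∨ Q (tr r (PS Y)) n ≤ x) →
      |Real.log (Q r n) - Real.log (Q (tr r (PS Y)) n)| ≤ ε := by
    intro n hn hor
    have h1 : Real.log n ≤ Real.log x / η := by
      rcases hor with hor | hor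
      · exact hlogn r H n hn hor
      · exact hlogn _ (tr_ge hη1 H (PS Y)) n hn hor
    refine (hC1 Y n hn).trans ?_
    rw [← hW]
    calc C1 * W * Real.log n ≤ C1 * W * (Real.log x / η) :=
          mul_le_mul_of_nonneg_left h1 (by positivity)
      _ = ε := by rw [hεdef]; ring
  have hgoodt : Good (tr r (PS Y)) := good_of hη0 (tr_ge hη1 H (PS Y))
  have hQpos : ∀ s : ℕ → ℝ, Good s → ∀ n : ℕ, n ≠ 0 → 0 < Q s n :=
    fun s hs n hn => lt_of_lt_of_le one_pos (hs.one_le_Q hn)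
  -- upper and lower comparison
  have hup : N r x ≤ N (tr r (PS Y)) (x * Real.exp ε) := by
    apply N_mono_of hgoodt
    intro n hn hQ
    have h1 := hdiff n hn (Or.inl hQ)
    have h2 : Real.log (Q (tr r (PS Y)) n) ≤ Real.log x + ε := by
      have := Real.log_le_log (hQpos r hgood n hn) hQ
      linarith [(abs_le.1 h1).1]
    rw [← Real.exp_log (hQpos _ hgoodt n hn)]
    calc Real.exp (Real.log (Q (tr r (PS Y)) n)) ≤ Real.exp (Real.log x + ε) := Real.exp_le_exp.2 h2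
      _ = x * Real.exp ε := by rw [Real.exp_add, Real.exp_log hx0]
  have hlow : N (tr r (PS Y)) (x * Real.exp (-ε)) ≤ N r x := by
    apply N_mono_of hgood
    intro n hn hQ
    have hexp : Real.exp (-ε) ≤ 1 := Real.exp_le_one_iff.2 (by linarith)
    have hQ' : Q (tr r (PS Y)) n ≤ x := hQ.trans (by nlinarith)
    have h1 := hdiff n hn (Or.inr hQ')
    have h2 : Real.log (Q r n) ≤ Real.log x := by
      have := Real.log_le_log (hQpos _ hgoodt n hn) hQ
      rw [Real.log_mul hx0.ne' (Real.exp_pos _).ne', Real.log_exp] at this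
      linarith [(abs_le.1 h1).2]
    exact (Real.log_le_log_iff (hQpos r hgood n hn) hx0).1 h2
  obtain ⟨hd0, hd1, hd2⟩ := hC2 Y
  obtain ⟨he0, he1⟩ := hC3 Y hY σ hσ hσ1
  have hF := lemmaF (r := r) (PS Y) (fun p hp => (mem_PS.1 hp).2)
    (fun p hp => h.one_lt p (mem_PS.1 hp).2) (σ := σ) (by linarith) hσ1
  obtain ⟨D, hD⟩ : ∃ D : ℝ, D = ∏ p ∈ PS Y, dens r p := ⟨_, rfl⟩
  obtain ⟨A, hA⟩ : ∃ A : ℝ, A = ∏ p ∈ PS Y, errf r σ p := ⟨_, rfl⟩
  rw [← hD] at hd0 hd1 hd2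
  rw [← hA] at he0 he1
  simp only [← hD, ← hA] at hF
  have hexp3 : Real.exp ε ≤ 3 := by
    calc Real.exp ε ≤ Real.exp 1 := Real.exp_le_exp.2 hε1
      _ ≤ 3 := by linarith [Real.exp_one_lt_d9]
  have hexpu : Real.exp ε ≤ 1 + 2 * ε := by
    have := Real.abs_exp_sub_one_le (x := ε) (by rw [abs_of_nonneg hε0]; exact hε1)
    rw [abs_of_nonneg hε0] at this
    linarith [(abs_le.1 this).2]
  have hexpl : 1 - ε ≤ Real.exp (-ε) := by linarith [Real.add_one_le_exp (-ε)]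
  have hxσ : 0 < x ^ σ := by positivity
  have hF1 := hF (x * Real.exp ε) (by positivity)
  have hF2 := hF (x * Real.exp (-ε)) (by positivity)
  have hpow1 : (x * Real.exp ε) ^ σ ≤ 3 * x ^ σ := by
    rw [Real.mul_rpow hx0.le (Real.exp_pos _).le, ← Real.exp_mul]
    have : Real.exp (ε * σ) ≤ 3 :=
      (Real.exp_le_exp.2 (by nlinarith : ε * σ ≤ ε)).trans hexp3
    nlinarith
  have hpow2 : (x * Real.exp (-ε)) ^ σ ≤ x ^ σ := by
    apply Real.rpow_le_rpow (by positivity) _ (by linarith)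
    have : Real.exp (-ε) ≤ 1 := Real.exp_le_one_iff.2 (by linarith)
    nlinarith
  have hu : N r x ≤ D * x * (1 + 2 * ε) + A * (3 * x ^ σ) := by
    have h1 := (abs_le.1 hF1).2
    have h2 : A * (x * Real.exp ε) ^ σ ≤ A * (3 * x ^ σ) := mul_le_mul_of_nonneg_left hpow1 he0.le
    have h3 : D * (x * Real.exp ε) ≤ D * x * (1 + 2 * ε) := by
      rw [← mul_assoc]; exact mul_le_mul_of_nonneg_left hexpu (by positivity)
    linarith
  have hl : D * x * (1 - ε) - A * x ^ σ ≤ N r x := by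
    have h1 := (abs_le.1 hF2).1
    have h2 : A * (x * Real.exp (-ε)) ^ σ ≤ A * x ^ σ := mul_le_mul_of_nonneg_left hpow2 he0.le
    have h3 : D * x * (1 - ε) ≤ D * (x * Real.exp (-ε)) := by
      rw [← mul_assoc]; exact mul_le_mul_of_nonneg_left hexpl (by positivity)
    linarith
  have hA2 : A ≤ Real.exp (C * ((Y : ℝ) ^ (1 - σ) * (5 + 4 * Real.log (2 * Real.log Y)))) := by
    refine he1.trans (Real.exp_le_exp.2 ?_)
    apply mul_le_mul_of_nonneg_right hCb
    have : 0 ≤ ∑ p ∈ PS Y, (1 : ℝ) / p := Finset.sum_nonneg (fun p _ => by positivity)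
    have := sum_inv_le Y hY
    have h5 : 0 ≤ 5 + 4 * Real.log (2 * Real.log Y) := by linarith
    positivity
  have hV0 : 0 < ((Y : ℝ) + 1) ^ (-(1 - θ) / 2) := by positivity
  obtain ⟨V, hV⟩ : ∃ V : ℝ, V = ((Y : ℝ) + 1) ^ (-(1 - θ) / 2) := ⟨_, rfl⟩
  have hE0 : 0 < Real.exp (C * ((Y : ℝ) ^ (1 - σ) * (5 + 4 * Real.log (2 * Real.log Y)))) :=
    Real.exp_pos _
  obtain ⟨E, hE⟩ : ∃ E : ℝ, E = Real.exp (C * ((Y : ℝ) ^ (1 - σ) * (5 + 4 * Real.log (2 * Real.log Y)))) := ⟨_, rfl⟩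
  rw [← hE] at hE0 hA2
  rw [← hV] at hV0 hd2
  rw [← hE, ← hV]
  have hmain : |N r x - D * x| ≤ D * x * (2 * ε) + A * (3 * x ^ σ) := by
    rw [abs_le]
    constructor
    · have : 0 ≤ D * x * ε := by positivity
      have : 0 ≤ A * x ^ σ := by positivity
      linarith
    · linarith
  have htri : |N r x - ρ * x| ≤ |N r x - D * x| + |D - ρ| * x := by
    calc |N r x - ρ * x| = |(N r x - D * x) + (D - ρ) * x| := by congr 1; ring
      _ ≤ |N r x - D * x| + |(D - ρ) * x| := abs_add_le _ _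
      _ = |N r x - D * x| + |D - ρ| * x := by rw [abs_mul, abs_of_pos hx0]
  have p1 : D * x * (2 * ε) ≤ C * (x * (W * Real.log x)) := by
    calc D * x * (2 * ε) ≤ C2 * x * (2 * ε) := by
          apply mul_le_mul_of_nonneg_right _ (by positivity)
          exact mul_le_mul_of_nonneg_right hd1 hx0.le
      _ = (C1 / η * C2 * 2) * (x * (W * Real.log x)) := by rw [hεdef]; ring
      _ ≤ C * (x * (W * Real.log x)) := by
          apply mul_le_mul_of_nonneg_right _ (by positivity)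
          have : 0 ≤ C1 / η := by positivity
          linarith
  have p2 : |D - ρ| * x ≤ C * (x * V) := by
    calc |D - ρ| * x ≤ (C2 * V) * x := mul_le_mul_of_nonneg_right hd2 hx0.le
      _ = C2 * (x * V) := by ring
      _ ≤ C * (x * V) := by
          apply mul_le_mul_of_nonneg_right _ (by positivity)
          have : 0 ≤ C1 / η := by positivity
          have : 0 ≤ C1 / η * C2 * 2 := by positivity
          linarith
  have p3 : A * (3 * x ^ σ) ≤ C * (E * x ^ σ) := by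
    have h3 : 3 ≤ C := by
      have : 0 ≤ C1 / η := by positivity
      have : 0 ≤ C1 / η * C2 * 2 := by positivity
      linarith
    calc A * (3 * x ^ σ) ≤ E * (3 * x ^ σ) := mul_le_mul_of_nonneg_right hA2 (by positivity)
      _ = 3 * (E * x ^ σ) := by ring
      _ ≤ C * (E * x ^ σ) := mul_le_mul_of_nonneg_right h3 (by positivity)
  calc |N r x - ρ * x| ≤ D * x * (2 * ε) + A * (3 * x ^ σ) + |D - ρ| * x := by linarith
    _ ≤ C * (x * (W * Real.log x)) + C * (E * x ^ σ) + C * (x * V) := by linarith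
    _ = _ := by ring

end Pool.Agent.KS6_1.Beu
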