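import Mathlib
import Pool.Agent.KS6_1.Beurling.Constr
import Pool.Agent.KS6_1.Beurling.Stab

set_option autoImplicit false

namespace Pool.Agent.KS6_1.Beu.Win

open Finset Filter

/-- `p` lies in the window of its dyadic block -/
def Moved (a H : ℕ → ℕ) (k₀ p : ℕ) : Prop :=
  k₀ ≤ Nat.log 2 p ∧ a (Nat.log 2 p) < p ∧ p ≤ a (Nat.log 2 p) + 2 * H (Nat.log 2 p)

instance (a H : ℕ → ℕ) (k₀ : ℕ) : DecidablePred (Moved a H k₀) := fun p => by
  unfold Moved; infer_instance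

/-- the new positions -/
noncomputable def rw2 (a H : ℕ → ℕ) (k₀ p : ℕ) : ℝ :=
  if Moved a H k₀ p then ((p : ℝ) + a (Nat.log 2 p)) / 2 + H (Nat.log 2 p) else p

/-- geometry of the windows -/
structure Geo (a H : ℕ → ℕ) (k₀ : ℕ) : Prop where
  left : ∀ k, k₀ ≤ k → 2 ^ k ≤ a k
  right : ∀ k, k₀ ≤ k → a k + 2 * H k ≤ 2 ^ (k + 1)
  pos : ∀ k, k₀ ≤ k → 1 ≤ H k

variable {a H : ℕ → ℕ} {k₀ : ℕ}

theorem rw2_moved {p : ℕ} (h : Moved a H k₀ p) :
    rw2 a H k₀ p = ((p : ℝ) + a (Nat.log 2 p)) / 2 + H (Nat.log 2 p) := if_pos h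

theorem rw2_not {p : ℕ} (h : ¬ Moved a H k₀ p) : rw2 a H k₀ p = p := if_neg h

theorem le_rw2 (p : ℕ) : (p : ℝ) ≤ rw2 a H k₀ p := by
  by_cases h : Moved a H k₀ p
  · rw [rw2_moved h]
    have : (p : ℝ) ≤ a (Nat.log 2 p) + 2 * H (Nat.log 2 p) := by exact_mod_cast h.2.2
    linarith
  · rw [rw2_not h]

theorem moved_bounds {p : ℕ} (h : Moved a H k₀ p) :
    (a (Nat.log 2 p) : ℝ) + H (Nat.log 2 p) < rw2 a H k₀ p ∧
      rw2 a H k₀ p ≤ a (Nat.log 2 p) + 2 * H (Nat.log 2 p) := by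
  rw [rw2_moved h]
  have h1 : (p : ℝ) ≤ a (Nat.log 2 p) + 2 * H (Nat.log 2 p) := by exact_mod_cast h.2.2
  have h2 : (a (Nat.log 2 p) : ℝ) < p := by exact_mod_cast h.2.1
  constructor <;> linarith

theorem moved_sub {p : ℕ} (h : Moved a H k₀ p) : |rw2 a H k₀ p - p| ≤ H (Nat.log 2 p) := by
  rw [rw2_moved h]
  have h1 : (p : ℝ) ≤ a (Nat.log 2 p) + 2 * H (Nat.log 2 p) := by exact_mod_cast h.2.2
  have h2 : (a (Nat.log 2 p) : ℝ) < p := by exact_mod_cast h.2.1
  rw [abs_le]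
  constructor <;> linarith

theorem rw2_lt (G : Geo a H k₀) {p p' : ℕ} (hp : 1 ≤ p) (hpp : p < p') :
    rw2 a H k₀ p < rw2 a H k₀ p' := by
  have hpr : (p : ℝ) < p' := by exact_mod_cast hpp
  by_cases h : Moved a H k₀ p
  · have hkk : Nat.log 2 p ≤ Nat.log 2 p' := Nat.log_mono_right hpp.le
    rcases Nat.eq_or_lt_of_le hkk with heq | hlt
    · by_cases h' : Moved a H k₀ p'
      · rw [rw2_moved h, rw2_moved h', heq]; linarith
      · have h1 : a (Nat.log 2 p) + 2 * H (Nat.log 2 p) < p' := by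
          by_contra hcon
          apply h'
          refine ⟨heq ▸ h.1, heq ▸ (h.2.1.trans hpp), ?_⟩
          rw [← heq]; exact not_lt.1 hcon
        have h2 : ((a (Nat.log 2 p) : ℝ) + 2 * H (Nat.log 2 p)) < p' := by exact_mod_cast h1
        rw [rw2_not h']
        linarith [(moved_bounds h).2]
    · have h1 : p < 2 ^ (Nat.log 2 p + 1) := Nat.lt_pow_succ_log_self (by norm_num) p
      have h2 : 2 ^ (Nat.log 2 p + 1) ≤ 2 ^ Nat.log 2 p' := Nat.pow_le_pow_right (by norm_num) hlt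
      have h3 : 2 ^ Nat.log 2 p' ≤ p' := Nat.pow_log_le_self 2 (by omega)
      have h4 := G.right _ h.1
      have h5 : ((a (Nat.log 2 p) : ℝ) + 2 * H (Nat.log 2 p)) ≤ p' := by
        exact_mod_cast h4.trans (h2.trans h3)
      have h6 := le_rw2 (a := a) (H := H) (k₀ := k₀) p'
      rw [rw2_moved h]
      linarith
  · rw [rw2_not h]
    exact hpr.trans_le (le_rw2 p')

/-- the position of a number above `a k` -/
theorem gt_of_gt (G : Geo a H k₀) {k p : ℕ} (hk : k₀ ≤ k) (hp : a k < p) :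
    (a k : ℝ) + H k ≤ rw2 a H k₀ p := by
  have hl := G.left k hk
  have hp0 : p ≠ 0 := by omega
  have hkp : k ≤ Nat.log 2 p := (Nat.le_log_iff_pow_le (by norm_num) hp0).2 (by omega)
  rcases Nat.eq_or_lt_of_le hkp with heq | hlt
  · by_cases h : Moved a H k₀ p
    · have := (moved_bounds h).1
      rw [← heq] at this
      exact this.le
    · have h1 : a k + 2 * H k < p := by
        by_contra hcon
        apply h
        refine ⟨heq ▸ hk, heq ▸ hp, ?_⟩
        rw [← heq]; exact not_lt.1 hcon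
      rw [rw2_not h]
      have h2 : ((a k : ℝ) + 2 * H k) < p := by exact_mod_cast h1
      have h3 : (0 : ℝ) ≤ H k := by positivity
      linarith
  · have h1 : 2 ^ (k + 1) ≤ p :=
      (Nat.pow_le_pow_right (by norm_num) hlt).trans (Nat.pow_log_le_self 2 hp0)
    have h2 := G.right k hk
    have h3 : ((a k : ℝ) + 2 * H k) ≤ p := by exact_mod_cast h2.trans h1
    have h4 := le_rw2 (a := a) (H := H) (k₀ := k₀) p
    have h5 : (0 : ℝ) ≤ H k := by positivity
    linarith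

/-- the position of a number up to `a k` -/
theorem le_of_le (G : Geo a H k₀) {k p : ℕ} (hk : k₀ ≤ k) (hp : p ≤ a k) :
    rw2 a H k₀ p ≤ a k := by
  by_cases h : Moved a H k₀ p
  · have hl := G.left k hk
    have hr := G.right k hk
    have hH := G.pos k hk
    have hlog : Nat.log 2 p < k := by
      by_contra hcon
      rcases Nat.eq_or_lt_of_le (not_lt.1 hcon) with heq | hlt
      · have := h.2.1
        rw [← heq] at this; omega
      · have h1 : 2 ^ (k + 1) ≤ p := by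
          have hp0 : p ≠ 0 := by
            rintro rfl; simp at hlt
          exact (Nat.pow_le_pow_right (by norm_num) hlt).trans (Nat.pow_log_le_self 2 hp0)
        omega
    have h2 := G.right _ h.1
    have h3 : 2 ^ (Nat.log 2 p + 1) ≤ 2 ^ k := Nat.pow_le_pow_right (by norm_num) hlog
    have h4 : ((a (Nat.log 2 p) : ℝ) + 2 * H (Nat.log 2 p)) ≤ a k := by
      exact_mod_cast h2.trans (h3.trans hl)
    exact (moved_bounds h).2.trans h4
  · rw [rw2_not h]; exact_mod_cast hp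

/-- large gaps -/
theorem exists_large (G : Geo a H k₀) {k : ℕ} (hk : k₀ ≤ k) (hk1 : 1 ≤ k) :
    ∃ n, rw2 a H k₀ (pr n) ≤ a k ∧ (2 : ℝ) ^ (k - 1) ≤ rw2 a H k₀ (pr n) ∧
      (H k : ℝ) ≤ rw2 a H k₀ (pr (n + 1)) - rw2 a H k₀ (pr n) := by
  have hl := G.left k hk
  have h2k : 2 ≤ 2 ^ k := by
    calc 2 = 2 ^ 1 := rfl
      _ ≤ 2 ^ k := Nat.pow_le_pow_right (by norm_num) hk1
  -- a prime between `2^(k-1)` and `2^k`
  obtain ⟨P, hP1, hP2, hP3⟩ := Nat.exists_prime_lt_and_le_two_mul (2 ^ (k - 1)) (by positivity)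
  have hP4 : P ≤ 2 ^ k := by
    calc P ≤ 2 * 2 ^ (k - 1) := hP3
      _ = 2 ^ k := by rw [← pow_succ']; congr 1; omega
  have hne : ∃ m, a k < pr m := by
    obtain ⟨m, hm⟩ := (pr_strictMono.tendsto_atTop.eventually_gt_atTop (a k)).exists
    exact ⟨m, hm⟩
  classical
  have hm1 := Nat.find_spec hne
  have hmin : ∀ j, j < Nat.find hne → pr j ≤ a k := fun j hj => not_lt.1 (Nat.find_min hne hj)
  obtain ⟨jP, hjP⟩ := exists_pr hP1
  have hpos : 0 < Nat.find hne := by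
    rcases Nat.eq_zero_or_pos (Nat.find hne) with h0 | h0
    · rw [h0] at hm1
      have : pr 0 ≤ pr jP := pr_strictMono.monotone (Nat.zero_le _)
      omega
    · exact h0
  obtain ⟨n, hn⟩ : ∃ n, Nat.find hne = n + 1 := ⟨Nat.find hne - 1, by omega⟩
  rw [hn] at hm1 hmin
  have hle : pr n ≤ a k := hmin n (Nat.lt_succ_self n)
  have hjn : jP ≤ n := by
    by_contra hcon
    have : pr (n + 1) ≤ pr jP := pr_strictMono.monotone (by omega)
    omega
  have hPn : P ≤ pr n := by rw [← hjP]; exact pr_strictMono.monotone hjn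
  refine ⟨n, le_of_le G hk hle, ?_, ?_⟩
  · have h1 : (2 : ℝ) ^ (k - 1) ≤ pr n := by
      exact_mod_cast hP2.le.trans hPn
    exact h1.trans (le_rw2 _)
  · have h1 := gt_of_gt G hk hm1
    have h2 := le_of_le G hk hle
    linarith

/-- comparison of the counting functions of the primes -/
theorem count_diff (G : Geo a H k₀) {x : ℝ} (hx : 1 ≤ x) :
    (Set.ncard {n | rw2 a H k₀ (pr n) ≤ x} : ℝ) ≤ Set.ncard {n | (pr n : ℝ) ≤ x} ∧
    ((Set.ncard {n | (pr n : ℝ) ≤ x} : ℝ) - Set.ncard {n | rw2 a H k₀ (pr n) ≤ x} ≤ 0 ∨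
     (k₀ ≤ Nat.log 2 ⌊x⌋₊ ∧ (Set.ncard {n | (pr n : ℝ) ≤ x} : ℝ) -
        Set.ncard {n | rw2 a H k₀ (pr n) ≤ x} ≤
        cnt (a (Nat.log 2 ⌊x⌋₊)) (a (Nat.log 2 ⌊x⌋₊) + 2 * H (Nat.log 2 ⌊x⌋₊)))) := by
  have hfin : {n | (pr n : ℝ) ≤ x}.Finite := by
    apply Set.Finite.subset (Set.finite_Iic ⌊x⌋₊)
    intro n hn
    have h1 : pr n ≤ ⌊x⌋₊ := Nat.le_floor hn
    exact (pr_strictMono.id_le n).trans h1
  have hsub : {n | rw2 a H k₀ (pr n) ≤ x} ⊆ {n | (pr n : ℝ) ≤ x} := fun n hn =>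
    (le_rw2 (pr n)).trans hn
  have hle := Set.ncard_le_ncard hsub hfin
  refine ⟨by exact_mod_cast hle, ?_⟩
  -- the difference
  have hdiff : ((Set.ncard {n | (pr n : ℝ) ≤ x} : ℕ) : ℝ) - Set.ncard {n | rw2 a H k₀ (pr n) ≤ x} =
      Set.ncard ({n | (pr n : ℝ) ≤ x} \ {n | rw2 a H k₀ (pr n) ≤ x}) := by
    rw [Set.ncard_sdiff hsub (hfin.subset hsub)]
    push_cast [Nat.cast_sub hle]
    ring
  by_cases hemp : ({n | (pr n : ℝ) ≤ x} \ {n | rw2 a H k₀ (pr n) ≤ x}) = ∅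
  · left
    rw [hdiff, hemp]; simp
  · right
    -- every such `n` has `pr n` in the window containing `x`
    have hkey : ∀ n ∈ ({n | (pr n : ℝ) ≤ x} \ {n | rw2 a H k₀ (pr n) ≤ x}),
        Moved a H k₀ (pr n) ∧ Nat.log 2 (pr n) = Nat.log 2 ⌊x⌋₊ := by
      rintro n ⟨hn1, hn2⟩
      have hn1' : (pr n : ℝ) ≤ x := hn1
      have hn2' : x < rw2 a H k₀ (pr n) := not_le.1 hn2
      have hmv : Moved a H k₀ (pr n) := by
        by_contra hcon
        rw [rw2_not hcon] at hn2'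
        linarith
      refine ⟨hmv, ?_⟩
      have h0 : pr n ≠ 0 := (pr_prime n).ne_zero
      apply le_antisymm
      · exact Nat.log_mono_right (Nat.le_floor hn1')
      · have h1 := (moved_bounds hmv).2
        have h2 := G.right _ hmv.1
        have h3 : x < 2 ^ (Nat.log 2 (pr n) + 1) := by
          have : ((a (Nat.log 2 (pr n)) : ℝ) + 2 * H (Nat.log 2 (pr n))) ≤
              2 ^ (Nat.log 2 (pr n) + 1) := by exact_mod_cast h2
          linarith
        have h4 : ⌊x⌋₊ < 2 ^ (Nat.log 2 (pr n) + 1) := by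
          rw [Nat.floor_lt (by linarith)]
          exact_mod_cast h3
        have h5 : ⌊x⌋₊ ≠ 0 := by
          have := (Nat.one_le_floor_iff x).2 hx
          omega
        exact Nat.lt_succ_iff.1 ((Nat.log_lt_iff_lt_pow (by norm_num) h5).2 h4)
    obtain ⟨n₀, hn₀⟩ := Set.nonempty_iff_ne_empty.2 hemp
    refine ⟨(hkey n₀ hn₀).2 ▸ (hkey n₀ hn₀).1.1, ?_⟩
    rw [hdiff]
    have hinj : Set.ncard ({n | (pr n : ℝ) ≤ x} \ {n | rw2 a H k₀ (pr n) ≤ x}) ≤
        Set.ncard (((Ioc (a (Nat.log 2 ⌊x⌋₊)) (a (Nat.log 2 ⌊x⌋₊) + 2 * H (Nat.log 2 ⌊x⌋₊))).filter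
          Nat.Prime : Finset ℕ) : Set ℕ) := by
      apply Set.ncard_le_ncard_of_injOn pr
      · intro n hn
        obtain ⟨h1, h2⟩ := hkey n hn
        simp only [Finset.coe_filter, Finset.mem_Ioc]
        rw [← h2]
        exact ⟨⟨h1.2.1, h1.2.2⟩, pr_prime n⟩
      · exact fun x _ y _ h => pr_injective h
    rw [Set.ncard_coe_finset] at hinj
    unfold cnt
    exact_mod_cast hinj

end Pool.Agent.KS6_1.Beu.Win
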