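import Mathlib
import Pool.Agent.KS6_1.Beurling.Win

set_option autoImplicit false

namespace Pool.Agent.KS6_1.Beu.Win

open Finset Filter Asymptotics

variable {a H : ℕ → ℕ} {k₀ : ℕ}

/-- the error factor of a prime moved to the right -/
theorem errf_le' {r : ℕ → ℝ} {p : ℕ} (hp : p.Prime) (hr : (p : ℝ) ≤ r p) {σ : ℝ} (hσ : 0 < σ) :
    0 < errf r σ p ∧ errf r σ p ≤ Real.exp ((1 + 1 / (1 - (2 : ℝ) ^ (-σ))) * (p : ℝ) ^ (-σ)) := by
  have hp0 : (0 : ℝ) < p := by exact_mod_cast hp.pos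
  have hp2 : (2 : ℝ) ≤ p := by exact_mod_cast hp.two_le
  have hr0 : 0 < r p := by linarith
  obtain ⟨t0, ht0⟩ : ∃ t0 : ℝ, t0 = (2 : ℝ) ^ (-σ) := ⟨_, rfl⟩
  have ht0' : t0 < 1 := by rw [ht0]; exact Real.rpow_lt_one_of_one_lt_of_neg (by norm_num) (by linarith)
  rw [← ht0]
  obtain ⟨t, ht⟩ : ∃ t : ℝ, t = (r p) ^ (-σ) := ⟨_, rfl⟩
  have htpos : 0 < t := by rw [ht]; positivity
  have ht2 : t ≤ (p : ℝ) ^ (-σ) := by
    rw [ht]; exact Real.rpow_le_rpow_of_nonpos hp0 hr (by linarith)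
  have ht1 : t ≤ t0 := by
    refine ht2.trans ?_
    rw [ht0]; exact Real.rpow_le_rpow_of_nonpos (by norm_num) hp2 (by linarith)
  have hpos : 0 < 1 - t := by linarith
  have hpos0 : 0 < 1 - t0 := by linarith
  have h1 : 0 < errf r σ p := by
    unfold errf; rw [← ht]; positivity
  refine ⟨h1, ?_⟩
  have e1 : 1 + (p : ℝ) ^ (-σ) ≤ Real.exp ((p : ℝ) ^ (-σ)) := by
    have := Real.add_one_le_exp ((p : ℝ) ^ (-σ)); linarith
  have e2 : 1 / (1 - t) ≤ Real.exp (1 / (1 - t0) * (p : ℝ) ^ (-σ)) := by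
    have h2 : 1 / (1 - t) = 1 + t / (1 - t) := by field_simp; ring
    have h3 : t / (1 - t) ≤ ((p : ℝ) ^ (-σ)) / (1 - t0) :=
      div_le_div₀ (by positivity) ht2 hpos0 (by linarith)
    have h4 : ((p : ℝ) ^ (-σ)) / (1 - t0) = 1 / (1 - t0) * (p : ℝ) ^ (-σ) := by ring
    rw [h2]
    have := Real.add_one_le_exp (1 / (1 - t0) * (p : ℝ) ^ (-σ))
    rw [h4] at h3
    linarith
  unfold errf
  have e3 : (1 + 1 / (1 - t0)) * (p : ℝ) ^ (-σ) =
      (p : ℝ) ^ (-σ) + 1 / (1 - t0) * (p : ℝ) ^ (-σ) := by ring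
  rw [← ht, div_eq_mul_one_div, e3, Real.exp_add]
  exact mul_le_mul e1 e2 (by positivity) (by positivity)

theorem dens_right {r : ℕ → ℝ} {p : ℕ} (hp : p.Prime) (hr : (p : ℝ) ≤ r p) :
    |Real.log (dens r p)| ≤ 2 / p := by
  have hp0 : (0 : ℝ) < p := by exact_mod_cast hp.pos
  have hp2 : (2 : ℝ) ≤ p := by exact_mod_cast hp.two_le
  have hr0 : 0 < r p := by linarith
  have h1 : 1 / (p : ℝ) ≤ 1 / 2 := one_div_le_one_div_of_le (by norm_num) hp2
  have h2 : 0 < 1 / r p := by positivity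
  have h3 : 1 / r p ≤ 1 / p := one_div_le_one_div_of_le hp0 hr
  have hlow : 1 - 1 / (p : ℝ) ≤ dens r p := by
    unfold dens
    rw [le_div_iff₀ (by linarith)]
    nlinarith
  have hup : dens r p ≤ 1 := by
    unfold dens
    rw [div_le_one (by linarith)]; linarith
  have h4 : |dens r p - 1| ≤ 1 / p := by
    rw [abs_le]; constructor <;> linarith
  refine (abs_log_le (v := dens r p) (c := 1 / 2) (by norm_num) (by norm_num) (by linarith)).trans ?_
  calc |dens r p - 1| / (1 / 2) ≤ (1 / p) / (1 / 2) := div_le_div_of_nonneg_right h4 (by norm_num)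
    _ = 2 / p := by ring

/-- **Counting function for primes moved to the right in a thin set.** -/
theorem thin {r : ℕ → ℝ} (hr : ∀ p : ℕ, p.Prime → (p : ℝ) ≤ r p) (S : Set ℕ)
    (hS : ∀ p : ℕ, p.Prime → p ∉ S → r p = p) {σ : ℝ} (hσ : 0 < σ) (hσ1 : σ ≤ 1)
    (hsum : Summable fun p : ℕ => S.indicator (fun p => (p : ℝ) ^ (-σ)) p) :
    ∃ C : ℝ, ∀ x : ℝ, 1 ≤ x →
      |N r x - Real.exp (∑' p : ℕ, if p.Prime then Real.log (dens r p) else 0) * x| ≤ C * x ^ σ := by
  classical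
  obtain ⟨Z, hZ⟩ : ∃ Z : ℝ, Z = ∑' p : ℕ, S.indicator (fun p => (p : ℝ) ^ (-σ)) p := ⟨_, rfl⟩
  have hind0 : ∀ p : ℕ, 0 ≤ S.indicator (fun p : ℕ => (p : ℝ) ^ (-σ)) p := fun p =>
    Set.indicator_nonneg (fun p _ => by positivity) p
  have hZ0 : 0 ≤ Z := by rw [hZ]; exact tsum_nonneg hind0
  obtain ⟨f, hf⟩ : ∃ f : ℕ → ℝ, f = fun p : ℕ => if p.Prime then Real.log (dens r p) else 0 := ⟨_, rfl⟩
  rw [← hf]
  -- unmoved primes have density factor one
  have hdens1 : ∀ p : ℕ, p.Prime → p ∉ S → dens r p = 1 := by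
    intro p hp hpS
    unfold dens
    rw [hS p hp hpS]
    have hp1 : (1 : ℝ) < p := by exact_mod_cast hp.one_lt
    have : 1 - 1 / (p : ℝ) ≠ 0 := by
      have : 1 / (p : ℝ) < 1 := by rw [div_lt_one (by linarith)]; exact hp1
      linarith
    exact div_self this
  have hfb : ∀ p, ‖f p‖ ≤ 2 * S.indicator (fun p : ℕ => (p : ℝ) ^ (-σ)) p := by
    intro p
    rw [hf]
    simp only [Real.norm_eq_abs]
    split_ifs with hp
    · by_cases hpS : p ∈ S
      · rw [Set.indicator_of_mem hpS]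
        refine (dens_right hp (hr p hp)).trans ?_
        have hp1 : (1 : ℝ) ≤ p := by exact_mod_cast hp.one_le
        have : (1 : ℝ) / p ≤ (p : ℝ) ^ (-σ) := by
          rw [one_div, ← Real.rpow_neg_one]
          exact Real.rpow_le_rpow_of_exponent_le hp1 (by linarith)
        calc 2 / (p : ℝ) = 2 * (1 / p) := by ring
          _ ≤ _ := mul_le_mul_of_nonneg_left this (by norm_num)
      · rw [hdens1 p hp hpS, Real.log_one, abs_zero]
        have := hind0 p
        linarith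
    · rw [abs_zero]; have := hind0 p; linarith
  have hfs : Summable f := Summable.of_norm_bounded (hsum.mul_left 2) hfb
  obtain ⟨s, hs⟩ : ∃ s : ℝ, s = ∑' p, f p := ⟨_, rfl⟩
  rw [← hs]
  have hs2 : |s| ≤ 2 * Z := by
    rw [hs, hZ, ← tsum_mul_left, ← Real.norm_eq_abs]
    exact tsum_of_norm_bounded (hsum.mul_left 2).hasSum hfb
  obtain ⟨c₁, hc₁⟩ : ∃ c₁ : ℝ, c₁ = 1 + 1 / (1 - (2 : ℝ) ^ (-σ)) := ⟨_, rfl⟩
  have hc₁0 : 0 < c₁ := by
    have : (2 : ℝ) ^ (-σ) < 1 := Real.rpow_lt_one_of_one_lt_of_neg (by norm_num) (by linarith)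
    have : 0 < 1 - (2 : ℝ) ^ (-σ) := by linarith
    rw [hc₁]; positivity
  refine ⟨Real.exp (c₁ * Z) + Real.exp (2 * Z) * (2 * Z * Real.exp (2 * Z)) , ?_⟩
  intro x hx
  have hx0 : 0 < x := by linarith
  obtain ⟨Y, hY⟩ : ∃ Y : ℕ, Y = ⌊x⌋₊ := ⟨_, rfl⟩
  have hYx : (Y : ℝ) ≤ x := by rw [hY]; exact Nat.floor_le hx0.le
  have hYx2 : x < Y + 1 := by rw [hY]; exact Nat.lt_floor_add_one x
  have hY1 : 1 ≤ Y := by rw [hY]; exact (Nat.one_le_floor_iff x).2 hx
  -- the finite set of moved primes up to `Y`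
  obtain ⟨T, hT⟩ : ∃ T : Finset ℕ, T = (PS Y).filter (fun p => p ∈ S) := ⟨_, rfl⟩
  have hTm : ∀ p, p ∈ T ↔ (p ≤ Y ∧ p.Prime) ∧ p ∈ S := by
    intro p; rw [hT, Finset.mem_filter, mem_PS]
  have hgood1 : ∀ p : ℕ, p.Prime → (p : ℝ) ^ (1 : ℝ) ≤ r p := fun p hp => by
    rw [Real.rpow_one]; exact hr p hp
  have hgood : Good r := ⟨1, one_pos, hgood1⟩
  have hgoodT1 : ∀ p : ℕ, p.Prime → (p : ℝ) ^ (1 : ℝ) ≤ tr r T p := tr_ge le_rfl hgood1 T
  have hgoodT : Good (tr r T) := ⟨1, one_pos, hgoodT1⟩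
  -- the two systems have the same integers up to `x`
  have hsmall : ∀ s : ℕ → ℝ, (∀ p : ℕ, p.Prime → (p : ℝ) ^ (1 : ℝ) ≤ s p) → ∀ n : ℕ, n ≠ 0 →
      Q s n ≤ x → n ≤ Y := by
    intro s hs n hn hQ
    have h1 := Good.le_Q hs hn
    rw [Real.rpow_one] at h1
    rw [hY]
    exact Nat.le_floor (h1.trans hQ)
  have heq : ∀ n : ℕ, n ≠ 0 → n ≤ Y → Q r n = Q (tr r T) n := by
    intro n hn hnY
    apply Q_congr
    intro p hp hpn
    unfold tr
    split_ifs with hmem
    · rfl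
    · apply hS p hp
      intro hpS
      exact hmem ((hTm p).2 ⟨⟨(Nat.le_of_dvd (Nat.pos_of_ne_zero hn) hpn).trans hnY, hp⟩, hpS⟩)
  have hN : N r x = N (tr r T) x := by
    apply le_antisymm
    · apply N_mono_of hgoodT
      intro n hn hQ
      rw [← heq n hn (hsmall r hgood1 n hn hQ)]; exact hQ
    · apply N_mono_of hgood
      intro n hn hQ
      rw [heq n hn (hsmall _ hgoodT1 n hn hQ)]; exact hQ
  have hF := lemmaF (r := r) T (fun p hp => ((hTm p).1 hp).1.2)
    (fun p hp => by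
      have hpp := ((hTm p).1 hp).1.2
      have h1 : (1 : ℝ) < p := by exact_mod_cast hpp.one_lt
      linarith [hr p hpp]) hσ hσ1 x hx0
  -- product of the error factors
  have hA : (∏ p ∈ T, errf r σ p) ≤ Real.exp (c₁ * Z) := by
    calc (∏ p ∈ T, errf r σ p) ≤ ∏ p ∈ T, Real.exp (c₁ * (p : ℝ) ^ (-σ)) := by
          apply Finset.prod_le_prod
          · intro p hp
            have hpp := ((hTm p).1 hp).1.2
            exact (errf_le' hpp (hr p hpp) hσ).1.le
          · intro p hp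
            have hpp := ((hTm p).1 hp).1.2
            rw [hc₁]
            exact (errf_le' hpp (hr p hpp) hσ).2
      _ = Real.exp (∑ p ∈ T, c₁ * (p : ℝ) ^ (-σ)) := (Real.exp_sum _ _).symm
      _ ≤ Real.exp (c₁ * Z) := by
          apply Real.exp_le_exp.2
          rw [← Finset.mul_sum]
          apply mul_le_mul_of_nonneg_left _ hc₁0.le
          rw [hZ]
          calc ∑ p ∈ T, (p : ℝ) ^ (-σ) = ∑ p ∈ T, S.indicator (fun p : ℕ => (p : ℝ) ^ (-σ)) p := by
                apply Finset.sum_congr rfl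
                intro p hp
                rw [Set.indicator_of_mem ((hTm p).1 hp).2]
            _ ≤ _ := hsum.sum_le_tsum T (fun p _ => hind0 p)
  -- product of the densities
  have hD : (∏ p ∈ T, dens r p) = Real.exp (∑ p ∈ T, f p) := by
    rw [Real.exp_sum]
    apply Finset.prod_congr rfl
    intro p hp
    have hpp := ((hTm p).1 hp).1.2
    rw [hf]
    simp only [hpp, if_true]
    rw [Real.exp_log]
    apply dens_pos hpp
    have h1 : (1 : ℝ) < p := by exact_mod_cast hpp.one_lt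
    linarith [hr p hpp]
  have htail : |(∑ p ∈ T, f p) - s| ≤ 2 * Z * x ^ (σ - 1) := by
    have h1 : HasSum (fun p => if p ∈ T then f p else 0) (∑ p ∈ T, f p) := by
      have e : (∑ b ∈ T, if b ∈ T then f b else 0) = ∑ p ∈ T, f p :=
        Finset.sum_congr rfl (fun b hb => by simp [hb])
      rw [← e]
      exact hasSum_sum_of_ne_finset_zero (fun b hb => by simp [hb])
    have h2 := h1.sub hfs.hasSum
    have h3 : ∀ p, ‖(if p ∈ T then f p else 0) - f p‖ ≤
        2 * S.indicator (fun p : ℕ => (p : ℝ) ^ (-σ)) p * x ^ (σ - 1) := by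
      intro p
      have hi := hind0 p
      split_ifs with hmem
      · rw [sub_self, norm_zero]; positivity
      · rw [zero_sub, norm_neg, hf]
        simp only [Real.norm_eq_abs]
        split_ifs with hp
        · by_cases hpS : p ∈ S
          · have hlt : Y < p := by
              by_contra hcon
              exact hmem ((hTm p).2 ⟨⟨not_lt.1 hcon, hp⟩, hpS⟩)
            have hlt' : (Y : ℝ) + 1 ≤ p := by exact_mod_cast hlt
            have hxp : x ≤ p := by linarith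
            have hp0 : (0 : ℝ) < p := by linarith
            rw [Set.indicator_of_mem hpS]
            refine (dens_right hp (hr p hp)).trans ?_
            have h4 : (1 : ℝ) / p = (p : ℝ) ^ (-σ) * (p : ℝ) ^ (σ - 1) := by
              rw [← Real.rpow_add hp0, one_div, ← Real.rpow_neg_one]; congr 1; ring
            have h5 : (p : ℝ) ^ (σ - 1) ≤ x ^ (σ - 1) :=
              Real.rpow_le_rpow_of_nonpos hx0 hxp (by linarith)
            calc 2 / (p : ℝ) = 2 * (1 / p) := by ring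
              _ = 2 * ((p : ℝ) ^ (-σ) * (p : ℝ) ^ (σ - 1)) := by rw [h4]
              _ ≤ 2 * ((p : ℝ) ^ (-σ) * x ^ (σ - 1)) := by
                  apply mul_le_mul_of_nonneg_left _ (by norm_num)
                  exact mul_le_mul_of_nonneg_left h5 (by positivity)
              _ = _ := by ring
          · rw [hdens1 p hp hpS, Real.log_one, abs_zero]; positivity
        · rw [abs_zero]; positivity
    have h4 : HasSum (fun p => 2 * S.indicator (fun p : ℕ => (p : ℝ) ^ (-σ)) p * x ^ (σ - 1))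
        (2 * Z * x ^ (σ - 1)) := by
      rw [hZ]; exact (hsum.hasSum.mul_left 2).mul_right _
    have h5 := tsum_of_norm_bounded h4 h3
    rw [h2.tsum_eq, ← hs] at h5
    exact h5
  have hxs1 : x ^ (σ - 1) ≤ 1 := Real.rpow_le_one_of_one_le_of_nonpos hx (by linarith)
  have hxs0 : 0 < x ^ (σ - 1) := by positivity
  have hxσ : x ^ σ = x ^ (σ - 1) * x := by
    rw [Real.rpow_sub hx0, Real.rpow_one]; field_simp
  have t1 : |(∑ p ∈ T, f p) - s| ≤ 2 * Z := by
    refine htail.trans ?_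
    calc 2 * Z * x ^ (σ - 1) ≤ 2 * Z * 1 := mul_le_mul_of_nonneg_left hxs1 (by positivity)
      _ = 2 * Z := mul_one _
  have hDρ : |(∏ p ∈ T, dens r p) - Real.exp s| * x ≤
      Real.exp (2 * Z) * (2 * Z * Real.exp (2 * Z)) * x ^ σ := by
    rw [hD]
    have e1 : Real.exp (∑ p ∈ T, f p) - Real.exp s =
        Real.exp s * (Real.exp ((∑ p ∈ T, f p) - s) - 1) := by
      rw [mul_sub, ← Real.exp_add]; ring_nf
    rw [e1, abs_mul, abs_of_pos (Real.exp_pos s)]
    have t2 := abs_exp_sub_one_le' ((∑ p ∈ T, f p) - s)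
    have t3 : |(∑ p ∈ T, f p) - s| * Real.exp |(∑ p ∈ T, f p) - s| ≤
        (2 * Z * x ^ (σ - 1)) * Real.exp (2 * Z) :=
      mul_le_mul htail (Real.exp_le_exp.2 t1) (Real.exp_pos _).le (by positivity)
    have t4 : Real.exp s ≤ Real.exp (2 * Z) := Real.exp_le_exp.2 ((le_abs_self s).trans hs2)
    calc Real.exp s * |Real.exp ((∑ p ∈ T, f p) - s) - 1| * x
        ≤ Real.exp (2 * Z) * ((2 * Z * x ^ (σ - 1)) * Real.exp (2 * Z)) * x := by
          apply mul_le_mul_of_nonneg_right _ hx0.le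
          exact mul_le_mul t4 (t2.trans t3) (abs_nonneg _) (Real.exp_pos _).le
      _ = _ := by rw [hxσ]; ring
  have hAx : (∏ p ∈ T, errf r σ p) * x ^ σ ≤ Real.exp (c₁ * Z) * x ^ σ :=
    mul_le_mul_of_nonneg_right hA (by positivity)
  rw [hN]
  calc |N (tr r T) x - Real.exp s * x|
      = |(N (tr r T) x - (∏ p ∈ T, dens r p) * x) + ((∏ p ∈ T, dens r p) - Real.exp s) * x| := by
        congr 1; ring
    _ ≤ |N (tr r T) x - (∏ p ∈ T, dens r p) * x| + |((∏ p ∈ T, dens r p) - Real.exp s) * x| :=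
        abs_add_le _ _
    _ = |N (tr r T) x - (∏ p ∈ T, dens r p) * x| + |(∏ p ∈ T, dens r p) - Real.exp s| * x := by
        rw [abs_mul _ x, abs_of_pos hx0]
    _ ≤ Real.exp (c₁ * Z) * x ^ σ + Real.exp (2 * Z) * (2 * Z * Real.exp (2 * Z)) * x ^ σ :=
        add_le_add (hF.trans hAx) hDρ
    _ = _ := by ring

end Pool.Agent.KS6_1.Beu.Win
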