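import Mathlib
import Pool.Agent.KS6_1.Beurling.Win

set_option autoImplicit false

namespace Pool.Agent.KS6_1.Beu.Win

open Finset Filter Asymptotics

/-- the logarithm of one factor of `ζ_Q / ζ` -/
noncomputable def FF (r : ℕ → ℝ) (S : Set ℕ) (p : ℕ) (s : ℂ) : ℂ :=
  open Classical in
  if p.Prime ∧ p ∈ S then Complex.log (1 - (p : ℂ) ^ (-s)) - Complex.log (1 - ((r p : ℝ) : ℂ) ^ (-s))
  else 0

theorem norm_cpow {c : ℝ} (hc : 0 < c) (s : ℂ) : ‖((c : ℝ) : ℂ) ^ (-s)‖ = c ^ (-s.re) := by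
  rw [Complex.norm_cpow_eq_rpow_re_of_pos hc]; simp

theorem norm_log_le {z : ℂ} {t t0 : ℝ} (hz : ‖z‖ ≤ t) (ht : t ≤ t0) (ht0 : t0 < 1) :
    ‖Complex.log (1 + z)‖ ≤ (1 + 1 / (1 - t0)) * t := by
  have h0 : 0 ≤ ‖z‖ := norm_nonneg z
  have h1 : ‖z‖ < 1 := lt_of_le_of_lt (hz.trans ht) ht0
  refine (Complex.norm_log_one_add_le h1).trans ?_
  have h2 : (1 - ‖z‖)⁻¹ ≤ 1 / (1 - t0) := by
    rw [inv_eq_one_div]
    exact one_div_le_one_div_of_le (by linarith) (by linarith)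
  have h3 : 0 < 1 / (1 - t0) := by
    have : 0 < 1 - t0 := by linarith
    positivity
  have h4 : ‖z‖ ^ 2 * (1 - ‖z‖)⁻¹ / 2 ≤ t * (1 / (1 - t0)) := by
    have h5 : ‖z‖ ^ 2 ≤ t := by
      calc ‖z‖ ^ 2 = ‖z‖ * ‖z‖ := by ring
        _ ≤ ‖z‖ * 1 := mul_le_mul_of_nonneg_left h1.le h0
        _ ≤ t := by linarith
    have h6 : 0 ≤ (1 - ‖z‖)⁻¹ := by
      have : 0 < 1 - ‖z‖ := by linarith
      positivity
    have h7 : ‖z‖ ^ 2 * (1 - ‖z‖)⁻¹ ≤ t * (1 / (1 - t0)) :=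
      mul_le_mul h5 h2 h6 (by linarith)
    have h8 : 0 ≤ ‖z‖ ^ 2 * (1 - ‖z‖)⁻¹ := by positivity
    linarith
  calc ‖z‖ ^ 2 * (1 - ‖z‖)⁻¹ / 2 + ‖z‖ ≤ t * (1 / (1 - t0)) + t := add_le_add h4 hz
    _ = (1 + 1 / (1 - t0)) * t := by ring

theorem FF_bound {r : ℕ → ℝ} (hr : ∀ p : ℕ, p.Prime → (p : ℝ) ≤ r p) (S : Set ℕ) {σ : ℝ}
    (hσ : 0 < σ) (p : ℕ) {s : ℂ} (hs : σ ≤ s.re) :
    ‖FF r S p s‖ ≤ (2 * (1 + 1 / (1 - (2 : ℝ) ^ (-σ)))) * S.indicator (fun p : ℕ => (p : ℝ) ^ (-σ)) p := by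
  have ht0 : (2 : ℝ) ^ (-σ) < 1 := Real.rpow_lt_one_of_one_lt_of_neg (by norm_num) (by linarith)
  have hc : 0 < 1 - (2 : ℝ) ^ (-σ) := by linarith
  unfold FF
  split_ifs with h
  · obtain ⟨hp, hpS⟩ := h
    rw [Set.indicator_of_mem hpS]
    have hp0 : (0 : ℝ) < p := by exact_mod_cast hp.pos
    have hp2 : (2 : ℝ) ≤ p := by exact_mod_cast hp.two_le
    have hrp := hr p hp
    have hr0 : 0 < r p := by linarith
    have n1 : ‖-((p : ℂ) ^ (-s))‖ ≤ (p : ℝ) ^ (-σ) := by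
      rw [norm_neg]
      have : ((p : ℂ)) = (((p : ℝ)) : ℂ) := by push_cast; rfl
      rw [this, norm_cpow hp0]
      exact Real.rpow_le_rpow_of_exponent_le (by linarith) (by linarith)
    have n2 : ‖-(((r p : ℝ) : ℂ) ^ (-s))‖ ≤ (p : ℝ) ^ (-σ) := by
      rw [norm_neg, norm_cpow hr0]
      calc (r p) ^ (-s.re) ≤ (r p) ^ (-σ) :=
            Real.rpow_le_rpow_of_exponent_le (by linarith) (by linarith)
        _ ≤ (p : ℝ) ^ (-σ) := Real.rpow_le_rpow_of_nonpos hp0 hrp (by linarith)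
    have n3 : (p : ℝ) ^ (-σ) ≤ (2 : ℝ) ^ (-σ) :=
      Real.rpow_le_rpow_of_nonpos (by norm_num) hp2 (by linarith)
    have b1 := norm_log_le n1 n3 ht0
    have b2 := norm_log_le n2 n3 ht0
    rw [← sub_eq_add_neg] at b1 b2
    calc _ ≤ ‖Complex.log (1 - (p : ℂ) ^ (-s))‖ + ‖Complex.log (1 - ((r p : ℝ) : ℂ) ^ (-s))‖ :=
          norm_sub_le _ _
      _ ≤ _ := by linarith
  · rw [norm_zero]
    have : 0 ≤ S.indicator (fun p : ℕ => (p : ℝ) ^ (-σ)) p :=
      Set.indicator_nonneg (fun p _ => by positivity) p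
    positivity

theorem one_sub_mem {c : ℝ} (hc : 1 < c) {s : ℂ} (hs : 0 < s.re) :
    1 - ((c : ℝ) : ℂ) ^ (-s) ∈ Complex.slitPlane := by
  rw [sub_eq_add_neg]
  apply Complex.mem_slitPlane_of_norm_lt_one
  rw [norm_neg, norm_cpow (by linarith)]
  exact Real.rpow_lt_one_of_one_lt_of_neg hc (by linarith)

theorem FF_diff {r : ℕ → ℝ} (hr : ∀ p : ℕ, p.Prime → (p : ℝ) ≤ r p) (S : Set ℕ) (p : ℕ) {s : ℂ}
    (hs : 0 < s.re) : DifferentiableAt ℂ (FF r S p) s := by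
  by_cases h : p.Prime ∧ p ∈ S
  · have e : FF r S p = fun s => Complex.log (1 - (p : ℂ) ^ (-s)) -
        Complex.log (1 - ((r p : ℝ) : ℂ) ^ (-s)) := by
      funext s; unfold FF; rw [if_pos h]
    rw [e]
    have hp1 : (1 : ℝ) < p := by exact_mod_cast h.1.one_lt
    have hr1 : 1 < r p := by linarith [hr p h.1]
    have hpc : ((p : ℂ)) = (((p : ℝ)) : ℂ) := by push_cast; rfl
    have hd : ∀ c : ℝ, 1 < c → DifferentiableAt ℂ (fun s : ℂ => Complex.log (1 - ((c : ℝ) : ℂ) ^ (-s))) s := by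
      intro c hc
      apply DifferentiableAt.clog
      · apply DifferentiableAt.const_sub
        apply DifferentiableAt.const_cpow
        · exact differentiableAt_id.neg
        · left
          have : c ≠ 0 := by linarith
          exact_mod_cast this
      · exact one_sub_mem hc hs
    rw [hpc]
    exact (hd p hp1).sub (hd (r p) hr1)
  · have e : FF r S p = fun _ => 0 := by
      funext s; unfold FF; rw [if_neg h]
    rw [e]
    exact differentiableAt_const _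

theorem zeta_factor {r : ℕ → ℝ} (hr : ∀ p : ℕ, p.Prime → (p : ℝ) ≤ r p) (S : Set ℕ)
    (hS : ∀ p : ℕ, p.Prime → p ∉ S → r p = p) {σ₀ : ℝ} (hσ₀ : 0 ≤ σ₀) (hσ₀1 : σ₀ ≤ 1)
    (hsum : ∀ σ : ℝ, σ₀ < σ → Summable fun p : ℕ => S.indicator (fun p => (p : ℝ) ^ (-σ)) p) :
    ∃ E : ℂ → ℂ, DifferentiableOn ℂ E {s | σ₀ < s.re} ∧ (∀ s : ℂ, σ₀ < s.re → E s ≠ 0) ∧
      ∀ s : ℂ, 1 < s.re →
        HasProd (fun n : ℕ => (1 - ((r (pr n) : ℝ) : ℂ) ^ (-s))⁻¹) (riemannZeta s * E s) := by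
  refine ⟨fun s => Complex.exp (∑' p, FF r S p s), ?_, fun s _ => Complex.exp_ne_zero _, ?_⟩
  · intro s hs
    have hs' : σ₀ < s.re := hs
    apply DifferentiableAt.differentiableWithinAt
    apply DifferentiableAt.cexp
    obtain ⟨σ, hσ1, hσ2⟩ := exists_between hs'
    have hopen : IsOpen {w : ℂ | σ < w.re} := isOpen_lt continuous_const Complex.continuous_re
    have hd : DifferentiableOn ℂ (fun w => ∑' p, FF r S p w) {w : ℂ | σ < w.re} := by
      apply Complex.differentiableOn_tsum_of_summable_norm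
        (u := fun p => (2 * (1 + 1 / (1 - (2 : ℝ) ^ (-σ)))) * S.indicator (fun p : ℕ => (p : ℝ) ^ (-σ)) p)
      · exact (hsum σ hσ1).mul_left _
      · intro p w hw
        have hw' : σ < w.re := hw
        exact (FF_diff hr S p (by linarith)).differentiableWithinAt
      · exact hopen
      · intro p w hw
        have hw' : σ < w.re := hw
        exact FF_bound hr S (by linarith) p hw'.le
    exact hd.differentiableAt (hopen.mem_nhds hσ2)
  · intro s hs
    -- Euler product of zeta, indexed by the naturals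
    have hζ := riemannZeta_eulerProduct_hasProd hs
    have hbij : Function.Bijective (fun n : ℕ => (⟨pr n, pr_prime n⟩ : Nat.Primes)) := by
      constructor
      · intro n m h
        exact pr_injective (congrArg Subtype.val h)
      · rintro ⟨p, hp⟩
        obtain ⟨n, hn⟩ := exists_pr hp
        exact ⟨n, Subtype.ext hn⟩
    have hζ' : HasProd (fun n : ℕ => (1 - ((pr n : ℕ) : ℂ) ^ (-s))⁻¹) (riemannZeta s) := by
      have := (Equiv.ofBijective _ hbij).hasProd_iff.2 hζ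
      exact this
    have hσ1 : ∃ σ : ℝ, σ₀ < σ ∧ 0 < σ ∧
        Summable (fun p : ℕ => S.indicator (fun p : ℕ => (p : ℝ) ^ (-σ)) p) ∧ σ ≤ s.re :=
      ⟨s.re, by linarith, by linarith, hsum _ (by linarith), le_rfl⟩
    obtain ⟨σ, hσ, hσ0, hsm, hσs⟩ := hσ1
    have hFs : Summable (fun p => FF r S p s) :=
      Summable.of_norm_bounded (hsm.mul_left _) (fun p => FF_bound hr S hσ0 p hσs)
    have h2 : HasSum (fun n => FF r S (pr n) s) (∑' p, FF r S p s) := by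
      have := (pr_injective.hasSum_iff (f := fun p => FF r S p s) (a := ∑' p, FF r S p s) ?_).2 hFs.hasSum
      · exact this
      · intro p hp
        unfold FF
        rw [if_neg]
        rintro ⟨hpp, _⟩
        obtain ⟨n, hn⟩ := exists_pr hpp
        exact hp ⟨n, hn⟩
    have h3 := h2.cexp
    have h4 := hζ'.mul h3
    convert h4 using 1
    funext n
    simp only [Function.comp]
    have hp1 : (1 : ℝ) < pr n := by exact_mod_cast (pr_prime n).one_lt
    have hr1 : 1 < r (pr n) := by linarith [hr _ (pr_prime n)]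
    have hpc : ((pr n : ℕ) : ℂ) = (((pr n : ℕ) : ℝ) : ℂ) := by push_cast; rfl
    have ne1 : 1 - ((pr n : ℕ) : ℂ) ^ (-s) ≠ 0 := by
      rw [hpc]; exact Complex.slitPlane_ne_zero (one_sub_mem hp1 (by linarith))
    have ne2 : 1 - ((r (pr n) : ℝ) : ℂ) ^ (-s) ≠ 0 :=
      Complex.slitPlane_ne_zero (one_sub_mem hr1 (by linarith))
    by_cases hmem : pr n ∈ S
    · have e : FF r S (pr n) s = Complex.log (1 - ((pr n : ℕ) : ℂ) ^ (-s)) -
        Complex.log (1 - ((r (pr n) : ℝ) : ℂ) ^ (-s)) := by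
        unfold FF; rw [if_pos ⟨pr_prime n, hmem⟩]
      rw [e, Complex.exp_sub, Complex.exp_log ne1, Complex.exp_log ne2]
      field_simp
    · have e : FF r S (pr n) s = 0 := by
        unfold FF; rw [if_neg (fun h => hmem h.2)]
      rw [e, Complex.exp_zero, mul_one, hS _ (pr_prime n) hmem, hpc]

end Pool.Agent.KS6_1.Beu.Win
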