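import Mathlib
import Pool.Agent.KS6_1.Beurling.WinCount
import Pool.Agent.KS6_1.Beurling.Zeta

set_option autoImplicit false

namespace Pool.Agent.KS6_1.Beu.Win

open Finset Filter Asymptotics

theorem cnt_add {a b c : ℕ} (hab : a ≤ b) (hbc : b ≤ c) : cnt a b + cnt b c = cnt a c := by
  unfold cnt
  rw [← Finset.card_union_of_disjoint]
  · rw [← Finset.filter_union, Finset.Ioc_union_Ioc_eq_Ioc hab hbc]
  · apply Finset.disjoint_filter_filter
    rw [Finset.disjoint_left]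
    intro p hp hp'
    rw [Finset.mem_Ioc] at hp hp'
    omega

theorem sum_cnt (A h J : ℕ) : ∑ j ∈ range J, cnt (A + h * j) (A + h * (j + 1)) = cnt A (A + h * J) := by
  induction J with
  | zero => simp [cnt]
  | succ J ih =>
    rw [Finset.sum_range_succ, ih]
    apply cnt_add
    · exact Nat.le_add_right _ _
    · exact Nat.add_le_add_left (Nat.mul_le_mul_left _ (Nat.le_succ _)) _

/-- a block of `J` windows contains a window with few primes -/
theorem exists_window (A h J : ℕ) (hJ : 1 ≤ J) :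
    ∃ j, j < J ∧ J * cnt (A + h * j) (A + h * (j + 1)) ≤ cnt A (A + h * J) := by
  obtain ⟨j, hj, hmin⟩ := (range J).exists_min_image (fun j => cnt (A + h * j) (A + h * (j + 1)))
    ⟨0, by simp; omega⟩
  refine ⟨j, Finset.mem_range.1 hj, ?_⟩
  rw [← sum_cnt]
  calc J * cnt (A + h * j) (A + h * (j + 1)) = ∑ i ∈ range J, cnt (A + h * j) (A + h * (j + 1)) := by
        rw [Finset.sum_const, Finset.card_range, smul_eq_mul]
    _ ≤ _ := Finset.sum_le_sum hmin

theorem cnt_dyadic (k : ℕ) : (cnt (2 ^ k) (2 ^ (k + 1)) : ℝ) * (k + 1) ≤ 8 * 2 ^ k := by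
  rcases Nat.eq_zero_or_pos k with h0 | hpos
  · subst h0
    have : cnt (2 ^ 0) (2 ^ (0 + 1)) = 1 := by decide
    rw [this]; norm_num
  · have hl2 : 0 < Real.log 2 := Real.log_pos (by norm_num)
    have hk1 : (1 : ℝ) ≤ k := by exact_mod_cast hpos
    have h1 : (cnt (2 ^ k) (2 ^ (k + 1)) : ℝ) * (k * Real.log 2) ≤
        ∑ p ∈ (Ioc (2 ^ k) (2 ^ (k + 1))).filter Nat.Prime, Real.log p := by
      unfold cnt
      rw [← nsmul_eq_mul]
      apply Finset.card_nsmul_le_sum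
      intro p hp
      rw [Finset.mem_filter, Finset.mem_Ioc] at hp
      rw [← Real.log_pow]
      apply Real.log_le_log (by positivity)
      exact_mod_cast hp.1.1.le
    have h2 : ∑ p ∈ (Ioc (2 ^ k) (2 ^ (k + 1))).filter Nat.Prime, Real.log p ≤
        Real.log 4 * 2 ^ (k + 1) := by
      have h3 := Chebyshev.theta_le_log4_mul_x (x := (2 : ℝ) ^ (k + 1)) (by positivity)
      refine le_trans ?_ h3
      rw [Chebyshev.theta_eq_sum_Icc]
      apply Finset.sum_le_sum_of_subset_of_nonneg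
      · intro p hp
        rw [Finset.mem_filter, Finset.mem_Ioc] at hp
        simp only [Finset.mem_filter, Finset.mem_Icc]
        refine ⟨⟨Nat.zero_le _, ?_⟩, hp.2⟩
        apply Nat.le_floor
        exact_mod_cast hp.1.2
      · intro p hp _
        exact Real.log_natCast_nonneg p
    have h4 : Real.log 4 = 2 * Real.log 2 := by
      rw [show (4 : ℝ) = 2 ^ 2 by norm_num, Real.log_pow]; norm_num
    rw [h4] at h2
    have h5 : ((cnt (2 ^ k) (2 ^ (k + 1)) : ℝ) * k) * Real.log 2 ≤ (4 * 2 ^ k) * Real.log 2 := by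
      calc _ = (cnt (2 ^ k) (2 ^ (k + 1)) : ℝ) * (k * Real.log 2) := by ring
        _ ≤ _ := h1.trans h2
        _ = (4 * 2 ^ k) * Real.log 2 := by ring
    have h6 : (cnt (2 ^ k) (2 ^ (k + 1)) : ℝ) * k ≤ 4 * 2 ^ k := le_of_mul_le_mul_right h5 hl2
    have h7 : (0 : ℝ) ≤ cnt (2 ^ k) (2 ^ (k + 1)) := by positivity
    nlinarith

theorem card_pr (m : ℕ) : Set.ncard {n | pr n ≤ m} = Nat.primeCounting m := by
  have h : {n | pr n ≤ m} = (Finset.range (Nat.count Nat.Prime (m + 1)) : Set ℕ) := by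
    ext n
    simp only [Set.mem_ofPred_eq, Finset.coe_range, Set.mem_Iio]
    constructor
    · intro hn
      by_contra hcon
      have := (Nat.count_le_iff_le_nth Nat.infinite_setOfPred_prime).1 (not_lt.1 hcon)
      have h2 : m + 1 ≤ pr n := this
      omega
    · intro hn
      have := Nat.nth_lt_of_lt_count hn
      have h2 : pr n < m + 1 := this
      omega
  rw [h, Set.ncard_coe_finset, Finset.card_range]
  rfl

theorem extreme (G : ℝ → ℝ) (σ₀ : ℝ) (h0 : 0 ≤ σ₀) (h1 : σ₀ < 1) (hpos : ∀ᶠ x in atTop, 1 ≤ G x)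
    (hmono : ∃ x₀, MonotoneOn G (Set.Ici x₀))
    (hgrow : ∀ ε > 0, ∀ᶠ x in atTop, G x ≤ x ^ (σ₀ + ε)) :
    ∃ (q : ℕ → ℝ) (ρ C : ℝ) (E : ℂ → ℂ), StrictMono q ∧ 1 < q 0 ∧ 0 < ρ ∧
      (∀ᶠ n in atTop, |q n - pr n| ≤ 2 * G (2 * pr n)) ∧
      (∀ᶠ x : ℝ in atTop, |(Set.ncard {n | q n ≤ x} : ℝ) - Nat.primeCounting ⌊x⌋₊| ≤
        C * G (2 * x) / Real.log x) ∧
      (∀ σ > σ₀, (fun x : ℝ => (gcount q x : ℝ) - ρ * x) =O[atTop] fun x : ℝ => x ^ σ) ∧
      DifferentiableOn ℂ E {s | σ₀ < s.re} ∧ (∀ s : ℂ, σ₀ < s.re → E s ≠ 0) ∧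
      (∀ s : ℂ, 1 < s.re → HasProd (fun n : ℕ => (1 - (q n : ℂ) ^ (-s))⁻¹) (riemannZeta s * E s)) ∧
      (∀ᶠ x : ℝ in atTop, ∃ n, x ≤ q n ∧ q n ≤ 8 * x ∧ G (q n) ≤ q (n + 1) - q n) := by
  obtain ⟨x₀, hx₀⟩ := hmono
  have hgrow1 := hgrow ((1 - σ₀) / 2) (by linarith)
  have e1 : ∀ᶠ x : ℝ in atTop, 16 * x ^ (σ₀ + (1 - σ₀) / 2) ≤ x ^ (1 : ℝ) := by
    have h2 : σ₀ + (1 - σ₀) / 2 < 1 := by linarith
    have h3 : Tendsto (fun x : ℝ => x ^ (1 - (σ₀ + (1 - σ₀) / 2))) atTop atTop :=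
      tendsto_rpow_atTop (by linarith)
    filter_upwards [h3.eventually_ge_atTop 16, eventually_gt_atTop 0] with x hx hx0
    have h4 : x ^ (1 : ℝ) = x ^ (1 - (σ₀ + (1 - σ₀) / 2)) * x ^ (σ₀ + (1 - σ₀) / 2) := by
      rw [← Real.rpow_add hx0]; ring_nf
    rw [h4]
    exact mul_le_mul_of_nonneg_right hx (by positivity)
  obtain ⟨x₁, hx₁⟩ := (hgrow1.and (e1.and (hpos.and (eventually_ge_atTop x₀)))).exists_forall_of_atTop
  -- the threshold for the blocks
  obtain ⟨k₀, hk₀⟩ : ∃ k₀ : ℕ, max x₁ 1 ≤ (2 : ℝ) ^ k₀ := by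
    obtain ⟨n, hn⟩ := pow_unbounded_of_one_lt (max x₁ 1) (show (1 : ℝ) < 2 by norm_num)
    exact ⟨n, hn.le⟩
  have hk₀' : ∀ k, k₀ ≤ k → x₁ ≤ (2 : ℝ) ^ k := fun k hk =>
    (le_max_left _ _).trans (hk₀.trans (pow_le_pow_right₀ (by norm_num) hk))
  obtain ⟨H, hH⟩ : ∃ H : ℕ → ℕ, H = fun k => ⌈G ((2 : ℝ) ^ (k + 1))⌉₊ := ⟨_, rfl⟩
  have hHge : ∀ k, G ((2 : ℝ) ^ (k + 1)) ≤ H k := fun k => by rw [hH]; exact Nat.le_ceil _
  have hHle : ∀ k, k₀ ≤ k → (H k : ℝ) ≤ 2 * G ((2 : ℝ) ^ (k + 1)) := by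
    intro k hk
    obtain ⟨_, _, h4, _⟩ := hx₁ _ (hk₀' (k + 1) (by omega))
    rw [hH]
    have := (Nat.ceil_lt_add_one (show 0 ≤ G ((2 : ℝ) ^ (k + 1)) by linarith)).le
    linarith
  have hH1 : ∀ k, k₀ ≤ k → 1 ≤ H k := by
    intro k hk
    obtain ⟨_, _, h4, _⟩ := hx₁ _ (hk₀' (k + 1) (by omega))
    have : (1 : ℝ) ≤ H k := h4.trans (hHge k)
    exact_mod_cast this
  have hHsmall : ∀ k, k₀ ≤ k → 4 * (H k : ℝ) ≤ 2 ^ k := by
    intro k hk
    obtain ⟨h2, h3, _, _⟩ := hx₁ _ (hk₀' (k + 1) (by omega))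
    rw [Real.rpow_one] at h3
    have h5 := hHle k hk
    have h6 : (2 : ℝ) ^ (k + 1) = 2 * 2 ^ k := by rw [pow_succ]; ring
    linarith
  have hHsmall' : ∀ k, k₀ ≤ k → 4 * H k ≤ 2 ^ k := fun k hk => by exact_mod_cast hHsmall k hk
  -- number of windows
  have hJ1 : ∀ k, k₀ ≤ k → 1 ≤ 2 ^ k / (2 * H k) := by
    intro k hk
    have h2 := hHsmall' k hk
    have h3 := hH1 k hk
    rw [Nat.le_div_iff_mul_le (by omega)]
    omega
  have hwin : ∀ k, ∃ j, k₀ ≤ k → j < 2 ^ k / (2 * H k) ∧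
      2 ^ k / (2 * H k) * cnt (2 ^ k + 2 * H k * j) (2 ^ k + 2 * H k * (j + 1)) ≤
        cnt (2 ^ k) (2 ^ k + 2 * H k * (2 ^ k / (2 * H k))) := by
    intro k
    by_cases hk : k₀ ≤ k
    · obtain ⟨j, hj1, hj2⟩ := exists_window (2 ^ k) (2 * H k) (2 ^ k / (2 * H k)) (hJ1 k hk)
      exact ⟨j, fun _ => ⟨hj1, hj2⟩⟩
    · exact ⟨0, fun h => absurd h hk⟩
  choose j hj using hwin
  obtain ⟨a, ha⟩ : ∃ a : ℕ → ℕ, a = fun k => 2 ^ k + 2 * H k * j k := ⟨_, rfl⟩
  have haH : ∀ k, a k + 2 * H k = 2 ^ k + 2 * H k * (j k + 1) := fun k => by rw [ha]; ring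
  have hmulle : ∀ k, 2 * H k * (2 ^ k / (2 * H k)) ≤ 2 ^ k := fun k => Nat.mul_div_le _ _
  have Gm : Geo a H k₀ := by
    refine ⟨fun k hk => ?_, fun k hk => ?_, hH1⟩
    · rw [ha]; exact Nat.le_add_right _ _
    · rw [haH k]
      have h2 := (hj k hk).1
      have h3 : 2 * H k * (j k + 1) ≤ 2 * H k * (2 ^ k / (2 * H k)) := Nat.mul_le_mul_left _ h2
      have h4 := hmulle k
      rw [pow_succ]; omega
  -- few primes in the windows
  have hfew : ∀ k, k₀ ≤ k → (cnt (a k) (a k + 2 * H k) : ℝ) * (k + 1) ≤ 32 * H k := by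
    intro k hk
    obtain ⟨h2, h3⟩ := hj k hk
    have h4 : cnt (2 ^ k) (2 ^ k + 2 * H k * (2 ^ k / (2 * H k))) ≤ cnt (2 ^ k) (2 ^ (k + 1)) := by
      apply cnt_mono
      have := hmulle k
      rw [pow_succ]; omega
    have h5 : a k = 2 ^ k + 2 * H k * j k := by rw [ha]
    rw [haH k, h5]
    have h6 : ((2 ^ k / (2 * H k) : ℕ) : ℝ) * cnt (2 ^ k + 2 * H k * j k) (2 ^ k + 2 * H k * (j k + 1)) ≤
        cnt (2 ^ k) (2 ^ (k + 1)) := by exact_mod_cast h3.trans h4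
    have h7 := cnt_dyadic k
    have hH0 : (0 : ℝ) < H k := by exact_mod_cast hH1 k hk
    -- J ≥ 2^k / (4 H)
    have h8 : (2 : ℝ) ^ k ≤ ((2 ^ k / (2 * H k) : ℕ) : ℝ) * (4 * H k) := by
      have h9 : 2 ^ k < 2 * H k * (2 ^ k / (2 * H k) + 1) := by
        have := Nat.lt_mul_div_succ (2 ^ k) (show 0 < 2 * H k by have := hH1 k hk; omega)
        exact this
      have h10 := hJ1 k hk
      have h11 : 2 ^ k ≤ (2 ^ k / (2 * H k)) * (4 * H k) := by
        have : 2 * H k * (2 ^ k / (2 * H k) + 1) ≤ 2 * H k * (2 * (2 ^ k / (2 * H k))) :=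
          Nat.mul_le_mul_left _ (by omega)
        calc 2 ^ k ≤ 2 * H k * (2 * (2 ^ k / (2 * H k))) := h9.le.trans this
          _ = _ := by ring
      exact_mod_cast h11
    obtain ⟨J, hJ⟩ : ∃ J : ℝ, J = ((2 ^ k / (2 * H k) : ℕ) : ℝ) := ⟨_, rfl⟩
    obtain ⟨c, hc⟩ : ∃ c : ℝ, c = cnt (2 ^ k + 2 * H k * j k) (2 ^ k + 2 * H k * (j k + 1)) := ⟨_, rfl⟩
    rw [← hJ] at h6 h8
    rw [← hc] at h6 ⊢
    have hJ0 : 0 < J := by
      rw [hJ]; exact_mod_cast hJ1 k hk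
    have h12 : J * (c * (k + 1)) ≤ J * (32 * H k) := by
      calc J * (c * (k + 1)) = (J * c) * (k + 1) := by ring
        _ ≤ (cnt (2 ^ k) (2 ^ (k + 1)) : ℝ) * (k + 1) :=
            mul_le_mul_of_nonneg_right h6 (by positivity)
        _ ≤ 8 * 2 ^ k := h7
        _ ≤ 8 * (J * (4 * H k)) := mul_le_mul_of_nonneg_left h8 (by norm_num)
        _ = J * (32 * H k) := by ring
    exact le_of_mul_le_mul_left h12 hJ0
  -- the system
  obtain ⟨r, hr⟩ : ∃ r : ℕ → ℝ, r = rw2 a H k₀ := ⟨_, rfl⟩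
  have hrge : ∀ p : ℕ, p.Prime → (p : ℝ) ≤ r p := fun p _ => by rw [hr]; exact le_rw2 p
  obtain ⟨S, hSdef⟩ : ∃ S : Set ℕ, S = {p | Moved a H k₀ p} := ⟨_, rfl⟩
  have hS : ∀ p : ℕ, p.Prime → p ∉ S → r p = p := by
    intro p _ hpS
    rw [hSdef] at hpS
    rw [hr]
    exact rw2_not hpS
  -- summability
  have hsum : ∀ σ : ℝ, σ₀ < σ → Summable fun p : ℕ => S.indicator (fun p => (p : ℝ) ^ (-σ)) p := by
    intro σ hσ
    have hσ0 : 0 < σ := by linarith
    obtain ⟨v, hv⟩ : ∃ v : ℕ → ℝ, v = fun k => if k₀ ≤ k then 2 * (H k : ℝ) * ((2 : ℝ) ^ k) ^ (-σ) else 0 :=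
      ⟨_, rfl⟩
    have hv0 : ∀ k, 0 ≤ v k := by
      intro k; rw [hv]; simp only []; split_ifs <;> positivity
    have hvs : Summable v := by
      have hε : 0 < (σ - σ₀) / 2 := by linarith
      have hg := hgrow _ hε
      obtain ⟨x₂, hx₂⟩ := hg.exists_forall_of_atTop
      obtain ⟨k₂, hk₂⟩ := pow_unbounded_of_one_lt x₂ (show (1 : ℝ) < 2 by norm_num)
      have hgeo : Summable (fun k : ℕ => (4 * 2 ^ (σ₀ + (σ - σ₀) / 2) : ℝ) * ((2 : ℝ) ^ (-((σ - σ₀) / 2))) ^ k) := by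
        apply Summable.mul_left
        apply summable_geometric_of_lt_one (by positivity)
        exact Real.rpow_lt_one_of_one_lt_of_neg (by norm_num) (by linarith)
      apply Summable.of_norm_bounded_eventually_nat hgeo
      filter_upwards [eventually_ge_atTop (max k₀ k₂)] with k hk
      have hkk₀ : k₀ ≤ k := (le_max_left _ _).trans hk
      have hkk₂ : k₂ ≤ k := (le_max_right _ _).trans hk
      rw [Real.norm_eq_abs, abs_of_nonneg (hv0 k), hv]
      simp only [hkk₀, if_true]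
      have h2 := hHle k hkk₀
      have h3 : G ((2 : ℝ) ^ (k + 1)) ≤ ((2 : ℝ) ^ (k + 1)) ^ (σ₀ + (σ - σ₀) / 2) :=
        hx₂ _ (hk₂.le.trans (pow_le_pow_right₀ (by norm_num) (by omega)))
      have h4 : ((2 : ℝ) ^ (k + 1)) ^ (σ₀ + (σ - σ₀) / 2) =
          2 ^ (σ₀ + (σ - σ₀) / 2) * ((2 : ℝ) ^ k) ^ (σ₀ + (σ - σ₀) / 2) := by
        rw [pow_succ, mul_comm, Real.mul_rpow (by norm_num) (by positivity)]
      have h5 : ((2 : ℝ) ^ k) ^ (σ₀ + (σ - σ₀) / 2) * ((2 : ℝ) ^ k) ^ (-σ) =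
          ((2 : ℝ) ^ (-((σ - σ₀) / 2))) ^ k := by
        rw [← Real.rpow_add (by positivity), ← Real.rpow_natCast (2 : ℝ) k, ← Real.rpow_mul (by norm_num),
          ← Real.rpow_natCast _ k, ← Real.rpow_mul (by norm_num)]
        congr 1; ring
      calc 2 * (H k : ℝ) * ((2 : ℝ) ^ k) ^ (-σ)
          ≤ 2 * (2 * (2 ^ (σ₀ + (σ - σ₀) / 2) * ((2 : ℝ) ^ k) ^ (σ₀ + (σ - σ₀) / 2))) *
            ((2 : ℝ) ^ k) ^ (-σ) := by
            apply mul_le_mul_of_nonneg_right _ (by positivity)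
            rw [← h4]
            linarith
        _ = 4 * 2 ^ (σ₀ + (σ - σ₀) / 2) *
            (((2 : ℝ) ^ k) ^ (σ₀ + (σ - σ₀) / 2) * ((2 : ℝ) ^ k) ^ (-σ)) := by ring
        _ = _ := by rw [h5]
    have hind0 : ∀ p : ℕ, 0 ≤ S.indicator (fun p : ℕ => (p : ℝ) ^ (-σ)) p := fun p =>
      Set.indicator_nonneg (fun p _ => by positivity) p
    apply summable_of_sum_le (c := ∑' k, v k) hind0
    intro u
    have hmaps : ∀ p ∈ u, Nat.log 2 p ∈ u.image (Nat.log 2) := fun p hp =>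
      Finset.mem_image_of_mem _ hp
    rw [← Finset.sum_fiberwise_of_maps_to hmaps]
    refine (Finset.sum_le_sum ?_).trans (hvs.sum_le_tsum _ (fun k _ => hv0 k))
    intro k _
    -- the sum over one dyadic block
    classical
    have hterm : ∀ p ∈ u.filter (fun p => Nat.log 2 p = k),
        S.indicator (fun p : ℕ => (p : ℝ) ^ (-σ)) p ≤
          if k₀ ≤ k ∧ p ∈ Ioc (a k) (a k + 2 * H k) then ((2 : ℝ) ^ k) ^ (-σ) else 0 := by
      intro p hp
      rw [Finset.mem_filter] at hp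
      by_cases hpS : p ∈ S
      · rw [Set.indicator_of_mem hpS]
        have hm : Moved a H k₀ p := by rw [hSdef] at hpS; exact hpS
        unfold Moved at hm
        rw [hp.2] at hm
        rw [if_pos ⟨hm.1, Finset.mem_Ioc.2 hm.2⟩]
        apply Real.rpow_le_rpow_of_nonpos (by positivity) _ (by linarith)
        have hp0 : p ≠ 0 := by omega
        have := Nat.pow_log_le_self 2 hp0
        rw [hp.2] at this
        exact_mod_cast this
      · rw [Set.indicator_of_notMem hpS]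
        split_ifs <;> positivity
    refine (Finset.sum_le_sum hterm).trans ?_
    rw [hv]
    simp only []
    split_ifs with hk
    · simp only [hk, true_and]
      rw [← Finset.sum_filter, Finset.sum_const, nsmul_eq_mul]
      apply mul_le_mul_of_nonneg_right _ (by positivity)
      have hcard : (((u.filter (fun p => Nat.log 2 p = k)).filter (fun p => p ∈ Ioc (a k) (a k + 2 * H k))).card) ≤
          (Ioc (a k) (a k + 2 * H k)).card := by
        apply Finset.card_le_card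
        intro p hp
        exact (Finset.mem_filter.1 hp).2
      rw [Nat.card_Ioc] at hcard
      have : a k + 2 * H k - a k = 2 * H k := by omega
      rw [this] at hcard
      exact_mod_cast hcard
    · simp only [hk, false_and, if_false, Finset.sum_const_zero]
      exact le_rfl
  -- the density
  obtain ⟨E, hE1, hE2, hE3⟩ := zeta_factor hrge S hS h0 h1.le hsum
  refine ⟨fun n => r (pr n), Real.exp (∑' p : ℕ, if p.Prime then Real.log (dens r p) else 0), 64, E,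
    ?_, ?_, Real.exp_pos _, ?_, ?_, ?_, hE1, hE2, hE3, ?_⟩
  · intro n m hnm
    rw [hr]
    exact rw2_lt Gm (pr_prime n).one_le (pr_strictMono hnm)
  · have h2 := hrge _ (pr_prime 0)
    have h3 : (1 : ℝ) < pr 0 := by exact_mod_cast (pr_prime 0).one_lt
    linarith
  · -- closeness
    have hprt : Tendsto (fun n => (pr n : ℝ)) atTop atTop :=
      tendsto_natCast_atTop_atTop.comp pr_strictMono.tendsto_atTop
    filter_upwards [hprt.eventually_ge_atTop (max x₁ 0)] with n hn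
    have hn1 : x₁ ≤ pr n := (le_max_left _ _).trans hn
    have hn0 : (0 : ℝ) ≤ pr n := (le_max_right _ _).trans hn
    obtain ⟨_, _, h4, h5⟩ := hx₁ (2 * pr n) (by linarith)
    rw [hr]
    by_cases hm : Moved a H k₀ (pr n)
    · refine (moved_sub hm).trans ((hHle _ hm.1).trans ?_)
      have h6 : (2 : ℝ) ^ (Nat.log 2 (pr n) + 1) ≤ 2 * pr n := by
        have := Nat.pow_log_le_self 2 (pr_prime n).ne_zero
        have h7 : (2 : ℝ) ^ (Nat.log 2 (pr n)) ≤ pr n := by exact_mod_cast this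
        rw [pow_succ]; linarith
      have h7 : x₀ ≤ (2 : ℝ) ^ (Nat.log 2 (pr n) + 1) :=
        (hx₁ _ (hk₀' _ (by have := hm.1; omega))).2.2.2
      have := hx₀ (Set.mem_Ici.2 h7) (Set.mem_Ici.2 h5) h6
      linarith
    · rw [rw2_not hm, sub_self, abs_zero]; linarith
  · -- counting function of the primes
    filter_upwards [eventually_ge_atTop (max x₁ 3)] with x hx
    have hxx₁ : x₁ ≤ x := (le_max_left _ _).trans hx
    have hx3 : 3 ≤ x := (le_max_right _ _).trans hx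
    have hG1 := (hx₁ (2 * x) (by linarith)).2.2.1
    have hx₀2 := (hx₁ (2 * x) (by linarith)).2.2.2
    obtain ⟨hc1, hc2⟩ := count_diff Gm (x := x) (by linarith)
    have hlog : 0 < Real.log x := Real.log_pos (by linarith)
    have hcnt : (Set.ncard {n | (pr n : ℝ) ≤ x} : ℝ) = Nat.primeCounting ⌊x⌋₊ := by
      rw [← card_pr]
      congr 2
      ext n
      simp only [Set.mem_ofPred_eq]
      exact (Nat.le_floor_iff (by linarith)).symm
    rw [hr, ← hcnt, abs_sub_comm, abs_of_nonneg (by linarith)]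
    rcases hc2 with hc2 | ⟨hk, hc2⟩
    · refine hc2.trans ?_
      positivity
    · refine hc2.trans ?_
      obtain ⟨k, hkdef⟩ : ∃ k, k = Nat.log 2 ⌊x⌋₊ := ⟨_, rfl⟩
      rw [← hkdef] at hk ⊢
      have hf := hfew k hk
      have hf0 : ⌊x⌋₊ ≠ 0 := by
        have := (Nat.one_le_floor_iff x).2 (by linarith)
        omega
      have h6 : (2 : ℝ) ^ (k + 1) ≤ 2 * x := by
        have h7 := Nat.pow_log_le_self 2 hf0
        rw [← hkdef] at h7
        have h8 : (2 : ℝ) ^ k ≤ ⌊x⌋₊ := by exact_mod_cast h7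
        have h9 := Nat.floor_le (show 0 ≤ x by linarith)
        rw [pow_succ]; linarith
      have h7 : x₀ ≤ (2 : ℝ) ^ (k + 1) := (hx₁ _ (hk₀' _ (by omega))).2.2.2
      have h8 := hx₀ (Set.mem_Ici.2 h7) (Set.mem_Ici.2 hx₀2) h6
      have h9 := hHle k hk
      have h10 : Real.log x ≤ k + 1 := by
        have h11 : ⌊x⌋₊ < 2 ^ (k + 1) := by
          rw [hkdef]; exact Nat.lt_pow_succ_log_self (by norm_num) _
        have h12 : x < 2 ^ (k + 1) := by
          have h13 : ⌊x⌋₊ + 1 ≤ 2 ^ (k + 1) := h11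
          have h14 : ((⌊x⌋₊ : ℝ) + 1) ≤ 2 ^ (k + 1) := by exact_mod_cast h13
          linarith [Nat.lt_floor_add_one x]
        calc Real.log x ≤ Real.log ((2 : ℝ) ^ (k + 1)) := Real.log_le_log (by linarith) h12.le
          _ = (k + 1) * Real.log 2 := by rw [Real.log_pow]; push_cast; ring
          _ ≤ (k + 1) * 1 := by
              apply mul_le_mul_of_nonneg_left _ (by positivity)
              linarith [Real.log_two_lt_d9]
          _ = k + 1 := mul_one _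
      rw [le_div_iff₀ hlog]
      have h11 : (0 : ℝ) ≤ cnt (a k) (a k + 2 * H k) := by positivity
      calc (cnt (a k) (a k + 2 * H k) : ℝ) * Real.log x ≤ cnt (a k) (a k + 2 * H k) * (k + 1) :=
            mul_le_mul_of_nonneg_left h10 h11
        _ ≤ 32 * H k := hf
        _ ≤ 64 * G (2 * x) := by linarith
  · -- counting function of the integers
    intro σ hσ
    obtain ⟨σ', hσ'1, hσ'2⟩ : ∃ σ' : ℝ, σ₀ < σ' ∧ σ' ≤ 1 ∧ σ' ≤ σ := by
      refine ⟨min σ 1, lt_min hσ h1, min_le_right _ _, min_le_left _ _⟩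
    obtain ⟨C, hC⟩ := thin hrge S hS (by linarith : 0 < σ') hσ'2.1 (hsum σ' hσ'1)
    rw [isBigO_iff]
    refine ⟨|C|, ?_⟩
    filter_upwards [eventually_ge_atTop 1] with x hx
    rw [gcount_eq, Real.norm_eq_abs, Real.norm_eq_abs, abs_of_nonneg (show 0 ≤ x ^ σ by positivity)]
    refine (hC x hx).trans ?_
    have h3 : x ^ σ' ≤ x ^ σ := Real.rpow_le_rpow_of_exponent_le hx hσ'2.2
    calc C * x ^ σ' ≤ |C| * x ^ σ' := mul_le_mul_of_nonneg_right (le_abs_self C) (by positivity)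
      _ ≤ |C| * x ^ σ := mul_le_mul_of_nonneg_left h3 (abs_nonneg C)
  · -- the gaps
    filter_upwards [eventually_ge_atTop (max x₁ ((2 : ℝ) ^ k₀)), eventually_ge_atTop 1] with x hx hx1
    obtain ⟨m, hm1, hm2⟩ := exists_nat_pow_near hx1 (show (1 : ℝ) < 2 by norm_num)
    have hk : k₀ ≤ m + 2 := by
      have h2 : (2 : ℝ) ^ k₀ < 2 ^ (m + 1) := lt_of_le_of_lt ((le_max_right _ _).trans hx) hm2
      have h3 := (pow_lt_pow_iff_right₀ (show (1 : ℝ) < 2 by norm_num)).1 h2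
      omega
    obtain ⟨n, hn1, hn2, hn3⟩ := exists_large Gm hk (by omega)
    have e : m + 2 - 1 = m + 1 := by omega
    rw [e] at hn2
    rw [hr]
    have hle : rw2 a H k₀ (pr n) ≤ 2 ^ (m + 2 + 1) := by
      have h4 := Gm.right _ hk
      have h5 : (a (m + 2) : ℝ) ≤ 2 ^ (m + 2 + 1) := by
        exact_mod_cast (by omega : a (m + 2) ≤ 2 ^ (m + 2 + 1))
      exact hn1.trans h5
    have hge : x ≤ rw2 a H k₀ (pr n) := hm2.le.trans hn2
    refine ⟨n, hge, ?_, ?_⟩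
    · refine hle.trans ?_
      rw [pow_succ, pow_succ, pow_succ]
      linarith
    · refine le_trans ?_ hn3
      refine le_trans ?_ (hHge (m + 2))
      have hxx₁ : x₁ ≤ x := (le_max_left _ _).trans hx
      have hx₀x : x₀ ≤ x := (hx₁ x hxx₁).2.2.2
      apply hx₀ (Set.mem_Ici.2 (hx₀x.trans hge)) (Set.mem_Ici.2 ((hx₀x.trans hge).trans hle)) hle

end Pool.Agent.KS6_1.Beu.Win
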