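import Mathlib
import Pool.Agent.KS6_1.Beurling.Stab

set_option autoImplicit false

namespace Pool.Agent.KS6_1.Beu

open Finset Filter Asymptotics

/-- **Stability theorem.** If `|r p - p| ≤ C p ^ θ` with `θ < 1`, then the integers generated by
the `r p` have a density, with error term `x exp (- c √(log x log log x))`. -/
theorem stability {r : ℕ → ℝ} {θ : ℝ} (h : Close r θ) (hθ : θ < 1) :
    ∃ ρ : ℝ, 0 < ρ ∧ ∃ c : ℝ, 0 < c ∧
      (fun x : ℝ => N r x - ρ * x) =O[atTop]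
        (fun x : ℝ => x * Real.exp (-c * Real.sqrt (Real.log x * Real.log (Real.log x)))) := by
  obtain ⟨ρ, hρ, C, hC, H⟩ := stab_bound h hθ
  have ha : 0 < (1 - θ) / 2 := by linarith
  refine ⟨ρ, hρ, min (1 / 8) ((1 - θ) / 2), lt_min (by norm_num) ha, ?_⟩
  -- eventual facts in L
  have f1 : ∀ᶠ L : ℝ in atTop, 552 * C ≤ L ^ ((1 : ℝ) / 8) :=
    (tendsto_rpow_atTop (by norm_num)).eventually_ge_atTop _
  have f2 : ∀ᶠ L : ℝ in atTop, L ≤ Real.exp ((1 - θ) / 2 * Real.sqrt L) := by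
    have h1 := (isLittleO_pow_exp_pos_mul_atTop (k := 2) ha).bound (c := 1) one_pos
    have h2 : Tendsto Real.sqrt atTop atTop := Real.tendsto_sqrt_atTop
    filter_upwards [h2.eventually h1, eventually_ge_atTop 0] with L hL hL0
    simp only [Real.norm_eq_abs, one_mul] at hL
    rw [Real.sq_sqrt hL0, abs_of_nonneg hL0, abs_of_pos (Real.exp_pos _)] at hL
    exact hL
  have f3 : ∀ᶠ L : ℝ in atTop, C ≤ Real.exp ((1 - θ) / 2 * Real.sqrt L) := by
    have h2 : Tendsto (fun L => Real.exp ((1 - θ) / 2 * Real.sqrt L)) atTop atTop :=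
      Real.tendsto_exp_atTop.comp ((Real.tendsto_sqrt_atTop).const_mul_atTop ha)
    exact h2.eventually_ge_atTop _
  have f4 : ∀ᶠ L : ℝ in atTop, 3 ≤ L := eventually_ge_atTop _
  have hev := Real.tendsto_log_atTop.eventually (f1.and (f2.and (f3.and f4)))
  rw [isBigO_iff]
  refine ⟨3 * C, ?_⟩
  filter_upwards [hev, eventually_ge_atTop 1] with x hx hx1
  obtain ⟨g1, g2, g3, g4⟩ := hx
  obtain ⟨L, hL⟩ : ∃ L : ℝ, L = Real.log x := ⟨_, rfl⟩
  rw [← hL] at g1 g2 g3 g4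
  have hx0 : 0 < x := by linarith
  have hL0 : 0 < L := by linarith
  have hlogL1 : 1 ≤ Real.log L := by
    rw [Real.le_log_iff_exp_le hL0]
    linarith [Real.exp_one_lt_d9]
  have hlogLL : Real.log L ≤ L := (Real.log_le_sub_one_of_pos hL0).trans (by linarith)
  obtain ⟨z, hz⟩ : ∃ z : ℝ, z = Real.sqrt (L * Real.log L) := ⟨_, rfl⟩
  have hzsq : z * z = L * Real.log L := by rw [hz]; exact Real.mul_self_sqrt (by positivity)
  have hz0 : 0 ≤ z := by rw [hz]; exact Real.sqrt_nonneg _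
  have hsz : Real.sqrt L ≤ z := by
    rw [hz]; exact Real.sqrt_le_sqrt (by nlinarith)
  have hzL : z ≤ L := by
    rw [hz]
    calc Real.sqrt (L * Real.log L) ≤ Real.sqrt (L * L) := Real.sqrt_le_sqrt (by nlinarith)
      _ = L := Real.sqrt_mul_self hL0.le
  have hs1 : 1 ≤ Real.sqrt L := by
    rw [Real.one_le_sqrt]; linarith
  have hz1 : 1 ≤ z := hs1.trans hsz
  -- Y
  obtain ⟨Y, hY⟩ : ∃ Y : ℕ, Y = ⌊Real.exp z⌋₊ := ⟨_, rfl⟩
  have hY1 : (Y : ℝ) ≤ Real.exp z := by rw [hY]; exact Nat.floor_le (Real.exp_pos _).le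
  have hY2 : Real.exp z < (Y : ℝ) + 1 := by rw [hY]; exact Nat.lt_floor_add_one _
  have hexp2 : (2 : ℝ) ≤ Real.exp z := by
    linarith [Real.add_one_le_exp z]
  have hY3 : 2 ≤ Y := by
    rw [hY]; exact Nat.le_floor (by exact_mod_cast hexp2)
  have hY0 : (0 : ℝ) < Y := by exact_mod_cast (by omega : 0 < Y)
  have hY2' : (2 : ℝ) ≤ Y := by exact_mod_cast hY3
  -- σ
  obtain ⟨σ, hσ⟩ : ∃ σ : ℝ, σ = 1 - z / (4 * L) := ⟨_, rfl⟩
  have hq1 : z / (4 * L) ≤ 1 / 4 := by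
    rw [div_le_div_iff₀ (by positivity) (by norm_num)]; linarith
  have hq0 : 0 ≤ z / (4 * L) := by positivity
  have hσ1 : σ ≤ 1 := by linarith
  have hσ2 : 1 / 2 ≤ σ := by linarith
  -- bounds of powers of Y+1
  have hW : ((Y : ℝ) + 1) ^ (θ - 1) ≤ Real.exp (-(1 - θ) * z) := by
    calc ((Y : ℝ) + 1) ^ (θ - 1) ≤ (Real.exp z) ^ (θ - 1) :=
          Real.rpow_le_rpow_of_nonpos (Real.exp_pos _) hY2.le (by linarith)
      _ = Real.exp (-(1 - θ) * z) := by rw [← Real.exp_mul]; congr 1; ring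
  have hV : ((Y : ℝ) + 1) ^ (-(1 - θ) / 2) ≤ Real.exp (-((1 - θ) / 2) * z) := by
    calc ((Y : ℝ) + 1) ^ (-(1 - θ) / 2) ≤ (Real.exp z) ^ (-(1 - θ) / 2) :=
          Real.rpow_le_rpow_of_nonpos (Real.exp_pos _) hY2.le (by linarith)
      _ = Real.exp (-((1 - θ) / 2) * z) := by rw [← Real.exp_mul]; congr 1; ring
  have hLexp : L ≤ Real.exp ((1 - θ) / 2 * z) :=
    g2.trans (Real.exp_le_exp.2 (mul_le_mul_of_nonneg_left hsz ha.le))
  have hCexp : C ≤ Real.exp ((1 - θ) / 2 * z) :=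
    g3.trans (Real.exp_le_exp.2 (mul_le_mul_of_nonneg_left hsz ha.le))
  have hWL : ((Y : ℝ) + 1) ^ (θ - 1) * L ≤ Real.exp (-((1 - θ) / 2) * z) := by
    calc ((Y : ℝ) + 1) ^ (θ - 1) * L ≤ Real.exp (-(1 - θ) * z) * Real.exp ((1 - θ) / 2 * z) :=
          mul_le_mul hW hLexp hL0.le (Real.exp_pos _).le
      _ = Real.exp (-((1 - θ) / 2) * z) := by rw [← Real.exp_add]; congr 1; ring
  have hcond : C * ((Y : ℝ) + 1) ^ (θ - 1) * Real.log x ≤ 1 := by
    rw [← hL]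
    calc C * ((Y : ℝ) + 1) ^ (θ - 1) * L = C * (((Y : ℝ) + 1) ^ (θ - 1) * L) := by ring
      _ ≤ Real.exp ((1 - θ) / 2 * z) * Real.exp (-((1 - θ) / 2) * z) :=
          mul_le_mul hCexp hWL (by positivity) (Real.exp_pos _).le
      _ = 1 := by rw [← Real.exp_add]; simp
  have hmain := H Y hY3 σ hσ2 hσ1 x hx1 hcond
  rw [← hL] at hmain
  -- the error product
  have hYpow : (Y : ℝ) ^ (1 - σ) ≤ L ^ ((1 : ℝ) / 4) := by
    calc (Y : ℝ) ^ (1 - σ) ≤ (Real.exp z) ^ (1 - σ) :=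
          Real.rpow_le_rpow hY0.le hY1 (by linarith)
      _ = Real.exp (z * (z / (4 * L))) := by
          rw [← Real.exp_mul]; congr 1; rw [hσ]; ring
      _ = Real.exp (Real.log L * (1 / 4)) := by
          congr 1
          have : z * (z / (4 * L)) = (z * z) / (4 * L) := by ring
          rw [this, hzsq]; field_simp
      _ = L ^ ((1 : ℝ) / 4) := by rw [Real.rpow_def_of_pos hL0]
  have hlog2 : Real.log (2 * Real.log Y) ≤ 16 * L ^ ((1 : ℝ) / 8) := by
    have hlY : Real.log Y ≤ L := by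
      calc Real.log Y ≤ Real.log (Real.exp z) := Real.log_le_log hY0 hY1
        _ = z := Real.log_exp z
        _ ≤ L := hzL
    have hlY0 : 0 < Real.log Y := Real.log_pos (by linarith)
    calc Real.log (2 * Real.log Y) ≤ Real.log (2 * L) :=
          Real.log_le_log (by positivity) (by linarith)
      _ ≤ (2 * L) ^ ((1 : ℝ) / 8) / (1 / 8) := Real.log_le_rpow_div (by positivity) (by norm_num)
      _ = 8 * (2 * L) ^ ((1 : ℝ) / 8) := by ring
      _ = 8 * ((2 : ℝ) ^ ((1 : ℝ) / 8) * L ^ ((1 : ℝ) / 8)) := by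
          rw [Real.mul_rpow (by norm_num) hL0.le]
      _ ≤ 8 * (2 * L ^ ((1 : ℝ) / 8)) := by
          have : (2 : ℝ) ^ ((1 : ℝ) / 8) ≤ 2 := by
            calc (2 : ℝ) ^ ((1 : ℝ) / 8) ≤ 2 ^ (1 : ℝ) :=
                  Real.rpow_le_rpow_of_exponent_le (by norm_num) (by norm_num)
              _ = 2 := Real.rpow_one _
          have h0 : 0 ≤ L ^ ((1 : ℝ) / 8) := by positivity
          nlinarith
      _ = 16 * L ^ ((1 : ℝ) / 8) := by ring
  have hL8 : 1 ≤ L ^ ((1 : ℝ) / 8) := Real.one_le_rpow (by linarith) (by norm_num)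
  have hE : C * ((Y : ℝ) ^ (1 - σ) * (5 + 4 * Real.log (2 * Real.log Y))) ≤ z / 8 := by
    have h5 : 0 ≤ 5 + 4 * Real.log (2 * Real.log Y) := by
      have : 0 ≤ ∑ p ∈ PS Y, (1 : ℝ) / p := Finset.sum_nonneg (fun p _ => by positivity)
      have := sum_inv_le Y hY3
      linarith
    have h6 : 5 + 4 * Real.log (2 * Real.log Y) ≤ 69 * L ^ ((1 : ℝ) / 8) := by linarith
    calc C * ((Y : ℝ) ^ (1 - σ) * (5 + 4 * Real.log (2 * Real.log Y)))
        ≤ C * (L ^ ((1 : ℝ) / 4) * (69 * L ^ ((1 : ℝ) / 8))) := by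
          apply mul_le_mul_of_nonneg_left _ hC.le
          exact mul_le_mul hYpow h6 h5 (by positivity)
      _ = (552 * C) * (L ^ ((1 : ℝ) / 4) * L ^ ((1 : ℝ) / 8)) / 8 := by ring
      _ ≤ L ^ ((1 : ℝ) / 8) * (L ^ ((1 : ℝ) / 4) * L ^ ((1 : ℝ) / 8)) / 8 := by
          apply div_le_div_of_nonneg_right _ (by norm_num)
          exact mul_le_mul_of_nonneg_right g1 (by positivity)
      _ = Real.sqrt L / 8 := by
          rw [← Real.rpow_add hL0, ← Real.rpow_add hL0, Real.sqrt_eq_rpow]; norm_num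
      _ ≤ z / 8 := by linarith
  have hxσ : x ^ σ = x * Real.exp (-z / 4) := by
    rw [Real.rpow_def_of_pos hx0, ← hL]
    have : L * σ = L + -z / 4 := by rw [hσ]; field_simp; ring
    rw [this, Real.exp_add, hL, Real.exp_log hx0]
  have hEx : Real.exp (C * ((Y : ℝ) ^ (1 - σ) * (5 + 4 * Real.log (2 * Real.log Y)))) * x ^ σ ≤
      x * Real.exp (-z / 8) := by
    rw [hxσ]
    calc _ ≤ Real.exp (z / 8) * (x * Real.exp (-z / 4)) :=
          mul_le_mul_of_nonneg_right (Real.exp_le_exp.2 hE) (by positivity)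
      _ = x * (Real.exp (z / 8) * Real.exp (-z / 4)) := by ring
      _ = x * Real.exp (-z / 8) := by rw [← Real.exp_add]; congr 2; ring
  -- conclusion
  have hc1 : Real.exp (-z / 8) ≤ Real.exp (-(min (1 / 8) ((1 - θ) / 2)) * z) := by
    apply Real.exp_le_exp.2
    have := mul_le_mul_of_nonneg_right (min_le_left (1 / 8) ((1 - θ) / 2)) hz0
    linarith
  have hc2 : Real.exp (-((1 - θ) / 2) * z) ≤ Real.exp (-(min (1 / 8) ((1 - θ) / 2)) * z) := by
    apply Real.exp_le_exp.2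
    have := mul_le_mul_of_nonneg_right (min_le_right (1 / 8) ((1 - θ) / 2)) hz0
    linarith
  rw [← hL, ← hz, Real.norm_eq_abs, Real.norm_eq_abs,
    abs_of_nonneg (show 0 ≤ x * Real.exp (-(min (1 / 8) ((1 - θ) / 2)) * z) by positivity)]
  refine hmain.trans ?_
  obtain ⟨T, hT⟩ : ∃ T : ℝ, T = Real.exp (-(min (1 / 8) ((1 - θ) / 2)) * z) := ⟨_, rfl⟩
  rw [← hT] at hc1 hc2 ⊢
  have q1 : x * (((Y : ℝ) + 1) ^ (θ - 1) * L) ≤ x * T :=
    mul_le_mul_of_nonneg_left (hWL.trans hc2) hx0.le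
  have q2 : x * ((Y : ℝ) + 1) ^ (-(1 - θ) / 2) ≤ x * T :=
    mul_le_mul_of_nonneg_left (hV.trans hc2) hx0.le
  have q3 := hEx.trans (mul_le_mul_of_nonneg_left hc1 hx0.le)
  calc _ ≤ C * (x * T + x * T + x * T) := by
        apply mul_le_mul_of_nonneg_left _ hC.le
        linarith
    _ = 3 * C * (x * T) := by ring

end Pool.Agent.KS6_1.Beu
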