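import Mathlib
import Pool.Agent.KS6_1.Beurling.Constr
import Pool.Agent.KS6_1.Beurling.Stability
import Pool.Graph.R_seed8.H295R3.Hoheisel

set_option autoImplicit false

namespace Pool.Agent.KS6_1.Beu

open Finset Filter Asymptotics

/-- the block boundaries -/
noncomputable def bb (X : ℕ) (τ : ℝ) : ℕ → ℕ
  | 0 => X
  | (k + 1) => bb X τ k + ⌈((bb X τ k : ℕ) : ℝ) ^ τ⌉₊

theorem bb_ge (X : ℕ) (τ : ℝ) (k : ℕ) : X ≤ bb X τ k := by
  induction k with
  | zero => exact le_rfl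
  | succ k ih => exact ih.trans (Nat.le_add_right _ _)

theorem bb_strictMono {X : ℕ} (hX : 1 ≤ X) (τ : ℝ) : StrictMono (bb X τ) := by
  apply strictMono_nat_of_lt_succ
  intro k
  have h1 : 1 ≤ bb X τ k := hX.trans (bb_ge X τ k)
  have h2 : (0 : ℝ) < bb X τ k := by exact_mod_cast h1
  have h3 : 0 < ⌈((bb X τ k : ℕ) : ℝ) ^ τ⌉₊ := Nat.ceil_pos.2 (by positivity)
  show bb X τ k < bb X τ k + ⌈((bb X τ k : ℕ) : ℝ) ^ τ⌉₊
  omega

theorem eventually_two_rpow_le {a b : ℝ} (hab : a < b) (C : ℝ) :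
    ∀ᶠ x : ℝ in atTop, C * x ^ a ≤ x ^ b := by
  have h1 : Tendsto (fun x : ℝ => x ^ (b - a)) atTop atTop := tendsto_rpow_atTop (by linarith)
  filter_upwards [h1.eventually_ge_atTop C, eventually_gt_atTop 0] with x hx hx0
  have h3 : x ^ b = x ^ (b - a) * x ^ a := by rw [← Real.rpow_add hx0]; ring_nf
  rw [h3]
  exact mul_le_mul_of_nonneg_right hx (by positivity)

theorem orders (g : ℝ → ℝ) (θ₁ : ℝ) (hθ₁ : θ₁ < 1) (hpos : ∀ᶠ x in atTop, 0 ≤ g x)
    (hmono : ∃ x₀, MonotoneOn g (Set.Ici x₀)) (hle : ∀ᶠ x in atTop, g x ≤ x ^ θ₁)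
    (hreg : ∀ ε > 0, ∃ δ > 0, ∀ᶠ x in atTop, g ((1 + δ) * x) ≤ (1 + ε) * g x) :
    ∃ (q : ℕ → ℝ) (θ ρ c A : ℝ), StrictMono q ∧ 1 < q 0 ∧ θ < 1 ∧ 0 < ρ ∧ 0 < c ∧
      (∀ n, |q n - pr n| ≤ (pr n : ℝ) ^ θ) ∧
      ((fun x : ℝ => (gcount q x : ℝ) - ρ * x) =O[atTop]
        fun x : ℝ => x * Real.exp (-c * Real.sqrt (Real.log x * Real.log (Real.log x)))) ∧
      (∀ᶠ n in atTop, q (n + 1) - q n ≤ g (q n) + A * Real.log (q n)) ∧
      (∀ ε > 0, ∀ᶠ x : ℝ in atTop, ∃ n, q (n + 1) ≤ x ∧ (1 - ε) * g x ≤ q (n + 1) - q n) := by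
  obtain ⟨δH, η, hδ0, hδ1, hη, X₀, hX₀, hHoh⟩ := Pool.Agent.H295R3.D.hoheisel
  obtain ⟨x₀, hx₀⟩ := hmono
  -- exponents
  obtain ⟨τ, hτ1, hτ2, hτ3, hτ4⟩ : ∃ τ : ℝ, τ < 1 ∧ 0 < τ ∧ θ₁ < τ ∧ 1 - δH ≤ τ := by
    refine ⟨max (1 - δH) ((max θ₁ 0 + 1) / 2), ?_, ?_, ?_, le_max_left _ _⟩
    · apply max_lt (by linarith)
      have : max θ₁ 0 < 1 := max_lt hθ₁ one_pos
      linarith
    · apply lt_max_of_lt_right
      have : 0 ≤ max θ₁ 0 := le_max_right _ _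
      linarith
    · apply lt_max_of_lt_right
      have h1 : max θ₁ 0 < 1 := max_lt hθ₁ one_pos
      have h2 : θ₁ ≤ max θ₁ 0 := le_max_left _ _
      linarith
  obtain ⟨θ, hθτ, hθ1⟩ : ∃ θ : ℝ, τ < θ ∧ θ < 1 := ⟨(τ + 1) / 2, by linarith, by linarith⟩
  -- the threshold
  have e1 : ∀ᶠ x : ℝ in atTop, 2 * x ^ τ ≤ x ^ θ := eventually_two_rpow_le hθτ 2
  have e2 : ∀ᶠ x : ℝ in atTop, 2 * x ^ θ₁ ≤ x ^ τ := eventually_two_rpow_le hτ3 2
  have e3 : ∀ᶠ x : ℝ in atTop, 2 * x ^ τ ≤ x ^ (1 : ℝ) := eventually_two_rpow_le hτ1 2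
  obtain ⟨x₁, hx₁⟩ := (e1.and (e2.and (e3.and (hpos.and (hle.and (eventually_ge_atTop 2)))))).exists_forall_of_atTop
  obtain ⟨X, hXdef⟩ : ∃ X : ℕ, X = max X₀ (max 2 ⌈max x₀ x₁⌉₊) := ⟨_, rfl⟩
  have hXX₀ : X₀ ≤ X := by rw [hXdef]; exact le_max_left _ _
  have hX2 : 2 ≤ X := by rw [hXdef]; exact (le_max_left _ _).trans (le_max_right _ _)
  have hXx : max x₀ x₁ ≤ X := by
    have h1 : ⌈max x₀ x₁⌉₊ ≤ X := by rw [hXdef]; exact (le_max_right _ _).trans (le_max_right _ _)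
    exact (Nat.le_ceil _).trans (by exact_mod_cast h1)
  have hXx₀ : x₀ ≤ X := (le_max_left _ _).trans hXx
  have hXx₁ : x₁ ≤ X := (le_max_right _ _).trans hXx
  -- blocks
  obtain ⟨b, hb⟩ : ∃ b : ℕ → ℕ, b = bb X τ := ⟨_, rfl⟩
  have hbX : ∀ k, X ≤ b k := fun k => by rw [hb]; exact bb_ge X τ k
  have hbXr : ∀ k, (X : ℝ) ≤ b k := fun k => by exact_mod_cast hbX k
  have hb0 : b 0 = X := by rw [hb]; rfl
  have hbm : StrictMono b := by rw [hb]; exact bb_strictMono (by omega) τ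
  have hbs : ∀ k, b (k + 1) = b k + ⌈((b k : ℕ) : ℝ) ^ τ⌉₊ := fun k => by rw [hb]; rfl
  have hbpos : ∀ k, (0 : ℝ) < b k := fun k => by
    have := hbX k
    exact_mod_cast (by omega : 0 < b k)
  have hb1 : ∀ k, (1 : ℝ) ≤ b k := fun k => by
    have := hbX k
    exact_mod_cast (by omega : 1 ≤ b k)
  have hLlow : ∀ k, (b k : ℝ) ^ τ ≤ (b (k + 1) : ℝ) - b k := by
    intro k
    rw [hbs k]; push_cast
    linarith [Nat.le_ceil (((b k : ℕ) : ℝ) ^ τ)]
  have hLup : ∀ k, (b (k + 1) : ℝ) - b k ≤ 2 * (b k : ℝ) ^ τ := by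
    intro k
    rw [hbs k]; push_cast
    have h1 := Nat.ceil_lt_add_one (show 0 ≤ ((b k : ℕ) : ℝ) ^ τ by positivity)
    have h2 : 1 ≤ ((b k : ℕ) : ℝ) ^ τ := Real.one_le_rpow (hb1 k) hτ2.le
    linarith
  have hcntlow : ∀ k, η * ((b (k + 1) : ℝ) - b k) / Real.log (b k) ≤ cnt (b k) (b (k + 1)) := by
    intro k
    have h1 := hHoh (b k) ⌈((b k : ℕ) : ℝ) ^ τ⌉₊ (hXX₀.trans (hbX k)) ?_ ?_
    · rw [hbs k]
      unfold cnt
      push_cast
      rw [add_sub_cancel_left]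
      exact h1
    · refine le_trans ?_ (Nat.le_ceil _)
      exact Real.rpow_le_rpow_of_exponent_le (hb1 k) hτ4
    · have h2 := hLup k
      have h3 := (hx₁ (b k) (hXx₁.trans (hbXr k))).2.2.1
      rw [Real.rpow_one] at h3
      rw [hbs k] at h2
      push_cast at h2
      have : (⌈((b k : ℕ) : ℝ) ^ τ⌉₊ : ℝ) ≤ b k := by linarith
      exact_mod_cast this
  have hlogb : ∀ k, 0 < Real.log (b k) := fun k => by
    apply Real.log_pos
    have := hbX k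
    exact_mod_cast (by omega : 1 < b k)
  have hLpos : ∀ k, 0 < (b (k + 1) : ℝ) - b k := fun k =>
    lt_of_lt_of_le (Real.rpow_pos_of_pos (hbpos k) τ) (hLlow k)
  have hg0 : ∀ x : ℝ, (X : ℝ) ≤ x → 0 ≤ g x := fun x hx => (hx₁ x (hXx₁.trans hx)).2.2.2.1
  have H : Blocks b (fun k => g (b k)) := by
    refine ⟨hbm, fun k => hg0 _ (hbXr k), ?_, ?_⟩
    · intro k
      obtain ⟨_, h2, _, _, h5, _⟩ := hx₁ (b k) (hXx₁.trans (hbXr k))
      have h6 := hLlow k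
      have h7 : 0 < (b k : ℝ) ^ τ := Real.rpow_pos_of_pos (hbpos k) τ
      have h8 : 0 < (b k : ℝ) ^ θ₁ := Real.rpow_pos_of_pos (hbpos k) θ₁
      show g (b k) < _
      linarith
    · intro k
      have h1 := hcntlow k
      have h2 : 0 < η * ((b (k + 1) : ℝ) - b k) / Real.log (b k) :=
        div_pos (mul_pos hη (hLpos k)) (hlogb k)
      have h3 : (0 : ℝ) < cnt (b k) (b (k + 1)) := lt_of_lt_of_le h2 h1
      have h4 : 0 < cnt (b k) (b (k + 1)) := by exact_mod_cast h3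
      exact h4
  have hdens : ∀ k, ((b (k + 1) : ℝ) - b k) / cnt (b k) (b (k + 1)) ≤ 1 / η * Real.log (b k) := by
    intro k
    have h1 := hcntlow k
    have h3 : (0 : ℝ) < cnt (b k) (b (k + 1)) := by
      exact_mod_cast H.one_le k
    rw [div_le_iff₀ (hlogb k)] at h1
    rw [div_le_iff₀ h3, mul_assoc, one_div, ← div_eq_inv_mul, le_div_iff₀ hη]
    linarith
  -- closeness
  have hclose : ∀ p : ℕ, p.Prime → |rr b (fun k => g (b k)) p - p| ≤ (p : ℝ) ^ θ := by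
    intro p hp
    by_cases h0 : p ≤ b 0
    · rw [rr_small h0, sub_self, abs_zero]; positivity
    · obtain ⟨h1, h2⟩ := kk_spec H (not_le.1 h0)
      obtain ⟨h3, h4⟩ := rr_bounds H hp h1 h2
      have h5 := H.nonneg (kk b p)
      have h6 := hLup (kk b p)
      have h7 := (hx₁ (b (kk b p)) (hXx₁.trans (hbXr _))).1
      have h8 : (b (kk b p) : ℝ) < p := by exact_mod_cast h1
      have h9 : (p : ℝ) ≤ b (kk b p + 1) := by exact_mod_cast h2
      have h10 : (b (kk b p) : ℝ) ^ θ ≤ (p : ℝ) ^ θ :=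
        Real.rpow_le_rpow (hbpos _).le h8.le (by linarith)
      rw [abs_le]
      constructor <;> linarith
  have hone : ∀ p : ℕ, p.Prime → 1 < rr b (fun k => g (b k)) p := by
    intro p hp
    by_cases h0 : p ≤ b 0
    · rw [rr_small h0]; exact_mod_cast hp.one_lt
    · obtain ⟨h1, h2⟩ := kk_spec H (not_le.1 h0)
      obtain ⟨h3, h4⟩ := rr_bounds H hp h1 h2
      have h5 := H.nonneg (kk b p)
      have h6 := hb1 (kk b p)
      linarith
  have hC : Close (rr b (fun k => g (b k))) θ :=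
    ⟨hone, 1, fun p hp => by rw [one_mul]; exact hclose p hp⟩
  obtain ⟨ρ, hρ, c, hc, hstab⟩ := stability hC hθ1
  -- eventually `pr n > b 0`
  have hprtend : Tendsto pr atTop atTop := pr_strictMono.tendsto_atTop
  refine ⟨fun n => rr b (fun k => g (b k)) (pr n), θ, ρ, c, 1 / η, ?_, hone _ (pr_prime 0), hθ1, hρ,
    hc, fun n => hclose _ (pr_prime n), ?_, ?_, ?_⟩
  · intro n m hnm
    exact rr_lt H (pr_prime n) (pr_prime m) (pr_strictMono hnm)
  · refine hstab.congr_left ?_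
    intro x
    rw [gcount_eq]
  · filter_upwards [hprtend.eventually_gt_atTop (b 0)] with n hn
    rcases gap_le H hn with ⟨k, hk1, hk2⟩ | ⟨k, hk1, hk2⟩
    · have h1 : 0 ≤ g (rr b (fun k => g (b k)) (pr n)) := hg0 _ ((hbXr k).trans hk1)
      have h2 : Real.log (b k) ≤ Real.log (rr b (fun k => g (b k)) (pr n)) :=
        Real.log_le_log (hbpos k) hk1
      have h3 := hdens k
      have h4 : 1 / η * Real.log (b k) ≤ 1 / η * Real.log (rr b (fun k => g (b k)) (pr n)) :=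
        mul_le_mul_of_nonneg_left h2 (by positivity)
      linarith
    · rw [hk1] at hk2 ⊢
      have h3 := hdens k
      linarith
  · intro ε hε
    obtain ⟨δ, hδ, hδg⟩ := hreg ε hε
    obtain ⟨δ', hδ'0, hδ'1, hδ'2⟩ : ∃ δ' : ℝ, 0 < δ' ∧ δ' ≤ δ ∧ δ' ≤ 1 :=
      ⟨min δ 1, lt_min hδ one_pos, min_le_left _ _, min_le_right _ _⟩
    have e4 : ∀ᶠ x : ℝ in atTop, 8 / δ' * x ^ τ ≤ x ^ (1 : ℝ) := eventually_two_rpow_le hτ1 _
    obtain ⟨x₂, hx₂⟩ := (hδg.and (e4.and (eventually_ge_atTop 1))).exists_forall_of_atTop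
    filter_upwards [eventually_ge_atTop (b 3 : ℝ), eventually_ge_atTop (4 * x₂)] with x hxa hxb
    -- choose the block
    have hne : ∃ k, x < b (k + 3) := by
      obtain ⟨k, hk⟩ := exists_nat_gt x
      refine ⟨k, hk.trans_le ?_⟩
      have h1 : k + 3 ≤ b (k + 3) := hbm.id_le (k + 3)
      exact_mod_cast (by omega : k ≤ b (k + 3))
    classical
    have hK1 := Nat.find_spec hne
    have hKmin : ∀ j, j < Nat.find hne → (b (j + 3) : ℝ) ≤ x := fun j hj =>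
      not_lt.1 (Nat.find_min hne hj)
    have hKpos : 0 < Nat.find hne := by
      rcases Nat.eq_zero_or_pos (Nat.find hne) with h0 | h0
      · rw [h0] at hK1
        exact absurd hK1 (not_lt.2 hxa)
      · exact h0
    obtain ⟨K, hK⟩ : ∃ K, Nat.find hne = K + 1 := ⟨Nat.find hne - 1, by omega⟩
    rw [hK] at hK1 hKmin
    have hK2 : (b (K + 3) : ℝ) ≤ x := hKmin K (Nat.lt_succ_self K)
    have hK3 : x < b (K + 4) := hK1
    -- the gap at `b (K + 2)`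
    obtain ⟨n, hn1, hn2, hn3⟩ := exists_gap H (K + 1)
    refine ⟨n, hn1.trans hK2, ?_⟩
    refine le_trans ?_ hn3
    show (1 - ε) * g x ≤ g (b (K + 2))
    -- sizes
    have s1 := hLup (K + 2)
    have s2 := hLup (K + 3)
    have t1 := (hx₁ (b (K + 2)) (hXx₁.trans (hbXr _))).2.2.1
    have t2 := (hx₁ (b (K + 3)) (hXx₁.trans (hbXr _))).2.2.1
    rw [Real.rpow_one] at t1 t2
    have u1 : (b (K + 3) : ℝ) ≤ 2 * b (K + 2) := by
      have : (b (K + 2 + 1) : ℝ) = b (K + 3) := rfl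
      linarith
    have u2 : (b (K + 4) : ℝ) ≤ 2 * b (K + 3) := by
      have : (b (K + 3 + 1) : ℝ) = b (K + 4) := rfl
      linarith
    have v0 : x₂ ≤ b (K + 2) := by linarith
    have hb23 : (b (K + 2) : ℝ) ≤ b (K + 3) := by
      exact_mod_cast hbm.monotone (by omega : K + 2 ≤ K + 3)
    have v1 : x₂ ≤ b (K + 3) := v0.trans hb23
    obtain ⟨w1, w2, w3⟩ := hx₂ _ v0
    obtain ⟨_, w2', _⟩ := hx₂ _ v1
    rw [Real.rpow_one] at w2 w2'
    have y1 : 2 * (b (K + 2) : ℝ) ^ τ ≤ δ' / 4 * b (K + 2) := by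
      have := mul_le_mul_of_nonneg_left w2 (show 0 ≤ δ' / 4 by positivity)
      calc 2 * (b (K + 2) : ℝ) ^ τ = δ' / 4 * (8 / δ' * (b (K + 2) : ℝ) ^ τ) := by
            field_simp; norm_num
        _ ≤ _ := this
    have y2 : 2 * (b (K + 3) : ℝ) ^ τ ≤ δ' / 4 * b (K + 3) := by
      have := mul_le_mul_of_nonneg_left w2' (show 0 ≤ δ' / 4 by positivity)
      calc 2 * (b (K + 3) : ℝ) ^ τ = δ' / 4 * (8 / δ' * (b (K + 3) : ℝ) ^ τ) := by
            field_simp; norm_num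
        _ ≤ _ := this
    have z1 : (b (K + 3) : ℝ) ≤ (1 + δ' / 4) * b (K + 2) := by
      have : (b (K + 2 + 1) : ℝ) = b (K + 3) := rfl
      linarith
    have z2 : (b (K + 4) : ℝ) ≤ (1 + δ' / 4) * b (K + 3) := by
      have : (b (K + 3 + 1) : ℝ) = b (K + 4) := rfl
      linarith
    have hbK : (0 : ℝ) < b (K + 2) := hbpos _
    have z3 : x ≤ (1 + δ) * b (K + 2) := by
      have : (b (K + 4) : ℝ) ≤ (1 + δ' / 4) * ((1 + δ' / 4) * b (K + 2)) :=
        z2.trans (mul_le_mul_of_nonneg_left z1 (by positivity))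
      have h3 : (1 + δ' / 4) * ((1 + δ' / 4) * b (K + 2)) ≤ (1 + δ) * (b (K + 2) : ℝ) := by
        have : (1 + δ' / 4) * (1 + δ' / 4) ≤ 1 + δ := by nlinarith
        calc (1 + δ' / 4) * ((1 + δ' / 4) * b (K + 2)) = ((1 + δ' / 4) * (1 + δ' / 4)) * b (K + 2) := by ring
          _ ≤ _ := mul_le_mul_of_nonneg_right this hbK.le
      linarith
    have hxx₀ : x₀ ≤ x := by
      have := hbXr (K + 3)
      linarith
    have gx : g x ≤ g ((1 + δ) * b (K + 2)) := by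
      apply hx₀ _ _ z3
      · exact hxx₀
      · exact hxx₀.trans z3
    have gx0 : 0 ≤ g x := by
      apply hg0
      have := hbXr (K + 3)
      linarith
    have gb0 : 0 ≤ g (b (K + 2)) := hg0 _ (hbXr _)
    have gx1 : g x ≤ (1 + ε) * g (b (K + 2)) := gx.trans w1
    rcases le_or_gt ε 1 with hle1 | hgt1
    · calc (1 - ε) * g x ≤ (1 - ε) * ((1 + ε) * g (b (K + 2))) :=
            mul_le_mul_of_nonneg_left gx1 (by linarith)
        _ = g (b (K + 2)) - ε ^ 2 * g (b (K + 2)) := by ring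
        _ ≤ g (b (K + 2)) := by
            have : 0 ≤ ε ^ 2 * g (b (K + 2)) := by positivity
            linarith
    · have : (1 - ε) * g x ≤ 0 := mul_nonpos_of_nonpos_of_nonneg (by linarith) gx0
      linarith

end Pool.Agent.KS6_1.Beu
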